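import Mathlib
import Pool.Agent.LRE.A3
import Pool.Agent.LRE.A4

set_option autoImplicit false

/-!
Thin range `k ≤ n²/64` of the numbers `e(n,k)` (`MP_f1b527_co`): definitions and first facts.
`psi` is the functional of `Pool.Agent.LRE.Defs` on multisets of row lengths.
-/

namespace Pool.Agent.LRT

open Finset
open Pool.Agent.LRE

/-- `∏_{i=1}^{c} i/(b+i)` (for integer `b` this is `b! c!/(b+c)!`) -/
noncomputable def hh (c : ℕ) (b : ℝ) : ℝ :=
  ∏ i ∈ range c, (((i : ℝ) + 1) / (b + ((i : ℝ) + 1)))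

/-- the near rectangle: `k / c` rows of length `c` and one row of length `k % c` -/
noncomputable def NN (c k : ℕ) : ℝ := psi (Multiset.replicate (k / c) c + {k % c})

/-- `∏_{p=1}^{w} (1 + d_p/p)` -/
noncomputable def PP (d : ℕ → ℕ) (w : ℕ) : ℝ :=
  ∏ p ∈ range w, (1 + (d (p + 1) : ℝ) / ((p : ℝ) + 1))

/-- `d/(t+1-d)` -/
noncomputable def gq (t d : ℕ) : ℝ := (d : ℝ) / ((t : ℝ) + 1 - (d : ℝ))

/-- `∑_{p=1}^{w} (g(d_p)/p) ∏_{p'<p} (1 + d_{p'}/p')`, with `g = gq t` -/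
noncomputable def Ph (t : ℕ) (d : ℕ → ℕ) (w : ℕ) : ℝ :=
  ∑ p ∈ range w, gq t (d (p + 1)) / ((p : ℝ) + 1) * PP d p

/-- `d_1 + … + d_w` -/
def SD (d : ℕ → ℕ) (w : ℕ) : ℕ := ∑ p ∈ range w, d (p + 1)

/-- the number of rows of length `< p` (the deficit of column `p`) -/
def dd (s : Multiset ℕ) (p : ℕ) : ℕ := s.countP (fun x => x < p)

/-- the bound of the case `β` -/
noncomputable def bet (x : ℝ) : ℝ :=
  max (2 / (1 + x) ^ 2 - 1 / 2) (9 / (4 * (1 + x) ^ 2) - 2 / 3)

/-! ### first facts -/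

theorem hh_zero (b : ℝ) : hh 0 b = 1 := by simp [hh]

theorem hh_succ (c : ℕ) (b : ℝ) :
    hh (c + 1) b = hh c b * (((c : ℝ) + 1) / (b + ((c : ℝ) + 1))) := by
  unfold hh
  rw [prod_range_succ]

theorem hh_pos (c : ℕ) {b : ℝ} (hb : 0 ≤ b) : 0 < hh c b := by
  unfold hh
  apply prod_pos
  intro i _
  positivity

theorem hh_anti (c : ℕ) {a b : ℝ} (ha : 0 ≤ a) (hab : a ≤ b) : hh c b ≤ hh c a := by
  unfold hh
  apply prod_le_prod
  · intro i _
    have : 0 ≤ b := ha.trans hab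
    positivity
  · intro i _
    apply div_le_div_of_nonneg_left (by positivity) (by positivity)
    linarith

theorem hh_le_one (c : ℕ) {b : ℝ} (hb : 0 ≤ b) : hh c b ≤ 1 := by
  have h := hh_anti c le_rfl hb
  have h1 : hh c 0 = 1 := by
    unfold hh
    apply prod_eq_one
    intro i _
    rw [zero_add]
    exact div_self (by positivity)
  rwa [h1] at h

theorem hh_zero_right (c : ℕ) : hh c 0 = 1 := by
  unfold hh
  apply prod_eq_one
  intro i _
  rw [zero_add]
  exact div_self (by positivity)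

/-- `hh c (b+1) = hh c b (b+1)/(b+c+1)` -/
theorem hh_add_one (c : ℕ) {b : ℝ} (hb : 0 ≤ b) :
    hh c (b + 1) = hh c b * ((b + 1) / (b + c + 1)) := by
  induction c with
  | zero =>
    rw [hh_zero, hh_zero]
    push_cast
    rw [add_zero, one_mul, div_self (by positivity)]
  | succ c ih =>
    rw [hh_succ, hh_succ, ih]
    push_cast
    have h1 : b + (c : ℝ) + 1 ≠ 0 := by positivity
    have h2 : b + 1 + ((c : ℝ) + 1) ≠ 0 := by positivity
    have h3 : b + ((c : ℝ) + 1) ≠ 0 := by positivity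
    have h4 : b + ((c : ℝ) + 1) + 1 ≠ 0 := by positivity
    field_simp
    ring

theorem hh_nat_succ (c r : ℕ) :
    hh c ((r + 1 : ℕ) : ℝ) = hh c r * (((r : ℝ) + 1) / ((r : ℝ) + c + 1)) := by
  push_cast
  exact hh_add_one c (Nat.cast_nonneg r)

/-- symmetry -/
theorem hh_symm (c r : ℕ) : hh c r = hh r c := by
  induction r with
  | zero =>
    rw [Nat.cast_zero, hh_zero_right, hh_zero]
  | succ r ih =>
    rw [hh_nat_succ, hh_succ, ih]
    congr 1
    congr 1
    ring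

theorem PP_zero (d : ℕ → ℕ) : PP d 0 = 1 := by simp [PP]

theorem PP_succ (d : ℕ → ℕ) (w : ℕ) :
    PP d (w + 1) = PP d w * (1 + (d (w + 1) : ℝ) / ((w : ℝ) + 1)) := by
  unfold PP
  rw [prod_range_succ]

theorem PP_ge_one (d : ℕ → ℕ) (w : ℕ) : 1 ≤ PP d w := by
  induction w with
  | zero => rw [PP_zero]
  | succ w ih =>
    rw [PP_succ]
    have h : (0 : ℝ) ≤ (d (w + 1) : ℝ) / ((w : ℝ) + 1) := by positivity
    nlinarith

theorem PP_pos (d : ℕ → ℕ) (w : ℕ) : 0 < PP d w := lt_of_lt_of_le one_pos (PP_ge_one d w)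

theorem Ph_zero (t : ℕ) (d : ℕ → ℕ) : Ph t d 0 = 0 := by simp [Ph]

theorem Ph_succ (t : ℕ) (d : ℕ → ℕ) (w : ℕ) :
    Ph t d (w + 1) = Ph t d w + gq t (d (w + 1)) / ((w : ℝ) + 1) * PP d w := by
  unfold Ph
  rw [sum_range_succ]

theorem SD_zero (d : ℕ → ℕ) : SD d 0 = 0 := by simp [SD]

theorem SD_succ (d : ℕ → ℕ) (w : ℕ) : SD d (w + 1) = SD d w + d (w + 1) := by
  unfold SD
  rw [sum_range_succ]

theorem gq_nonneg {t d : ℕ} (h : d ≤ t) : 0 ≤ gq t d := by
  unfold gq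
  have : (d : ℝ) ≤ t := by exact_mod_cast h
  apply div_nonneg (Nat.cast_nonneg d)
  linarith

theorem dd_mono (s : Multiset ℕ) : Monotone (dd s) := by
  intro a b hab
  unfold dd
  rw [Multiset.countP_eq_card_filter, Multiset.countP_eq_card_filter]
  exact Multiset.card_le_card (Multiset.monotone_filter_right _ (fun v hv => by
    show v < b
    have : v < a := hv
    omega))

end Pool.Agent.LRT
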