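import Mathlib
import Pool.Agent.LRT.Defs

set_option autoImplicit false

namespace Pool.Agent.LRT

open Finset
open Pool.Agent.LRE

theorem h4_sup (n c : ℕ) : (Multiset.replicate (n + 1) c).sup = c := by
  apply le_antisymm
  · rw [Multiset.sup_le]
    intro b hb
    rw [Multiset.eq_of_mem_replicate hb]
  · exact Multiset.le_sup (Multiset.mem_replicate.2 ⟨by omega, rfl⟩)

/-- Rectangle. Induction on `r` with `psi_rec`: for `r+1` rows of length `c` (`sup = c`, `card = r+1`,
`erase c` gives `replicate r c`): `(c + r + 1) psi (c^(r+1)) = (r+1) psi (c^r)`; and `hh_nat_succ`. -/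
theorem psi_rect (r c : ℕ) : psi (Multiset.replicate r c) = hh c r := by
  induction r with
  | zero => rw [Multiset.replicate_zero, psi_zero, Nat.cast_zero, hh_zero_right]
  | succ r ih =>
    have h1 := psi_rec (Multiset.replicate (r + 1) c)
    rw [h4_sup, Multiset.card_replicate, Multiset.map_replicate, Multiset.sum_replicate,
      Multiset.replicate_succ, Multiset.erase_cons_head, ih, nsmul_eq_mul] at h1
    rw [Multiset.replicate_succ, hh_nat_succ]
    push_cast at h1
    have h2 : (c : ℝ) + ((r : ℝ) + 1) ≠ 0 := by positivity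
    have h3 : (r : ℝ) + c + 1 ≠ 0 := by positivity
    apply mul_left_cancel₀ h2
    rw [h1]
    field_simp
    ring

/-- `r` rows of length `c` and one row of length `s ≤ c`. Induction on `r`: for `r = 0`,
`psi {s} = 1/(s+1)` and `hh c 0 = 1`. Step (`psi_rec`, `sup = c` as `r + 1 ≥ 1` and `s ≤ c`):
`(c + r + 2) psi (c^(r+1), s) = (r+1) psi (c^r, s) + psi (c^(r+1))`, by the induction hypothesis
`(r+1) psi (c^r,s) = (r+1) hh c r (r + (c+1)/(s+1))/(c+r+1) = hh c (r+1) (r + (c+1)/(s+1))`
(`hh_nat_succ`) and `psi (c^(r+1)) = hh c (r+1)`. -/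
theorem psi_near (c r s : ℕ) (hs : s ≤ c) :
    psi (Multiset.replicate r c + {s}) =
      hh c r * (((r : ℝ) + ((c : ℝ) + 1) / ((s : ℝ) + 1)) / ((c : ℝ) + r + 1)) := by
  induction r with
  | zero =>
    have h1 := psi_rec {s}
    rw [Multiset.sup_singleton, Multiset.card_singleton, Multiset.map_singleton,
      Multiset.sum_singleton, Multiset.erase_singleton, psi_zero] at h1
    rw [Multiset.replicate_zero, zero_add, Nat.cast_zero, hh_zero_right]
    push_cast at h1
    have h2 : (s : ℝ) + 1 ≠ 0 := by positivity
    have h3 : (c : ℝ) + 1 ≠ 0 := by positivity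
    apply mul_left_cancel₀ h2
    rw [h1]
    field_simp
    ring
  | succ r ih =>
    have h1 := psi_rec (Multiset.replicate (r + 1) c + {s})
    have e1 : (Multiset.replicate (r + 1) c + {s}).sup = c := by
      rw [Multiset.sup_add, h4_sup, Multiset.sup_singleton]
      exact sup_eq_left.2 hs
    have e2 : (Multiset.replicate (r + 1) c + {s}).card = r + 2 := by
      rw [Multiset.card_add, Multiset.card_replicate, Multiset.card_singleton]
    have e3 : (Multiset.replicate (r + 1) c + {s}).erase c = Multiset.replicate r c + {s} := by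
      rw [Multiset.replicate_succ, Multiset.cons_add, Multiset.erase_cons_head]
    have e4 : (Multiset.replicate (r + 1) c + {s}).erase s = Multiset.replicate (r + 1) c := by
      rw [add_comm, Multiset.singleton_add, Multiset.erase_cons_head]
    rw [e1, e2, Multiset.map_add, Multiset.sum_add, Multiset.map_replicate, Multiset.sum_replicate,
      Multiset.map_singleton, Multiset.sum_singleton, e3, e4, ih, psi_rect, nsmul_eq_mul] at h1
    have h2 : (c : ℝ) + ((r : ℝ) + 2) ≠ 0 := by positivity
    rw [hh_nat_succ] at h1 ⊢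
    push_cast at h1 ⊢
    have h3 : (c : ℝ) + r + 1 ≠ 0 := by positivity
    have h4 : (r : ℝ) + c + 1 ≠ 0 := by positivity
    have h5 : (s : ℝ) + 1 ≠ 0 := by positivity
    have h6 : (c : ℝ) + ((r : ℝ) + 1) + 1 ≠ 0 := by positivity
    apply mul_left_cancel₀ h2
    rw [h1]
    field_simp
    ring

end Pool.Agent.LRT
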