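import Mathlib
import Pool.Agent.LRT.H4

set_option autoImplicit false

namespace Pool.Agent.LRT

open Finset
open Pool.Agent.LRE

theorem c1_erase_rep (L j : ℕ) (ν : Multiset ℕ) :
    (ν + Multiset.replicate (j + 1) L).erase L = ν + Multiset.replicate j L := by
  rw [Multiset.replicate_succ, Multiset.add_cons, Multiset.erase_cons_head]

theorem c1_sup (L j : ℕ) (ν : Multiset ℕ) (hν : ∀ x ∈ ν, L ≤ x) (h0 : ν ≠ 0) :
    (ν + Multiset.replicate j L).sup = ν.sup := by
  rw [Multiset.sup_add]
  apply sup_eq_left.2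
  rw [Multiset.sup_le]
  intro b hb
  rw [Multiset.eq_of_mem_replicate hb]
  obtain ⟨a, ha⟩ := Multiset.exists_mem_of_ne_zero h0
  exact (hν a ha).trans (Multiset.le_sup ha)

/-- the recursion in a context -/
theorem c1_rec (L j : ℕ) (ν : Multiset ℕ) (hν : ∀ x ∈ ν, L ≤ x) (h0 : ν ≠ 0) :
    ((ν.sup : ℝ) + ν.card + j) * psi (ν + Multiset.replicate j L) =
      (j : ℝ) * psi (ν + Multiset.replicate (j - 1) L) +
        (ν.map fun z => psi (ν.erase z + Multiset.replicate j L)).sum := by
  have h1 := psi_rec (ν + Multiset.replicate j L)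
  rw [c1_sup L j ν hν h0, Multiset.card_add, Multiset.card_replicate, Multiset.map_add,
    Multiset.sum_add] at h1
  push_cast at h1
  rw [← add_assoc] at h1
  rw [h1, add_comm]
  congr 1
  · rcases j with _ | j
    · simp
    · rw [Multiset.map_replicate, Multiset.sum_replicate, c1_erase_rep, nsmul_eq_mul,
        Nat.add_sub_cancel]
  · congr 1
    apply Multiset.map_congr rfl
    intro z hz
    rw [Multiset.erase_add_left_pos _ hz]

theorem c1_num (j w c L F0 F1 F2 S1 S2 : ℝ) (hj : 0 ≤ j) (hw : 0 ≤ w) (hc : 0 ≤ c)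
    (h1 : (w + c + j) * F1 = j * F0 + S1)
    (h2 : (w + c + (j + 1)) * F2 = (j + 1) * F1 + S2)
    (h3 : (j + 1) * S1 ≤ (L + j + 1) * S2)
    (h4 : j * F0 ≤ (L + j) * F1) : (j + 1) * F1 ≤ (L + j + 1) * F2 := by
  have h5 : (w + c + j + 1) * ((j + 1) * F1) ≤ (w + c + j + 1) * ((L + j + 1) * F2) := by
    have e1 : S1 = (w + c + j) * F1 - j * F0 := by linarith
    have e2 : S2 = (w + c + (j + 1)) * F2 - (j + 1) * F1 := by linarith
    rw [e1, e2] at h3
    have h6 : (j + 1) * (j * F0) ≤ (j + 1) * ((L + j) * F1) :=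
      mul_le_mul_of_nonneg_left h4 (by linarith)
    nlinarith
  exact le_of_mul_le_mul_left h5 (by linarith)

theorem c1_aux1 (L n : ℕ) : ∀ ν : Multiset ℕ, ν.card = n → (∀ x ∈ ν, L ≤ x) → ∀ j : ℕ,
    ((j : ℝ) + 1) * psi (ν + Multiset.replicate j L) ≤
      ((L : ℝ) + j + 1) * psi (ν + Multiset.replicate (j + 1) L) := by
  induction n with
  | zero =>
    intro ν hn _ j
    rw [Multiset.card_eq_zero.1 hn, zero_add, zero_add, psi_rect, psi_rect, hh_nat_succ]
    apply le_of_eq
    have : (j : ℝ) + L + 1 ≠ 0 := by positivity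
    field_simp
    ring
  | succ n ih =>
    intro ν hn hν j
    have h0 : ν ≠ 0 := by
      rintro rfl
      simp at hn
    have hS : ∀ j : ℕ, ((j : ℝ) + 1) * (ν.map fun z =>
        psi (ν.erase z + Multiset.replicate j L)).sum ≤ ((L : ℝ) + j + 1) *
          (ν.map fun z => psi (ν.erase z + Multiset.replicate (j + 1) L)).sum := by
      intro j
      rw [← Multiset.sum_map_mul_left, ← Multiset.sum_map_mul_left]
      apply Multiset.sum_map_le_sum_map
      intro z hz
      apply ih (ν.erase z)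
      · rw [Multiset.card_erase_of_mem hz, hn]
        rfl
      · intro x hx
        exact hν x (Multiset.mem_of_mem_erase hx)
    induction j with
    | zero =>
      have r1 := c1_rec L 0 ν hν h0
      have r2 := c1_rec L 1 ν hν h0
      have h4 := hS 0
      push_cast at r1 r2 h4 ⊢
      refine c1_num 0 ν.sup ν.card L (psi (ν + Multiset.replicate 0 L)) _ _ _ _ le_rfl
        (Nat.cast_nonneg _) (Nat.cast_nonneg _) r1 ?_ h4 ?_
      · rw [zero_add]
        exact r2
      · rw [zero_mul]
        have := (psi_pos (ν + Multiset.replicate 0 L)).le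
        positivity
    | succ j ihj =>
      have r1 := c1_rec L (j + 1) ν hν h0
      have r2 := c1_rec L (j + 1 + 1) ν hν h0
      have h4 := hS (j + 1)
      rw [Nat.add_sub_cancel] at r1 r2
      push_cast at r1 r2 h4 ⊢
      refine c1_num ((j : ℝ) + 1) ν.sup ν.card L (psi (ν + Multiset.replicate j L)) _ _ _ _
        (by positivity) (Nat.cast_nonneg _) (Nat.cast_nonneg _) r1 r2 h4 ?_
      rw [← add_assoc]
      exact ihj

/-- Let `f_j(ν) = psi (ν + L^j)`, `c = ν.card`. Induction on `c`, and for fixed `ν` induction on `j`.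
`ν = 0`: `psi_rect` and `hh_nat_succ` (equality; for `L = 0` as well).
`ν ≠ 0`: let `w = ν.sup ≥ L`; then `(ν + L^j).sup = w` for all `j`, and `psi_rec` says
`(w+c+j) f_j(ν) = j f_{j-1}(ν) + ∑_{z ∈ ν} f_j(ν.erase z)` (for `j = 0` without the first term).
Induction hypothesis for `ν.erase z`, summed over `z ∈ ν`:
`(j+1)[(w+c+j) f_j - j f_{j-1}] ≤ (L+j+1)[(w+c+j+1) f_{j+1} - (j+1) f_j]`.
With the statement for `j-1`, i.e. `j f_{j-1} ≤ (L+j) f_j` (nothing to use for `j = 0`), this gives
`(j+1)(w+c+j+1) f_j ≤ (L+j+1)(w+c+j+1) f_{j+1}` (for `j = 0`: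
`(w+c+L+1) f_0 ≤ (L+1)(w+c+1) f_1`, and `f_0 > 0`, so also `(w+c+1) f_0 ≤ ...`). -/
theorem ctx1 (L : ℕ) (ν : Multiset ℕ) (hν : ∀ x ∈ ν, L ≤ x) (j : ℕ) :
    ((j : ℝ) + 1) * psi (ν + Multiset.replicate j L) ≤
      ((L : ℝ) + j + 1) * psi (ν + Multiset.replicate (j + 1) L) :=
  c1_aux1 L _ ν rfl hν j

theorem c1_aux2 (L n : ℕ) : ∀ ν : Multiset ℕ, ν.card = n → (∀ x ∈ ν, L ≤ x) → ∀ j : ℕ,
    ((j : ℝ) + 1) * (psi (ν + Multiset.replicate j L) - psi (ν + Multiset.replicate (j + 1) L)) ≤
      ((L : ℝ) + j + 2) *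
        (psi (ν + Multiset.replicate (j + 1) L) - psi (ν + Multiset.replicate (j + 2) L)) := by
  induction n with
  | zero =>
    intro ν hn _ j
    have e2 : Multiset.replicate (j + 2) L = Multiset.replicate (j + 1 + 1) L := rfl
    rw [e2, Multiset.card_eq_zero.1 hn, zero_add, zero_add, zero_add, psi_rect, psi_rect, psi_rect,
      hh_nat_succ L (j + 1), hh_nat_succ L j]
    apply le_of_eq
    push_cast
    have h1 : (j : ℝ) + L + 1 ≠ 0 := by positivity
    have h2 : (j : ℝ) + 1 + L + 1 ≠ 0 := by positivity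
    field_simp
    ring
  | succ n ih =>
    intro ν hn hν j
    have h0 : ν ≠ 0 := by
      rintro rfl
      simp at hn
    have hS : ∀ j : ℕ, ((j : ℝ) + 1) * ((ν.map fun z =>
        psi (ν.erase z + Multiset.replicate j L)).sum - (ν.map fun z =>
        psi (ν.erase z + Multiset.replicate (j + 1) L)).sum) ≤ ((L : ℝ) + j + 2) *
          ((ν.map fun z => psi (ν.erase z + Multiset.replicate (j + 1) L)).sum -
            (ν.map fun z => psi (ν.erase z + Multiset.replicate (j + 2) L)).sum) := by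
      intro j
      rw [← Multiset.sum_map_sub, ← Multiset.sum_map_sub, ← Multiset.sum_map_mul_left,
        ← Multiset.sum_map_mul_left]
      apply Multiset.sum_map_le_sum_map
      intro z hz
      apply ih (ν.erase z)
      · rw [Multiset.card_erase_of_mem hz, hn]
        rfl
      · intro x hx
        exact hν x (Multiset.mem_of_mem_erase hx)
    induction j with
    | zero =>
      have r1 := c1_rec L 0 ν hν h0
      have r2 := c1_rec L 1 ν hν h0
      have r3 := c1_rec L 2 ν hν h0
      have h4 := hS 0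
      have h5 := psi_add_le ν (Multiset.replicate 1 L)
      have e0 : ν + Multiset.replicate 0 L = ν := by simp
      have e1 : (2 : ℕ) - 1 = 1 := rfl
      rw [e1] at r3
      simp only [e0, zero_add, Nat.cast_zero, Nat.cast_one, Nat.cast_ofNat, Nat.sub_self,
        add_zero, zero_mul, one_mul] at r1 r2 r3 h4 ⊢
      set F0 := psi ν
      set F1 := psi (ν + Multiset.replicate 1 L)
      set F2 := psi (ν + Multiset.replicate 2 L)
      set S0 := (ν.map fun z => psi (ν.erase z + Multiset.replicate 0 L)).sum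
      set S1 := (ν.map fun z => psi (ν.erase z + Multiset.replicate 1 L)).sum
      set S2 := (ν.map fun z => psi (ν.erase z + Multiset.replicate 2 L)).sum
      have h6 := c1_num 0 (ν.sup + 1) ν.card ((L : ℝ) + 1) 0 (F0 - F1) (F1 - F2) (S0 - S1)
        (S1 - S2) le_rfl (by positivity) (Nat.cast_nonneg _) (by linarith) (by linarith)
        (by
          have e : (L : ℝ) + 1 + 0 + 1 = (L : ℝ) + 2 := by ring
          rw [e, zero_add, one_mul]
          exact h4) (by
          rw [zero_mul]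
          apply mul_nonneg (by positivity)
          linarith)
      have e : (L : ℝ) + 1 + 0 + 1 = (L : ℝ) + 2 := by ring
      rw [e, zero_add, one_mul] at h6
      exact h6
    | succ j ihj =>
      have r1 := c1_rec L (j + 1) ν hν h0
      have r2 := c1_rec L (j + 2) ν hν h0
      have r3 := c1_rec L (j + 3) ν hν h0
      have h4 := hS (j + 1)
      have e1 : j + 2 - 1 = j + 1 := rfl
      have e2 : j + 3 - 1 = j + 2 := rfl
      have e3 : j + 1 + 1 = j + 2 := rfl
      have e4 : j + 1 + 2 = j + 3 := rfl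
      rw [Nat.add_sub_cancel] at r1
      rw [e1] at r2
      rw [e2] at r3
      rw [e3, e4] at h4 ⊢
      push_cast at r1 r2 r3 h4 ⊢
      set F0 := psi (ν + Multiset.replicate j L)
      set F1 := psi (ν + Multiset.replicate (j + 1) L)
      set F2 := psi (ν + Multiset.replicate (j + 2) L)
      set F3 := psi (ν + Multiset.replicate (j + 3) L)
      set S1 := (ν.map fun z => psi (ν.erase z + Multiset.replicate (j + 1) L)).sum
      set S2 := (ν.map fun z => psi (ν.erase z + Multiset.replicate (j + 2) L)).sum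
      set S3 := (ν.map fun z => psi (ν.erase z + Multiset.replicate (j + 3) L)).sum
      have h6 := c1_num ((j : ℝ) + 1) (ν.sup + 1) ν.card ((L : ℝ) + 1) (F0 - F1) (F1 - F2)
        (F2 - F3) (S1 - S2)
        (S2 - S3) (by positivity) (by positivity) (Nat.cast_nonneg _) (by linarith) (by linarith)
        (by
          have e : (L : ℝ) + 1 + (j + 1) + 1 = (L : ℝ) + (j + 1) + 2 := by ring
          rw [e]
          exact h4) (by
          have e : (L : ℝ) + 1 + (j + 1) = (L : ℝ) + j + 2 := by ring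
          rw [e]
          exact ihj)
      have e : (L : ℝ) + 1 + (j + 1) + 1 = (L : ℝ) + (j + 1) + 2 := by ring
      rw [e] at h6
      exact h6

/-- Let `D_j(ν) = f_j(ν) - f_{j+1}(ν)`. Same induction. `ν = 0`: equality, from `psi_rect`,
`hh_nat_succ`: `hh L j - hh L (j+1) = hh L j · L/(L+j+1)`.
`ν ≠ 0`: the two recursions for `f_j`, `f_{j+1}` give
`(w+c+j+1) D_j(ν) = j D_{j-1}(ν) + ∑_{z ∈ ν} D_j(ν.erase z)`.
Summing the induction hypothesis over `z`:
`(j+1)[(w+c+j+1) D_j - j D_{j-1}] ≤ (L+j+2)[(w+c+j+2) D_{j+1} - (j+1) D_j]`, and with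
`j D_{j-1} ≤ (L+j+1) D_j` (the statement for `j-1`; for `j = 0` use `0 ≤ (L+1) D_0`,
`psi` is antitone: `psi_add_le`) we get `(j+1)(w+c+j+2) D_j ≤ (L+j+2)(w+c+j+2) D_{j+1}`. -/
theorem ctx2 (L : ℕ) (ν : Multiset ℕ) (hν : ∀ x ∈ ν, L ≤ x) (j : ℕ) :
    ((j : ℝ) + 1) * (psi (ν + Multiset.replicate j L) - psi (ν + Multiset.replicate (j + 1) L)) ≤
      ((L : ℝ) + j + 2) *
        (psi (ν + Multiset.replicate (j + 1) L) - psi (ν + Multiset.replicate (j + 2) L)) :=
  c1_aux2 L _ ν rfl hν j

end Pool.Agent.LRT
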