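import Mathlib
import Pool.Agent.LRT.C1

set_option autoImplicit false

namespace Pool.Agent.LRT

open Finset
open Pool.Agent.LRE

/-- the coefficients `q_t(i)` -/
noncomputable def c2q (L : ℕ) : ℕ → ℕ → ℝ
  | 0, i => if i = 0 then 1 else 0
  | t + 1, i => ((if i = t + 1 then (L : ℝ) else 0) + ((t : ℝ) + 1) * c2q L t i) /
      ((L : ℝ) + t + 1)

/-- the coefficients `p_t(i)` -/
noncomputable def c2p (L t i : ℕ) : ℝ := ((if i = t then (L : ℝ) else 0) + c2q L t i) / ((L : ℝ) + 1)

theorem c2q_zero (L i : ℕ) : c2q L 0 i = if i = 0 then 1 else 0 := rfl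

theorem c2q_succ (L t i : ℕ) : c2q L (t + 1) i =
    ((if i = t + 1 then (L : ℝ) else 0) + ((t : ℝ) + 1) * c2q L t i) / ((L : ℝ) + t + 1) := rfl

theorem c2q_nonneg (L t : ℕ) : ∀ i, 0 ≤ c2q L t i := by
  induction t with
  | zero =>
    intro i
    rw [c2q_zero]
    split <;> norm_num
  | succ t ih =>
    intro i
    rw [c2q_succ]
    have h1 := ih i
    apply div_nonneg _ (by positivity)
    apply add_nonneg
    · split
      · positivity
      · exact le_rfl
    · positivity

theorem c2q_big (L t : ℕ) : ∀ i, t < i → c2q L t i = 0 := by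
  induction t with
  | zero =>
    intro i hi
    rw [c2q_zero, if_neg (by omega)]
  | succ t ih =>
    intro i hi
    rw [c2q_succ, if_neg (by omega), ih i (by omega), mul_zero, add_zero, zero_div]

theorem c2q_sum (L t : ℕ) : ∑ i ∈ range (t + 1), c2q L t i = 1 := by
  induction t with
  | zero => rw [Finset.sum_range_one, c2q_zero, if_pos rfl]
  | succ t ih =>
    have h1 : ∀ i ∈ range (t + 1 + 1), c2q L (t + 1) i =
        ((if i = t + 1 then (L : ℝ) else 0) + ((t : ℝ) + 1) * c2q L t i) / ((L : ℝ) + t + 1) :=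
      fun i _ => c2q_succ L t i
    have h2 : ∑ i ∈ range (t + 1 + 1), c2q L t i = 1 := by
      rw [Finset.sum_range_succ, ih, c2q_big L t (t + 1) (by omega), add_zero]
    rw [Finset.sum_congr rfl h1, ← Finset.sum_div, Finset.sum_add_distrib, ← Finset.mul_sum, h2,
      Finset.sum_ite_eq', if_pos (Finset.mem_range.2 (by omega))]
    have h3 : (L : ℝ) + t + 1 ≠ 0 := by positivity
    rw [div_eq_one_iff_eq h3]
    ring

theorem c2q_diag (L t : ℕ) : ((L : ℝ) + t) * c2q L t t = L := by
  rcases t with _ | t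
  · rw [c2q_zero, if_pos rfl, Nat.cast_zero, add_zero, mul_one]
  · rw [c2q_succ, if_pos rfl, c2q_big L t (t + 1) (by omega), mul_zero, add_zero]
    have h3 : (L : ℝ) + t + 1 ≠ 0 := by positivity
    push_cast
    field_simp
    ring

theorem c2q_step (L t : ℕ) : ∀ i, i < t → ((L : ℝ) + i) * c2q L t i =
    ((i : ℝ) + 1) * c2q L t (i + 1) := by
  induction t with
  | zero => intro i hi; omega
  | succ t ih =>
    intro i hi
    have h3 : (L : ℝ) + t + 1 ≠ 0 := by positivity
    rcases Nat.lt_or_ge i t with h | h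
    · have h1 := ih i h
      rw [c2q_succ, c2q_succ, if_neg (by omega), if_neg (by omega), zero_add, zero_add,
        ← mul_div_assoc, ← mul_div_assoc]
      congr 1
      linear_combination ((t : ℝ) + 1) * h1
    · have h2 : i = t := by omega
      subst h2
      have h1 := c2q_diag L i
      rw [c2q_succ, c2q_succ, if_neg (by omega), if_pos rfl, zero_add,
        c2q_big L i (i + 1) (by omega), mul_zero, add_zero, ← mul_div_assoc, ← mul_div_assoc]
      congr 1
      linear_combination ((i : ℝ) + 1) * h1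

theorem c2q_hh (L t : ℕ) : c2q L t 0 = hh L t := by
  induction t with
  | zero => rw [c2q_zero, if_pos rfl, Nat.cast_zero, hh_zero_right]
  | succ t ih =>
    rw [c2q_succ, if_neg (by omega), ih, hh_nat_succ, zero_add]
    have h3 : (L : ℝ) + t + 1 ≠ 0 := by positivity
    have h4 : (t : ℝ) + L + 1 ≠ 0 := by positivity
    field_simp
    ring

theorem c2p_nonneg (L t i : ℕ) : 0 ≤ c2p L t i := by
  unfold c2p
  apply div_nonneg _ (by positivity)
  apply add_nonneg _ (c2q_nonneg L t i)
  split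
  · positivity
  · exact le_rfl

theorem c2p_sum (L t : ℕ) : ∑ i ∈ range (t + 1), c2p L t i = 1 := by
  unfold c2p
  rw [← Finset.sum_div, Finset.sum_add_distrib, c2q_sum, Finset.sum_ite_eq',
    if_pos (Finset.mem_range.2 (by omega))]
  have h3 : (L : ℝ) + 1 ≠ 0 := by positivity
  exact div_self h3

/-- relation (A) -/
theorem c2_A (L t i : ℕ) (hi : i ≤ t + 1) :
    ((t : ℝ) + 1 - i) * c2p L (t + 1) i + ((i : ℝ) + 1) * c2p L (t + 1) (i + 1) =
      ((t : ℝ) + 1) * c2p L t i := by
  have h3 : (L : ℝ) + 1 ≠ 0 := by positivity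
  have h4 : (L : ℝ) + t + 1 ≠ 0 := by positivity
  unfold c2p
  rw [← mul_div_assoc, ← mul_div_assoc, ← mul_div_assoc, ← add_div]
  congr 1
  rcases Nat.lt_or_ge i (t + 1) with h | h
  · have h1 := c2q_step L (t + 1) i h
    have h2 : ((L : ℝ) + t + 1) * c2q L (t + 1) i = ((t : ℝ) + 1) * c2q L t i := by
      rw [c2q_succ, if_neg (by omega), zero_add]
      field_simp
    rw [if_neg (by omega)]
    rcases Nat.lt_or_ge i t with h5 | h5
    · rw [if_neg (by omega), if_neg (by omega)]
      linear_combination h2 - h1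
    · have h6 : i = t := by omega
      subst h6
      rw [if_pos rfl, if_pos rfl]
      linear_combination h2 - h1
  · have h6 : i = t + 1 := by omega
    subst h6
    rw [if_pos rfl, if_neg (by omega), if_neg (by omega), c2q_big L (t + 1) (t + 1 + 1) (by omega),
      c2q_big L t (t + 1) (by omega)]
    push_cast
    ring

theorem c2_sum (t : ℕ) (W : ℝ) (F G P p : ℕ → ℝ)
    (hA : ∀ i, i ≤ t + 1 → ((t : ℝ) + 1 - i) * P i + ((i : ℝ) + 1) * P (i + 1) =
      ((t : ℝ) + 1) * p i)
    (hF : ∀ i : ℕ, (W + i) * F i = (i : ℝ) * F (i - 1) + G i) :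
    (W + ((t : ℝ) + 1)) * ∑ i ∈ range (t + 1 + 1), P i * F i =
      ((t : ℝ) + 1) * (∑ i ∈ range (t + 1), p i * F i) + ∑ i ∈ range (t + 1 + 1), P i * G i := by
  have h1 : (W + ((t : ℝ) + 1)) * ∑ i ∈ range (t + 1 + 1), P i * F i =
      (∑ i ∈ range (t + 1 + 1), ((t : ℝ) + 1 - i) * P i * F i) +
        (∑ i ∈ range (t + 1 + 1), P i * ((i : ℝ) * F (i - 1))) +
          ∑ i ∈ range (t + 1 + 1), P i * G i := by
    rw [Finset.mul_sum, ← Finset.sum_add_distrib, ← Finset.sum_add_distrib]
    refine Finset.sum_congr rfl fun i _ => ?_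
    have h2 := hF i
    linear_combination P i * h2
  have h2 : ∑ i ∈ range (t + 1 + 1), ((t : ℝ) + 1 - i) * P i * F i =
      ∑ i ∈ range (t + 1), ((t : ℝ) + 1 - i) * P i * F i := by
    rw [Finset.sum_range_succ]
    push_cast
    ring
  have h3 : ∑ i ∈ range (t + 1 + 1), P i * ((i : ℝ) * F (i - 1)) =
      ∑ i ∈ range (t + 1), P (i + 1) * (((i : ℝ) + 1) * F i) := by
    rw [Finset.sum_range_succ', Nat.cast_zero, zero_mul, mul_zero, add_zero]
    refine Finset.sum_congr rfl fun i _ => ?_
    rw [Nat.add_sub_cancel]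
    push_cast
    ring
  rw [h1, h2, h3, ← Finset.sum_add_distrib, Finset.mul_sum]
  congr 1
  refine Finset.sum_congr rfl fun i hi => ?_
  have h4 := hA i (by
    have := Finset.mem_range.1 hi
    omega)
  linear_combination F i * h4

theorem c2_swap (ν : Multiset ℕ) (n : ℕ) (f : ℕ → ℕ → ℝ) :
    (ν.map fun z => ∑ i ∈ range n, f i z).sum = ∑ i ∈ range n, (ν.map fun z => f i z).sum := by
  induction ν using Multiset.induction with
  | empty => simp
  | cons a ν ih =>
    rw [Multiset.map_cons, Multiset.sum_cons, ih, ← Finset.sum_add_distrib]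
    refine Finset.sum_congr rfl fun i _ => ?_
    rw [Multiset.map_cons, Multiset.sum_cons]

theorem c2_main (L n : ℕ) : ∀ ν : Multiset ℕ, ν.card = n → (∀ x ∈ ν, L + 1 ≤ x) → ∀ t : ℕ,
    psi (ν + Multiset.replicate t L) =
      ∑ i ∈ range (t + 1), c2p L t i * psi (ν + Multiset.replicate i (L + 1)) := by
  have hzero : ∀ ν : Multiset ℕ, psi (ν + Multiset.replicate 0 L) =
      ∑ i ∈ range (0 + 1), c2p L 0 i * psi (ν + Multiset.replicate i (L + 1)) := by
    intro ν
    have h3 : (L : ℝ) + 1 ≠ 0 := by positivity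
    have h1 : c2p L 0 0 = 1 := by
      unfold c2p
      rw [if_pos rfl, c2q_zero, if_pos rfl, div_self h3]
    rw [zero_add, Finset.sum_range_one, h1, one_mul]
    simp
  induction n with
  | zero =>
    intro ν hn _ t
    have hν0 := Multiset.card_eq_zero.1 hn
    subst hν0
    induction t with
    | zero => exact hzero 0
    | succ t iht =>
      have h1 := c2_sum t ((L : ℝ) + 1) (fun i => psi (0 + Multiset.replicate i (L + 1)))
        (fun i => if i = 0 then (L : ℝ) + 1 else 0) (c2p L (t + 1)) (c2p L t)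
        (fun i hi => c2_A L t i hi) (fun i => by
          show ((L : ℝ) + 1 + i) * psi (0 + Multiset.replicate i (L + 1)) =
            (i : ℝ) * psi (0 + Multiset.replicate (i - 1) (L + 1)) +
              if i = 0 then (L : ℝ) + 1 else 0
          rw [zero_add, zero_add, psi_rect, psi_rect]
          rcases i with _ | i
          · rw [if_pos rfl, Nat.cast_zero, hh_zero_right]
            ring
          · rw [if_neg (by omega), Nat.add_sub_cancel, hh_nat_succ]
            push_cast
            have h4 : (i : ℝ) + (L + 1) + 1 ≠ 0 := by positivity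
            field_simp
            ring)
      rw [← iht] at h1
      have h2 : ∑ i ∈ range (t + 1 + 1), c2p L (t + 1) i * (if i = 0 then (L : ℝ) + 1 else 0) =
          hh L ((t + 1 : ℕ) : ℝ) := by
        have h3 : (L : ℝ) + 1 ≠ 0 := by positivity
        simp only [mul_ite, mul_zero]
        rw [Finset.sum_ite_eq', if_pos (Finset.mem_range.2 (by omega)), ← c2q_hh]
        unfold c2p
        rw [if_neg (by omega), zero_add]
        field_simp
      rw [h2] at h1
      rw [zero_add, psi_rect] at h1 ⊢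
      have h5 : (L : ℝ) + 1 + ((t : ℝ) + 1) ≠ 0 := by positivity
      apply mul_left_cancel₀ h5
      rw [h1, hh_nat_succ]
      have h4 : (t : ℝ) + L + 1 ≠ 0 := by positivity
      field_simp
      ring
  | succ n ih =>
    intro ν hn hν t
    have h0 : ν ≠ 0 := by
      rintro rfl
      simp at hn
    have hν' : ∀ x ∈ ν, L ≤ x := fun x hx => (Nat.le_succ L).trans (hν x hx)
    induction t with
    | zero => exact hzero ν
    | succ t iht =>
      have h1 := c2_sum t ((ν.sup : ℝ) + ν.card) (fun i => psi (ν + Multiset.replicate i (L + 1)))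
        (fun i => (ν.map fun z => psi (ν.erase z + Multiset.replicate i (L + 1))).sum)
        (c2p L (t + 1)) (c2p L t) (fun i hi => c2_A L t i hi)
        (fun i => c1_rec (L + 1) i ν hν h0)
      rw [← iht] at h1
      have h2 : ∑ i ∈ range (t + 1 + 1), c2p L (t + 1) i *
          (ν.map fun z => psi (ν.erase z + Multiset.replicate i (L + 1))).sum =
          (ν.map fun z => psi (ν.erase z + Multiset.replicate (t + 1) L)).sum := by
        have h3 : (ν.map fun z => psi (ν.erase z + Multiset.replicate (t + 1) L)) =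
            ν.map fun z => ∑ i ∈ range (t + 1 + 1), c2p L (t + 1) i *
              psi (ν.erase z + Multiset.replicate i (L + 1)) := by
          apply Multiset.map_congr rfl
          intro z hz
          apply ih (ν.erase z)
          · rw [Multiset.card_erase_of_mem hz, hn]
            rfl
          · intro x hx
            exact hν x (Multiset.mem_of_mem_erase hx)
        rw [h3, c2_swap]
        refine Finset.sum_congr rfl fun i _ => ?_
        rw [Multiset.sum_map_mul_left]
      rw [h2] at h1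
      have h4 := c1_rec L (t + 1) ν hν' h0
      rw [Nat.add_sub_cancel] at h4
      push_cast at h4
      rw [← h4] at h1
      have h5 : (ν.sup : ℝ) + ν.card + ((t : ℝ) + 1) ≠ 0 := by positivity
      exact (mul_left_cancel₀ h5 h1).symm

/-- `t` rows of length `L` are a probability mixture of rows of length `L+1`, in every context `ν`
of rows `≥ L+1`.
Coefficients: `q_0 = (1,0,0,…)`, `q_{t+1}(i) = (L·[i = t+1] + (t+1) q_t(i))/(L+t+1)` and
`p_t(i) = (L·[i = t] + q_t(i))/(L+1)`. They are nonnegative, `q_t(i) = 0` for `i > t` and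
`∑_{i ≤ t} q_t(i) = 1` (induction), and one has (induction on `t`, or from the closed form
`q_t(i) = (t!/i!) ∏ …`) `(L+i) q_t(i) = (i+1) q_t(i+1)` for `i < t`, hence
(A) `(t-i) p_t(i) + (i+1) p_t(i+1) = t p_{t-1}(i)` for all `i ≤ t` (`t ≥ 1`), and
(B) `p_t(0) = q_t(0)/(L+1)` for `t ≥ 1`, `q_t(0) = hh L t`.
Let `S_t(ν) = ∑_{i ≤ t} p_t(i) psi (ν + (L+1)^i)`. Claim `psi (ν + L^t) = S_t(ν)`, by induction on
`ν.card` and on `t`. `t = 0` is trivial (`p_0(0) = 1`).
`ν ≠ 0`, `w = ν.sup ≥ L+1`, `c = ν.card`: `psi_rec` gives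
`(w+c+t) psi (ν+L^t) = t psi (ν+L^(t-1)) + ∑_z psi (ν.erase z + L^t)`, and, with
`F_i(ν) = psi (ν+(L+1)^i)`, `(w+c+i) F_i(ν) = i F_{i-1}(ν) + ∑_z F_i(ν.erase z)`. By the induction
hypotheses the right side of the first is `t ∑ p_{t-1}(i) F_i + ∑ p_t(i) ((w+c+i) F_i - i F_{i-1})`,
which by (A) is `∑_i [(t-i) p_t(i) + (i+1) p_t(i+1) + (w+c+i) p_t(i) - (i+1) p_t(i+1)] F_i
= (w+c+t) S_t(ν)`.
`ν = 0`: `psi (L^t) = hh L t`, `F_i = hh (L+1) i` (`psi_rect`), `(L+1+i) F_i = i F_{i-1}` for `i ≥ 1`;
the same computation gives `(L+1+t) S_t = t hh L (t-1) + (L+1) p_t(0) = t hh L (t-1) + hh L t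
= (L+t) hh L t + hh L t`, i.e. `S_t = hh L t`. -/
theorem lift1 (L t : ℕ) : ∃ p : ℕ → ℝ, (∀ i, 0 ≤ p i) ∧ (∑ i ∈ range (t + 1), p i) = 1 ∧
    ∀ ν : Multiset ℕ, (∀ x ∈ ν, L + 1 ≤ x) →
      psi (ν + Multiset.replicate t L) =
        ∑ i ∈ range (t + 1), p i * psi (ν + Multiset.replicate i (L + 1)) :=
  ⟨c2p L t, c2p_nonneg L t, c2p_sum L t, fun ν hν => c2_main L _ ν rfl hν t⟩

end Pool.Agent.LRT
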