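import Mathlib
import Pool.Agent.LRT.C2

set_option autoImplicit false

namespace Pool.Agent.LRT

open Finset
open Pool.Agent.LRE

/-- the combined coefficients -/
noncomputable def c3p (a u : ℕ) (p' : ℕ → ℝ) (v : ℕ → ℕ → ℝ) (l : ℕ) : ℝ :=
  if a ≤ l then ∑ j ∈ range (u + 1), p' j * (if l - a ≤ j then v j (l - a) else 0) else 0

theorem c3_comb (a u : ℕ) (p' : ℕ → ℝ) (v : ℕ → ℕ → ℝ) (G : ℕ → ℝ) :
    ∑ l ∈ range (a + (u + 1)), c3p a u p' v l * G l =
      ∑ j ∈ range (u + 1), p' j * ∑ i ∈ range (j + 1), v j i * G (a + i) := by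
  rw [Finset.sum_range_add]
  have h1 : ∑ l ∈ range a, c3p a u p' v l * G l = 0 := by
    apply Finset.sum_eq_zero
    intro l hl
    have := Finset.mem_range.1 hl
    unfold c3p
    rw [if_neg (by omega), zero_mul]
  rw [h1, zero_add]
  have h2 : ∀ i ∈ range (u + 1), c3p a u p' v (a + i) * G (a + i) =
      ∑ j ∈ range (u + 1), p' j * ((if i ≤ j then v j i else 0) * G (a + i)) := by
    intro i _
    unfold c3p
    rw [if_pos (by omega), Nat.add_sub_cancel_left, Finset.sum_mul]
    refine Finset.sum_congr rfl fun j _ => ?_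
    ring
  rw [Finset.sum_congr rfl h2, Finset.sum_comm]
  refine Finset.sum_congr rfl fun j hj => ?_
  rw [← Finset.mul_sum]
  congr 1
  have hj' := Finset.mem_range.1 hj
  have h3 : range (j + 1) ⊆ range (u + 1) := Finset.range_subset_range.2 (by omega)
  rw [← Finset.sum_subset h3]
  · refine Finset.sum_congr rfl fun i hi => ?_
    have := Finset.mem_range.1 hi
    rw [if_pos (by omega)]
  · intro i _ hi
    have : ¬ i < j + 1 := fun h => hi (Finset.mem_range.2 h)
    rw [if_neg (by omega), zero_mul]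

theorem c3_split (L : ℕ) (τ : Multiset ℕ) (hτ : ∀ x ∈ τ, x ≤ L + 1) :
    τ = τ.filter (fun x => x ≤ L) + Multiset.replicate (τ.count (L + 1)) (L + 1) := by
  conv_lhs => rw [← Multiset.filter_add_not (fun x => x ≤ L) τ]
  congr 1
  rw [← Multiset.filter_eq']
  apply Multiset.filter_congr
  intro x hx
  have := hτ x hx
  omega

/-- Rows `≤ L` are a probability mixture of rows of length exactly `L`, with coefficients not
depending on the context `ν ≥ L`.
Induction on `L`. `L = 0`: `τ = replicate τ.card 0`, `psi (ν + τ) = psi ν`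
(`psi_replicate_zero_add`), take `p 0 = 1` and `p i = 0` otherwise (`replicate 0 0 = 0`).
Step `L → L+1`: let `a = τ.count (L+1)`, `τ' = τ.filter (· ≤ L)`, `τ = τ' + replicate a (L+1)`,
`τ'.card = u`, `u + a = τ.card`. Induction hypothesis for `τ'`: coefficients `p'`. For `ν ≥ L+1` put
`ν' = ν + (L+1)^a ≥ L`: `psi (ν+τ) = ∑_{j ≤ u} p'(j) psi (ν' + L^j)` and by `lift1` (coefficients
`u_j` for `t = j`) `= ∑_j p'(j) ∑_{i ≤ j} u_j(i) psi (ν + (L+1)^(a+i))`. So
`p(a+i) = ∑_{j ≤ u} p'(j) [i ≤ j] u_j(i)` and `p(l) = 0` for `l < a`. -/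
theorem mixt (L : ℕ) (τ : Multiset ℕ) (hτ : ∀ x ∈ τ, x ≤ L) :
    ∃ p : ℕ → ℝ, (∀ i, 0 ≤ p i) ∧ (∑ i ∈ range (τ.card + 1), p i) = 1 ∧
      ∀ ν : Multiset ℕ, (∀ x ∈ ν, L ≤ x) →
        psi (ν + τ) = ∑ i ∈ range (τ.card + 1), p i * psi (ν + Multiset.replicate i L) := by
  induction L generalizing τ with
  | zero =>
    have h1 : τ = Multiset.replicate τ.card 0 :=
      Multiset.eq_replicate_card.2 fun x hx => Nat.le_zero.1 (hτ x hx)
    refine ⟨fun i => if i = 0 then 1 else 0, fun i => ?_, ?_, fun ν _ => ?_⟩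
    · show (0 : ℝ) ≤ if i = 0 then 1 else 0
      split <;> norm_num
    · rw [Finset.sum_ite_eq', if_pos (Finset.mem_range.2 (by omega))]
    · have h2 : psi (ν + τ) = psi ν := by
        rw [h1, add_comm, psi_replicate_zero_add]
      simp only [ite_mul, zero_mul, one_mul]
      rw [Finset.sum_ite_eq', if_pos (Finset.mem_range.2 (by omega)), h2]
      simp
  | succ L ih =>
    set a := τ.count (L + 1) with ha
    set τ' := τ.filter (fun x => x ≤ L) with hτ'
    have hs : τ = τ' + Multiset.replicate a (L + 1) := c3_split L τ hτ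
    have hcard : τ.card + 1 = a + (τ'.card + 1) := by
      conv_lhs => rw [hs]
      rw [Multiset.card_add, Multiset.card_replicate]
      omega
    obtain ⟨p', hp0, hp1, hp⟩ := ih τ' (fun x hx => (Multiset.mem_filter.1 hx).2)
    choose v hv0 hv1 hv using lift1 L
    refine ⟨c3p a τ'.card p' v, fun l => ?_, ?_, fun ν hν => ?_⟩
    · unfold c3p
      split
      · apply Finset.sum_nonneg
        intro j _
        apply mul_nonneg (hp0 j)
        split
        · exact hv0 j _
        · exact le_rfl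
      · exact le_rfl
    · rw [hcard]
      have h1 := c3_comb a τ'.card p' v (fun _ => 1)
      simp only [mul_one] at h1
      rw [h1, ← hp1]
      refine Finset.sum_congr rfl fun j _ => ?_
      rw [hv1 j, mul_one]
    · rw [hcard, c3_comb a τ'.card p' v (fun l => psi (ν + Multiset.replicate l (L + 1)))]
      have h1 : ν + τ = (ν + Multiset.replicate a (L + 1)) + τ' := by
        conv_lhs => rw [hs]
        rw [add_comm τ', add_assoc]
      have h2 : ∀ x ∈ ν + Multiset.replicate a (L + 1), L + 1 ≤ x := by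
        intro x hx
        rcases Multiset.mem_add.1 hx with hx | hx
        · exact hν x hx
        · rw [Multiset.eq_of_mem_replicate hx]
      rw [h1, hp _ (fun x hx => (Nat.le_succ L).trans (h2 x hx))]
      refine Finset.sum_congr rfl fun j _ => ?_
      congr 1
      rw [hv j _ h2]
      refine Finset.sum_congr rfl fun i _ => ?_
      rw [add_assoc, ← Multiset.replicate_add]

end Pool.Agent.LRT
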