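import Mathlib
import Pool.Agent.LRT.C1
import Pool.Agent.LRT.C3

set_option autoImplicit false

namespace Pool.Agent.LRT

open Finset
open Pool.Agent.LRE

/-- slopes with respect to `H` -/
theorem c4_slope (L : ℝ) (hL : 0 ≤ L) (f H : ℕ → ℝ) (hd : ∀ j, 0 < H j - H (j + 1))
    (hf2 : ∀ j : ℕ, ((j : ℝ) + 1) * (f j - f (j + 1)) ≤ (L + j + 2) * (f (j + 1) - f (j + 2)))
    (hH2 : ∀ j : ℕ, ((j : ℝ) + 1) * (H j - H (j + 1)) = (L + j + 2) * (H (j + 1) - H (j + 2))) :
    Monotone (fun j => (f j - f (j + 1)) / (H j - H (j + 1))) := by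
  apply monotone_nat_of_le_succ
  intro j
  rw [div_le_div_iff₀ (hd j) (hd (j + 1))]
  have h1 := hf2 j
  have h2 := hH2 j
  have h3 : (0 : ℝ) < (L + j + 2) := by positivity
  have h4 := mul_le_mul_of_nonneg_right h1 (hd (j + 1)).le
  have h5 : (L + j + 2) * ((f j - f (j + 1)) * (H (j + 1) - H (j + 1 + 1))) ≤
      (L + j + 2) * ((f (j + 1) - f (j + 1 + 1)) * (H j - H (j + 1))) := by
    have e1 : (L + j + 2) * ((f j - f (j + 1)) * (H (j + 1) - H (j + 1 + 1))) =
        (f j - f (j + 1)) * ((L + j + 2) * (H (j + 1) - H (j + 2))) := by ring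
    rw [e1, ← h2]
    have h6 := mul_le_mul_of_nonneg_right h1 (hd j).le
    linarith
  exact le_of_mul_le_mul_left h5 h3

/-- `f` lies below the chord in the variable `H` -/
theorem c4_chord (f H : ℕ → ℝ) (hd : ∀ j, 0 < H j - H (j + 1))
    (hm : Monotone (fun j => (f j - f (j + 1)) / (H j - H (j + 1)))) (r : ℕ) (j : ℕ) :
    f j ≤ f (r + 1) + (f r - f (r + 1)) / (H r - H (r + 1)) * (H j - H (r + 1)) := by
  set σ := (f r - f (r + 1)) / (H r - H (r + 1)) with hσ
  have hup : ∀ i, r ≤ i → σ * (H i - H (i + 1)) ≤ f i - f (i + 1) := by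
    intro i hi
    have h1 : σ ≤ (f i - f (i + 1)) / (H i - H (i + 1)) := hm hi
    rwa [le_div_iff₀ (hd i)] at h1
  have hdn : ∀ i, i ≤ r → f i - f (i + 1) ≤ σ * (H i - H (i + 1)) := by
    intro i hi
    have h1 : (f i - f (i + 1)) / (H i - H (i + 1)) ≤ σ := hm hi
    rwa [div_le_iff₀ (hd i)] at h1
  rcases le_total (r + 1) j with h | h
  · obtain ⟨m, rfl⟩ := Nat.exists_eq_add_of_le h
    clear h
    induction m with
    | zero => simp
    | succ m ih =>
      have h1 := hup (r + 1 + m) (by omega)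
      have e : r + 1 + (m + 1) = r + 1 + m + 1 := by omega
      rw [e]
      linarith
  · have key : ∀ m j, j + m = r + 1 → f j ≤ f (r + 1) + σ * (H j - H (r + 1)) := by
      intro m
      induction m with
      | zero =>
        intro j hj
        rw [add_zero] at hj
        rw [hj]
        simp
      | succ m ih =>
        intro j hj
        have h1 := hdn j (by omega)
        have h2 := ih (j + 1) (by omega)
        linarith
    exact key (r + 1 - j) j (by omega)

/-- Context domination (P0). Let `f_j = psi (ν + L^j)`, `H_j = psi (L^j) = hh L j` and `p` the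
coefficients of `mixt`: `psi (ν+τ) = ∑ p_j f_j`, `psi τ = ∑ p_j H_j` (`ν = 0`). If `r = 0`:
`psi (ν + τ) ≤ psi ν ≤ κ psi ν` (`psi_add_le`, `psi_pos`). Let `r ≥ 1`.
`H_j - H_{j+1} = H_j L/(L+j+1) > 0`, and `(j+1)(H_j - H_{j+1}) = (L+j+2)(H_{j+1} - H_{j+2})`, so `ctx2`
says that `σ_j = (f_j - f_{j+1})/(H_j - H_{j+1})` is nondecreasing in `j` (`≥ 0` by `psi_add_le`).
Let `σ = σ_{r-1}`. Then `f_j ≤ f_r + σ (H_j - H_r)` for all `j` (for `j < r` and `j > r` by summing
`f_i - f_{i+1} = σ_i (H_i - H_{i+1})`, induction on the distance). `ctx1` for `j = r-1` and equality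
for `H` give `f_{r-1} H_r ≤ f_r H_{r-1}`, i.e. `σ H_r ≤ f_r`. Hence
`psi (ν+τ) = ∑ p_j f_j ≤ f_r + σ (∑ p_j H_j - H_r) ≤ f_r + σ (κ - 1) H_r ≤ κ f_r`. -/
theorem dom (L r : ℕ) (ν τ : Multiset ℕ) (κ : ℝ) (hL : 1 ≤ L) (hκ : 1 ≤ κ)
    (hν : ∀ x ∈ ν, L ≤ x) (hτ : ∀ x ∈ τ, x ≤ L)
    (h : psi τ ≤ κ * psi (Multiset.replicate r L)) :
    psi (ν + τ) ≤ κ * psi (ν + Multiset.replicate r L) := by
  rcases r with _ | r
  · have h1 := psi_add_le ν τ
    have h2 := (psi_pos ν).le
    have e0 : ν + Multiset.replicate 0 L = ν := by simp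
    rw [e0]
    exact h1.trans (le_mul_of_one_le_left h2 hκ)
  obtain ⟨p, hp0, hp1, hp⟩ := mixt L τ hτ
  have hLr : (0 : ℝ) < L := by exact_mod_cast hL
  set f : ℕ → ℝ := fun j => psi (ν + Multiset.replicate j L) with hf
  set H : ℕ → ℝ := fun j => psi (Multiset.replicate j L) with hH
  have hHj : ∀ j, H j = hh L j := fun j => psi_rect j L
  have hHpos : ∀ j, 0 < H j := fun j => psi_pos _
  have hHs : ∀ j : ℕ, H (j + 1) * ((j : ℝ) + L + 1) = H j * ((j : ℝ) + 1) := by
    intro j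
    rw [hHj, hHj, hh_nat_succ]
    have h1 : (j : ℝ) + L + 1 ≠ 0 := by positivity
    field_simp
  have hd : ∀ j, 0 < H j - H (j + 1) := by
    intro j
    have h1 := hHs j
    have h2 := hHpos (j + 1)
    have h3 : (0 : ℝ) < (j : ℝ) + 1 := by positivity
    have h4 : ((j : ℝ) + 1) * (H j - H (j + 1)) = L * H (j + 1) := by linarith
    have h5 : 0 < ((j : ℝ) + 1) * (H j - H (j + 1)) := by
      rw [h4]
      positivity
    exact (mul_pos_iff_of_pos_left h3).1 h5
  have hH2 : ∀ j : ℕ, ((j : ℝ) + 1) * (H j - H (j + 1)) =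
      ((L : ℝ) + j + 2) * (H (j + 1) - H (j + 2)) := by
    intro j
    have h1 := hHs j
    have h2 := hHs (j + 1)
    have e : j + 1 + 1 = j + 2 := rfl
    rw [e] at h2
    push_cast at h2
    linarith
  have hf2 : ∀ j : ℕ, ((j : ℝ) + 1) * (f j - f (j + 1)) ≤
      ((L : ℝ) + j + 2) * (f (j + 1) - f (j + 2)) := fun j => ctx2 L ν hν j
  have hm := c4_slope (L : ℝ) hLr.le f H hd hf2 hH2
  have hch := c4_chord f H hd hm r
  set σ := (f r - f (r + 1)) / (H r - H (r + 1)) with hσ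
  have hσ0 : 0 ≤ σ := by
    apply div_nonneg _ (hd r).le
    have h1 : f (r + 1) ≤ f r := by
      have h2 := psi_add_le (ν + Multiset.replicate r L) (Multiset.replicate 1 L)
      rw [add_assoc, ← Multiset.replicate_add] at h2
      exact h2
    linarith
  have hσH : σ * H (r + 1) ≤ f (r + 1) := by
    rw [hσ, div_mul_eq_mul_div, div_le_iff₀ (hd r)]
    have h1 := ctx1 L ν hν r
    have h2 := hHs r
    have h3 : (0 : ℝ) < (r : ℝ) + 1 := by positivity
    have h4 : ((r : ℝ) + 1) * f r ≤ ((L : ℝ) + r + 1) * f (r + 1) := h1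
    have h5 : ((r : ℝ) + 1) * (f r * H (r + 1)) ≤ ((r : ℝ) + 1) * (f (r + 1) * H r) := by
      have h6 := mul_le_mul_of_nonneg_right h4 (hHpos (r + 1)).le
      have e1 : ((L : ℝ) + r + 1) * f (r + 1) * H (r + 1) =
          f (r + 1) * (H (r + 1) * ((r : ℝ) + L + 1)) := by ring
      rw [e1, h2] at h6
      linarith
    have h7 := le_of_mul_le_mul_left h5 h3
    linarith
  have e1 : psi (ν + τ) = ∑ j ∈ range (τ.card + 1), p j * f j := hp ν hν
  have e2 : psi τ = ∑ j ∈ range (τ.card + 1), p j * H j := by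
    have h1 := hp 0 (by simp)
    simp only [zero_add] at h1
    exact h1
  have h1 : psi (ν + τ) ≤ f (r + 1) + σ * (psi τ - H (r + 1)) := by
    rw [e1]
    calc ∑ j ∈ range (τ.card + 1), p j * f j
        ≤ ∑ j ∈ range (τ.card + 1), p j * (f (r + 1) + σ * (H j - H (r + 1))) := by
          apply Finset.sum_le_sum
          intro j _
          exact mul_le_mul_of_nonneg_left (hch j) (hp0 j)
      _ = (∑ j ∈ range (τ.card + 1), p j) * (f (r + 1) - σ * H (r + 1)) +
            σ * ∑ j ∈ range (τ.card + 1), p j * H j := by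
          rw [Finset.sum_mul, Finset.mul_sum, ← Finset.sum_add_distrib]
          refine Finset.sum_congr rfl fun j _ => ?_
          ring
      _ = f (r + 1) + σ * (psi τ - H (r + 1)) := by
          rw [hp1, ← e2]
          ring
  have h2 : σ * (psi τ - H (r + 1)) ≤ (κ - 1) * f (r + 1) := by
    have h3 : psi τ - H (r + 1) ≤ (κ - 1) * H (r + 1) := by
      have : psi τ ≤ κ * H (r + 1) := h
      linarith
    calc σ * (psi τ - H (r + 1)) ≤ σ * ((κ - 1) * H (r + 1)) :=
          mul_le_mul_of_nonneg_left h3 hσ0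
      _ = (κ - 1) * (σ * H (r + 1)) := by ring
      _ ≤ (κ - 1) * f (r + 1) := mul_le_mul_of_nonneg_left hσH (by linarith)
  show psi (ν + τ) ≤ κ * f (r + 1)
  linarith

end Pool.Agent.LRT
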