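import Mathlib
import Pool.Agent.LRT.C4

set_option autoImplicit false

namespace Pool.Agent.LRT

open Finset
open Pool.Agent.LRE

/-- The secant bound: `psi (ν + τ)` lies below the line through the levels `r` and `r+1` in the
variable `psi τ`. -/
theorem secant (L r : ℕ) (ν τ : Multiset ℕ) (hL : 1 ≤ L)
    (hν : ∀ x ∈ ν, L ≤ x) (hτ : ∀ x ∈ τ, x ≤ L) :
    ∃ σ : ℝ, 0 ≤ σ ∧
      σ * (psi (Multiset.replicate r L) - psi (Multiset.replicate (r + 1) L)) =
        psi (ν + Multiset.replicate r L) - psi (ν + Multiset.replicate (r + 1) L) ∧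
      σ * psi (Multiset.replicate (r + 1) L) ≤ psi (ν + Multiset.replicate (r + 1) L) ∧
      psi (ν + τ) ≤ psi (ν + Multiset.replicate (r + 1) L) +
        σ * (psi τ - psi (Multiset.replicate (r + 1) L)) := by
  obtain ⟨p, hp0, hp1, hp⟩ := mixt L τ hτ
  have hLr : (0 : ℝ) < L := by exact_mod_cast hL
  set f : ℕ → ℝ := fun j => psi (ν + Multiset.replicate j L) with hf
  set H : ℕ → ℝ := fun j => psi (Multiset.replicate j L) with hH
  have hHj : ∀ j, H j = hh L j := fun j => psi_rect j L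
  have hHpos : ∀ j, 0 < H j := fun j => psi_pos _
  have hHs : ∀ j : ℕ, H (j + 1) * ((j : ℝ) + L + 1) = H j * ((j : ℝ) + 1) := by
    intro j
    rw [hHj, hHj, hh_nat_succ]
    have h1 : (j : ℝ) + L + 1 ≠ 0 := by positivity
    field_simp
  have hd : ∀ j, 0 < H j - H (j + 1) := by
    intro j
    have h1 := hHs j
    have h2 := hHpos (j + 1)
    have h3 : (0 : ℝ) < (j : ℝ) + 1 := by positivity
    have h4 : ((j : ℝ) + 1) * (H j - H (j + 1)) = L * H (j + 1) := by linarith
    have h5 : 0 < ((j : ℝ) + 1) * (H j - H (j + 1)) := by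
      rw [h4]
      positivity
    exact (mul_pos_iff_of_pos_left h3).1 h5
  have hH2 : ∀ j : ℕ, ((j : ℝ) + 1) * (H j - H (j + 1)) =
      ((L : ℝ) + j + 2) * (H (j + 1) - H (j + 2)) := by
    intro j
    have h1 := hHs j
    have h2 := hHs (j + 1)
    have e : j + 1 + 1 = j + 2 := rfl
    rw [e] at h2
    push_cast at h2
    linarith
  have hf2 : ∀ j : ℕ, ((j : ℝ) + 1) * (f j - f (j + 1)) ≤
      ((L : ℝ) + j + 2) * (f (j + 1) - f (j + 2)) := fun j => ctx2 L ν hν j
  have hm := c4_slope (L : ℝ) hLr.le f H hd hf2 hH2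
  have hch := c4_chord f H hd hm r
  set σ := (f r - f (r + 1)) / (H r - H (r + 1)) with hσ
  have hσ0 : 0 ≤ σ := by
    apply div_nonneg _ (hd r).le
    have h1 : f (r + 1) ≤ f r := by
      have h2 := psi_add_le (ν + Multiset.replicate r L) (Multiset.replicate 1 L)
      rw [add_assoc, ← Multiset.replicate_add] at h2
      exact h2
    linarith
  have hσH : σ * H (r + 1) ≤ f (r + 1) := by
    rw [hσ, div_mul_eq_mul_div, div_le_iff₀ (hd r)]
    have h1 := ctx1 L ν hν r
    have h2 := hHs r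
    have h3 : (0 : ℝ) < (r : ℝ) + 1 := by positivity
    have h4 : ((r : ℝ) + 1) * f r ≤ ((L : ℝ) + r + 1) * f (r + 1) := h1
    have h5 : ((r : ℝ) + 1) * (f r * H (r + 1)) ≤ ((r : ℝ) + 1) * (f (r + 1) * H r) := by
      have h6 := mul_le_mul_of_nonneg_right h4 (hHpos (r + 1)).le
      have e1 : ((L : ℝ) + r + 1) * f (r + 1) * H (r + 1) =
          f (r + 1) * (H (r + 1) * ((r : ℝ) + L + 1)) := by ring
      rw [e1, h2] at h6
      linarith
    have h7 := le_of_mul_le_mul_left h5 h3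
    linarith
  have e1 : psi (ν + τ) = ∑ j ∈ range (τ.card + 1), p j * f j := hp ν hν
  have e2 : psi τ = ∑ j ∈ range (τ.card + 1), p j * H j := by
    have h1 := hp 0 (by simp)
    simp only [zero_add] at h1
    exact h1
  refine ⟨σ, hσ0, ?_, hσH, ?_⟩
  · show σ * (H r - H (r + 1)) = f r - f (r + 1)
    rw [hσ, div_mul_cancel₀ _ (hd r).ne']
  · show psi (ν + τ) ≤ f (r + 1) + σ * (psi τ - H (r + 1))
    rw [e1]
    calc ∑ j ∈ range (τ.card + 1), p j * f j
        ≤ ∑ j ∈ range (τ.card + 1), p j * (f (r + 1) + σ * (H j - H (r + 1))) := by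
          apply Finset.sum_le_sum
          intro j _
          exact mul_le_mul_of_nonneg_left (hch j) (hp0 j)
      _ = (∑ j ∈ range (τ.card + 1), p j) * (f (r + 1) - σ * H (r + 1)) +
            σ * ∑ j ∈ range (τ.card + 1), p j * H j := by
          rw [Finset.sum_mul, Finset.mul_sum, ← Finset.sum_add_distrib]
          refine Finset.sum_congr rfl fun j _ => ?_
          ring
      _ = f (r + 1) + σ * (psi τ - H (r + 1)) := by
          rw [hp1, ← e2]
          ring

/-- one row `s ≤ L` is a mixture of no row and one row `L` -/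
theorem mix_one (L s : ℕ) (hs : s ≤ L) : ∃ a b : ℝ, 0 ≤ a ∧ 0 ≤ b ∧ a + b = 1 ∧
    ∀ ν : Multiset ℕ, (∀ x ∈ ν, L ≤ x) → ∀ r : ℕ,
      psi (ν + (Multiset.replicate r L + {s})) =
        a * psi (ν + Multiset.replicate r L) + b * psi (ν + Multiset.replicate (r + 1) L) := by
  obtain ⟨p, hp0, hp1, hp⟩ := mixt L {s} (fun x hx => by
    rw [Multiset.mem_singleton] at hx
    omega)
  rw [Multiset.card_singleton, Finset.sum_range_succ, Finset.sum_range_one] at hp1
  refine ⟨p 0, p 1, hp0 0, hp0 1, hp1, fun ν hν r => ?_⟩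
  have h := hp (ν + Multiset.replicate r L) (fun x hx => by
    rcases Multiset.mem_add.1 hx with h1 | h1
    · exact hν x h1
    · exact (Multiset.eq_of_mem_replicate h1).ge)
  rw [Multiset.card_singleton, Finset.sum_range_succ, Finset.sum_range_one, add_assoc, add_assoc,
    add_assoc, ← Multiset.replicate_add, ← Multiset.replicate_add, add_zero] at h
  exact h

/-- Context domination with a near rectangle `L^r, s` as target and a factor `κ ≥ 1`. -/
theorem dom_near (L r s : ℕ) (ν τ : Multiset ℕ) (κ : ℝ) (hL : 1 ≤ L) (hκ : 1 ≤ κ) (hs : s ≤ L)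
    (hν : ∀ x ∈ ν, L ≤ x) (hτ : ∀ x ∈ τ, x ≤ L)
    (h : psi τ ≤ κ * psi (Multiset.replicate r L + {s})) :
    psi (ν + τ) ≤ κ * psi (ν + (Multiset.replicate r L + {s})) := by
  obtain ⟨σ, hσ0, hσ1, hσ2, hσ3⟩ := secant L r ν τ hL hν hτ
  obtain ⟨a, b, ha, hb, hab, hmix⟩ := mix_one L s hs
  have e1 := hmix ν hν r
  have e2 := hmix 0 (by simp) r
  simp only [zero_add] at e2
  set F0 := psi (ν + Multiset.replicate r L)
  set F1 := psi (ν + Multiset.replicate (r + 1) L)
  set H0 := psi (Multiset.replicate r L)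
  set H1 := psi (Multiset.replicate (r + 1) L)
  rw [e2] at h
  rw [e1]
  have h1 : σ * psi τ ≤ σ * (κ * (a * H0 + b * H1)) := mul_le_mul_of_nonneg_left h hσ0
  have hb' : b = 1 - a := by linarith
  subst hb'
  have h2 : σ * (κ * (a * H0 + (1 - a) * H1)) = κ * (a * (F0 - F1)) + κ * (σ * H1) := by
    rw [← hσ1]
    ring
  have h3 : (κ - 1) * (σ * H1) ≤ (κ - 1) * F1 := mul_le_mul_of_nonneg_left hσ2 (by linarith)
  nlinarith

end Pool.Agent.LRT
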