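import Mathlib
import Pool.Agent.LRT.Defs

set_option autoImplicit false

namespace Pool.Agent.LRT

open Finset
open Pool.Agent.LRE

/-- `conj s` has `s.sup` parts (definition: `(Multiset.range s.sup).map _`). -/
theorem conj_card (s : Multiset ℕ) : (conj s).card = s.sup := by
  simp [conj]

theorem cj_range (n a : ℕ) (h : a ≤ n) : ∑ c ∈ range n, (if c < a then 1 else 0) = a := by
  rw [← Finset.card_filter]
  have h1 : (range n).filter (fun c => c < a) = range a := by
    ext c
    rw [Finset.mem_filter, Finset.mem_range, Finset.mem_range]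
    omega
  rw [h1, Finset.card_range]

theorem cj_sum (n : ℕ) (s : Multiset ℕ) (h : ∀ x ∈ s, x ≤ n) :
    ∑ c ∈ range n, s.countP (fun x => c < x) = s.sum := by
  induction s using Multiset.induction with
  | empty => simp
  | cons a s ih =>
    have h1 := ih (fun x hx => h x (Multiset.mem_cons_of_mem hx))
    have h2 : ∀ c ∈ range n, (a ::ₘ s).countP (fun x => c < x) =
        s.countP (fun x => c < x) + (if c < a then 1 else 0) := fun c _ =>
      Multiset.countP_cons _ _ _
    rw [Finset.sum_congr rfl h2, Finset.sum_add_distrib, h1,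
      cj_range n a (h a (Multiset.mem_cons_self a s)), Multiset.sum_cons, add_comm]

/-- double counting: `∑_{c < sup} #{x ∈ s : c < x} = ∑_{x ∈ s} x` (every `x ∈ s` is `≤ s.sup`) -/
theorem conj_sum (s : Multiset ℕ) : (conj s).sum = s.sum :=
  cj_sum s.sup s (fun _ hx => Multiset.le_sup hx)

/-- all parts of `conj s` are positive (for `c < s.sup` some element of `s` is `> c`) -/
theorem conj_pos (s : Multiset ℕ) : ∀ y ∈ conj s, 0 < y := by
  intro y hy
  unfold conj at hy
  obtain ⟨c, hc, rfl⟩ := Multiset.mem_map.1 hy
  rw [Multiset.mem_range] at hc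
  rw [Multiset.countP_pos]
  by_contra hcon
  push Not at hcon
  have h1 : s.sup ≤ c := Multiset.sup_le.2 hcon
  omega

theorem conj_sup_le (s : Multiset ℕ) : (conj s).sup ≤ s.card := by
  rw [Multiset.sup_le]
  intro y hy
  unfold conj at hy
  obtain ⟨c, _, rfl⟩ := Multiset.mem_map.1 hy
  exact Multiset.countP_le_card _ _

/-- if all rows are positive and `s ≠ 0` then column `0` has `s.card` cells -/
theorem conj_sup (s : Multiset ℕ) (hs : ∀ x ∈ s, 0 < x) : (conj s).sup = s.card := by
  apply le_antisymm (conj_sup_le s)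
  rcases Multiset.empty_or_exists_mem s with rfl | ⟨a, ha⟩
  · simp
  · have h1 : a ≤ s.sup := Multiset.le_sup ha
    have h2 := hs a ha
    apply Multiset.le_sup
    unfold conj
    refine Multiset.mem_map.2 ⟨0, Multiset.mem_range.2 (by omega), ?_⟩
    rw [Multiset.countP_eq_card]
    exact hs

end Pool.Agent.LRT
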