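import Mathlib
import Pool.Agent.LRT.Defs

set_option autoImplicit false

namespace Pool.Agent.LRT

open Finset
open Pool.Agent.LRE

/-- `(t+1-d) · d/(t+1-d) + d · (d-1)/(t+2-d) = (t+1) d/(t+2-d)` for `d ≤ t` (here the number of rows
is `t+1`, and `gq t` is used after the removal of a row). For `d = 0` both sides vanish. -/
theorem gq_avg (t d : ℕ) (hd : d ≤ t) :
    ((t : ℝ) + 1 - d) * gq t d + d * gq t (d - 1) = ((t : ℝ) + 1) * gq (t + 1) d := by
  have hdR : (d : ℝ) ≤ t := by exact_mod_cast hd
  rcases Nat.eq_zero_or_pos d with rfl | hpos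
  · simp [gq]
  · unfold gq
    rw [Nat.cast_sub hpos]
    push_cast
    have h1 : (t : ℝ) + 1 - d ≠ 0 := by
      have : (0 : ℝ) < (t : ℝ) + 1 - d := by linarith
      exact this.ne'
    have h2 : (t : ℝ) + 1 - (d - 1) ≠ 0 := by
      have : (0 : ℝ) < (t : ℝ) + 1 - (d - 1) := by linarith
      exact this.ne'
    have h3 : (t : ℝ) + 1 + 1 - d ≠ 0 := by
      have : (0 : ℝ) < (t : ℝ) + 1 + 1 - d := by linarith
      exact this.ne'
    have h4 : (t : ℝ) + 1 - (d - 1) = (t : ℝ) + 1 + 1 - d := by ring
    rw [h4]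
    field_simp
    ring

/-- `1 + Ph ≤ PP` if all deficits are `≤ t` (`gq t d ≤ d`). Induction on `w` with `PP_succ`,
`Ph_succ`. -/
theorem Ph_le_PP (t : ℕ) (d : ℕ → ℕ) (w : ℕ) (h : ∀ p, p < w → d (p + 1) ≤ t) :
    1 + Ph t d w ≤ PP d w := by
  induction w with
  | zero => rw [Ph_zero, PP_zero, add_zero]
  | succ w ih =>
    have h1 := ih fun p hp => h p (by omega)
    have h2 : d (w + 1) ≤ t := h w (by omega)
    have h2R : (d (w + 1) : ℝ) ≤ t := by exact_mod_cast h2
    have h3 : gq t (d (w + 1)) ≤ d (w + 1) := by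
      unfold gq
      exact div_le_self (Nat.cast_nonneg _) (by linarith)
    rw [Ph_succ, PP_succ]
    have h4 : gq t (d (w + 1)) / ((w : ℝ) + 1) * PP d w ≤
        (d (w + 1) : ℝ) / ((w : ℝ) + 1) * PP d w :=
      mul_le_mul_of_nonneg_right (div_le_div_of_nonneg_right h3 (by positivity)) (PP_pos d w).le
    linarith

theorem d1_sum_ite (s : Multiset ℕ) (p : ℕ) (A B : ℝ) :
    (s.map fun x => if x < p then A else B).sum =
      (dd s p : ℝ) * A + ((s.card : ℝ) - dd s p) * B := by
  induction s using Multiset.induction_on with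
  | empty => simp [dd]
  | cons a s ih =>
    rw [Multiset.map_cons, Multiset.sum_cons, ih, Multiset.card_cons]
    unfold dd
    rw [Multiset.countP_cons]
    push_cast
    by_cases h : a < p
    · simp only [h, if_true]
      push_cast
      ring
    · simp only [h, if_false]
      push_cast
      ring

theorem d1_dd_cons (a : ℕ) (s : Multiset ℕ) (p : ℕ) :
    dd (a ::ₘ s) p = dd s p + if a < p then 1 else 0 := by
  unfold dd
  rw [Multiset.countP_cons]

theorem d1_dd_erase {s : Multiset ℕ} {x : ℕ} (hx : x ∈ s) (p : ℕ) :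
    dd s p = dd (s.erase x) p + if x < p then 1 else 0 := by
  conv_lhs => rw [← Multiset.cons_erase hx]
  exact d1_dd_cons x (s.erase x) p

theorem d1_dd_le (s : Multiset ℕ) (p : ℕ) : dd s p ≤ s.card := by
  unfold dd
  exact Multiset.countP_le_card _ _

/-- `dd s p + 1 ≤ s.card` for `p ≤ s.sup`, `s ≠ 0` (an element equal to `s.sup` is not `< p`;
`Pool.Agent.LRE` has `a2_sup_mem`). -/
theorem dd_lt (s : Multiset ℕ) (hs : s ≠ 0) (p : ℕ) (hp : p ≤ s.sup) : dd s p + 1 ≤ s.card := by
  have h1 := a2_sup_mem s hs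
  have h2 := d1_dd_erase h1 p
  rw [if_neg (by omega), add_zero] at h2
  have h3 := d1_dd_le (s.erase s.sup) p
  have h4 := Multiset.card_erase_add_one h1
  omega

theorem d1_PP_mono (d d' : ℕ → ℕ) (w : ℕ) (h : ∀ p, d p ≤ d' p) : PP d w ≤ PP d' w := by
  unfold PP
  apply prod_le_prod
  · intro i _
    positivity
  · intro i _
    have h1 : (d (i + 1) : ℝ) ≤ d' (i + 1) := by exact_mod_cast h (i + 1)
    have h2 : (d (i + 1) : ℝ) / ((i : ℝ) + 1) ≤ (d' (i + 1) : ℝ) / ((i : ℝ) + 1) :=
      div_le_div_of_nonneg_right h1 (by positivity)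
    linarith

theorem d1_avg (s : Multiset ℕ) (t p : ℕ) (hc : s.card = t + 1) (hd : dd s p ≤ t) :
    (s.map fun x => gq t (dd (s.erase x) p)).sum = ((t : ℝ) + 1) * gq (t + 1) (dd s p) := by
  have h1 : (s.map fun x => gq t (dd (s.erase x) p)).sum =
      (s.map fun x => if x < p then gq t (dd s p - 1) else gq t (dd s p)).sum := by
    congr 1
    apply Multiset.map_congr rfl
    intro x hx
    have h2 := d1_dd_erase hx p
    by_cases h : x < p
    · rw [if_pos h] at h2 ⊢
      rw [h2, Nat.add_sub_cancel]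
    · rw [if_neg h] at h2 ⊢
      rw [h2, add_zero]
  rw [h1, d1_sum_ite, hc, ← gq_avg t (dd s p) hd]
  push_cast
  ring

theorem d1_swap (m : Multiset ℕ) (v : ℕ) (F : ℕ → ℕ → ℝ) :
    (m.map fun x => ∑ p ∈ range v, F x p).sum = ∑ p ∈ range v, (m.map fun x => F x p).sum := by
  induction m using Multiset.induction_on with
  | empty => simp
  | cons a m ih =>
    simp only [Multiset.map_cons, Multiset.sum_cons]
    rw [ih, ← sum_add_distrib]

theorem d1_sum_Ph (s : Multiset ℕ) (t v : ℕ) (hc : s.card = t + 1)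
    (hd : ∀ p, p < v → dd s (p + 1) ≤ t) :
    (s.map fun x => Ph t (dd (s.erase x)) v).sum ≤ ((t : ℝ) + 1) * Ph (t + 1) (dd s) v := by
  have h1 : (s.map fun x => Ph t (dd (s.erase x)) v).sum ≤
      (s.map fun x => ∑ p ∈ range v, gq t (dd (s.erase x) (p + 1)) *
        (PP (dd s) p / ((p : ℝ) + 1))).sum := by
    apply Multiset.sum_map_le_sum_map
    intro x hx
    unfold Ph
    apply sum_le_sum
    intro p hp
    have h2 : PP (dd (s.erase x)) p ≤ PP (dd s) p := by
      apply d1_PP_mono
      intro q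
      have := d1_dd_erase hx q
      omega
    have h3 : dd (s.erase x) (p + 1) ≤ t := by
      have h4 := d1_dd_le (s.erase x) (p + 1)
      have h5 := Multiset.card_erase_add_one hx
      omega
    have h4 := gq_nonneg h3
    calc gq t (dd (s.erase x) (p + 1)) / ((p : ℝ) + 1) * PP (dd (s.erase x)) p
        ≤ gq t (dd (s.erase x) (p + 1)) / ((p : ℝ) + 1) * PP (dd s) p :=
          mul_le_mul_of_nonneg_left h2 (by positivity)
      _ = gq t (dd (s.erase x) (p + 1)) * (PP (dd s) p / ((p : ℝ) + 1)) := by ring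
  refine h1.trans (le_of_eq ?_)
  rw [d1_swap]
  unfold Ph
  rw [mul_sum]
  apply sum_congr rfl
  intro p hp
  rw [mem_range] at hp
  rw [Multiset.sum_map_mul_right, d1_avg s t (p + 1) hc (hd p hp)]
  ring

/-- The bound (PB). Induction on `t = s.card`. `t = 0`: `psi 0 = 1 = hh w 0`, `Ph ≥ 0` (= 0).
Step: `s.card = t+1`, `v = s.sup ≤ w`. First the box of width `v`: `psi_rec`:
`(v + t + 1) psi s = ∑_{x ∈ s} psi (s.erase x)`, and by the induction hypothesis for the box of width
`v` (all rows of `s.erase x` are `≤ v`)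
`≤ hh v t ∑_x (1 + Ph t (dd (s.erase x)) v)`. Here `dd (s.erase x) p = dd s p - [x < p]`, so
`PP (dd (s.erase x)) p ≤ PP (dd s) p`, and for every `p ≤ v` (some row is `v`, not `< p`, so
`dd s p ≤ t`) `∑_x gq t (dd (s.erase x) p) = (t+1-dd s p) gq t (dd s p) + dd s p · gq t (dd s p - 1)
= (t+1) gq (t+1) (dd s p)` (`gq_avg`). Hence `(v+t+1) psi s ≤ hh v t (t+1)(1 + Ph (t+1) (dd s) v)`
and `hh v (t+1) = hh v t (t+1)/(t+v+1)` (`hh_nat_succ`) gives
`psi s ≤ hh v (t+1) (1 + Ph (t+1) (dd s) v)`.
Then widen the box from `v` to `w`: for `v ≤ u`, `dd s (u+1) = t+1` (all rows are `< u+1`), and with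
`T = t+1`: `hh u T = hh (u+1) T (1 + T/(u+1))` (`hh_succ`), `gq T T = T`,
`Ph T _ (u+1) = Ph T _ u + T/(u+1) · PP _ u`; the claim
`hh u T (1 + Ph u) ≤ hh (u+1) T (1 + Ph (u+1))` is `(1 + T/(u+1))(1 + Ph u) ≤ 1 + Ph u + T/(u+1) PP u`,
i.e. `Ph_le_PP`. -/
theorem PB (s : Multiset ℕ) (w : ℕ) (hs : ∀ x ∈ s, x ≤ w) :
    psi s ≤ hh w s.card * (1 + Ph s.card (dd s) w) := by
  have main : ∀ (n : ℕ) (s : Multiset ℕ) (w : ℕ), s.card = n → (∀ x ∈ s, x ≤ w) →
      psi s ≤ hh w n * (1 + Ph n (dd s) w) := by
    intro n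
    induction n with
    | zero =>
      intro s w hc _
      rw [Multiset.card_eq_zero.1 hc, psi_zero, Nat.cast_zero, hh_zero_right, one_mul]
      have h1 : 0 ≤ Ph 0 (dd 0) w := by
        unfold Ph
        apply sum_nonneg
        intro p _
        have h2 : dd 0 (p + 1) ≤ 0 := d1_dd_le 0 (p + 1)
        have h3 := gq_nonneg h2
        have h4 := PP_pos (dd 0) p
        positivity
      linarith
    | succ t ih =>
      intro s w hc hs
      have hs0 : s ≠ 0 := by
        rintro rfl
        simp at hc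
      have hvw : s.sup ≤ w := Multiset.sup_le.2 hs
      set v := s.sup with hv
      have hle : ∀ x ∈ s, x ≤ v := fun x hx => Multiset.le_sup hx
      have hdd : ∀ p, p < v → dd s (p + 1) ≤ t := by
        intro p hp
        have := dd_lt s hs0 (p + 1) (by omega)
        omega
      -- the box of width `v`
      have hbase : psi s ≤ hh v ((t + 1 : ℕ) : ℝ) * (1 + Ph (t + 1) (dd s) v) := by
        have h1 := psi_rec s
        rw [← hv, hc] at h1
        have h2 : (s.map fun x => psi (s.erase x)).sum ≤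
            (s.map fun x => hh v (t : ℝ) * (1 + Ph t (dd (s.erase x)) v)).sum := by
          apply Multiset.sum_map_le_sum_map
          intro x hx
          have h3 : (s.erase x).card = t := by
            have := Multiset.card_erase_add_one hx
            omega
          exact ih (s.erase x) v h3 fun y hy => hle y (Multiset.mem_of_mem_erase hy)
        have h3 : (s.map fun x => hh v (t : ℝ) * (1 + Ph t (dd (s.erase x)) v)).sum =
            hh v (t : ℝ) * (((t : ℝ) + 1) + (s.map fun x => Ph t (dd (s.erase x)) v).sum) := by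
          rw [Multiset.sum_map_mul_left, Multiset.sum_map_add, Multiset.map_const',
            Multiset.sum_replicate, hc, nsmul_eq_mul, mul_one]
          push_cast
          ring
        have h4 := d1_sum_Ph s t v hc hdd
        have h5 : 0 < hh v (t : ℝ) := hh_pos v (Nat.cast_nonneg t)
        have h6 : ((v : ℝ) + ((t : ℝ) + 1)) * psi s ≤
            hh v (t : ℝ) * (((t : ℝ) + 1) + ((t : ℝ) + 1) * Ph (t + 1) (dd s) v) := by
          push_cast at h1
          rw [h1]
          refine h2.trans ?_
          rw [h3]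
          exact mul_le_mul_of_nonneg_left (by linarith) h5.le
        rw [hh_nat_succ]
        have h7 : (0 : ℝ) < (v : ℝ) + ((t : ℝ) + 1) := by positivity
        have h8 : hh v (t : ℝ) * (((t : ℝ) + 1) / ((t : ℝ) + v + 1)) *
            (1 + Ph (t + 1) (dd s) v) =
            hh v (t : ℝ) * (((t : ℝ) + 1) + ((t : ℝ) + 1) * Ph (t + 1) (dd s) v) /
              ((v : ℝ) + ((t : ℝ) + 1)) := by
          have e : (t : ℝ) + v + 1 = (v : ℝ) + ((t : ℝ) + 1) := by ring
          rw [e]
          field_simp
        rw [h8, le_div_iff₀ h7, mul_comm]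
        exact h6
      -- widening
      have hwide : ∀ u, v ≤ u → psi s ≤ hh u ((t + 1 : ℕ) : ℝ) * (1 + Ph (t + 1) (dd s) u) := by
        intro u hu
        induction u, hu using Nat.le_induction with
        | base => exact hbase
        | succ u hu ih2 =>
          refine ih2.trans ?_
          have h1 : dd s (u + 1) = t + 1 := by
            rw [← hc]
            unfold dd
            rw [Multiset.countP_eq_card]
            intro x hx
            have := hle x hx
            omega
          have h2 := Ph_le_PP (t + 1) (dd s) u fun p _ => by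
            have := d1_dd_le s (p + 1)
            omega
          have h3 : gq (t + 1) (t + 1) = (t : ℝ) + 1 := by
            unfold gq
            push_cast
            rw [add_sub_cancel_left, div_one]
          have h4 : 0 < hh u ((t + 1 : ℕ) : ℝ) := hh_pos u (Nat.cast_nonneg _)
          rw [hh_succ, Ph_succ, h1, h3]
          have h5 : hh u ((t + 1 : ℕ) : ℝ) * (((u : ℝ) + 1) / (((t + 1 : ℕ) : ℝ) + ((u : ℝ) + 1))) *
              (1 + (Ph (t + 1) (dd s) u + ((t : ℝ) + 1) / ((u : ℝ) + 1) * PP (dd s) u)) =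
              hh u ((t + 1 : ℕ) : ℝ) * ((((u : ℝ) + 1) * (1 + Ph (t + 1) (dd s) u) +
                ((t : ℝ) + 1) * PP (dd s) u) / (((t : ℝ) + 1) + ((u : ℝ) + 1))) := by
            push_cast
            field_simp
            ring
          rw [h5]
          apply mul_le_mul_of_nonneg_left _ h4.le
          rw [le_div_iff₀ (by positivity)]
          have h6 : ((t : ℝ) + 1) * (1 + Ph (t + 1) (dd s) u) ≤ ((t : ℝ) + 1) * PP (dd s) u :=
            mul_le_mul_of_nonneg_left h2 (by positivity)
          linarith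
      exact hwide w hvw
  exact main s.card s w rfl hs

theorem d1_count (a w : ℕ) (h : a ≤ w) :
    (∑ p ∈ range w, if a < p + 1 then 1 else 0) + a = w := by
  induction w, h using Nat.le_induction with
  | base =>
    rw [sum_eq_zero, zero_add]
    intro p hp
    rw [mem_range] at hp
    exact if_neg (by omega)
  | succ n hn ih =>
    rw [sum_range_succ, if_pos (by omega)]
    omega

/-- `∑_{p=1}^{w} #{x : x < p} = ∑_x (w - x)` -/
theorem SD_dd (s : Multiset ℕ) (w : ℕ) (hs : ∀ x ∈ s, x ≤ w) :
    SD (dd s) w + s.sum = s.card * w := by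
  induction s using Multiset.induction_on with
  | empty => simp [SD, dd]
  | cons a s ih =>
    have h1 := ih fun x hx => hs x (Multiset.mem_cons_of_mem hx)
    have h2 := d1_count a w (hs a (Multiset.mem_cons_self a s))
    have h3 : SD (dd (a ::ₘ s)) w = SD (dd s) w + ∑ p ∈ range w, if a < p + 1 then 1 else 0 := by
      unfold SD
      rw [← sum_add_distrib]
      exact sum_congr rfl fun p _ => d1_dd_cons a s (p + 1)
    rw [h3, Multiset.sum_cons, Multiset.card_cons, add_mul, one_mul]
    omega

end Pool.Agent.LRT
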