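import Mathlib
import Pool.Agent.LRT.Defs

set_option autoImplicit false

namespace Pool.Agent.LRT

open Finset

/-- `SD` and `PP` of a vanishing sequence. -/
theorem e1_zero (d : ℕ → ℕ) (w : ℕ) (h : ∀ p, p < w → d (p + 1) = 0) :
    SD d w = 0 ∧ PP d w = 1 := by
  constructor
  · unfold SD
    exact sum_eq_zero fun p hp => h p (mem_range.1 hp)
  · unfold PP
    refine prod_eq_one fun p hp => ?_
    rw [h p (mem_range.1 hp)]
    simp

/-- Induction on `w`. Step: let `a = w+1`, `δ = SD d w`, `e = d (w+1)`. If `e = 0` then by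
monotonicity all `d p = 0` (`p ≤ w+1`), `SD = 0`, `PP = 1`. If `e ≥ 1` then `δ ≤ w` (as `δ + e ≤ w+1`),
`PP d (w+1) ≤ (a/(a-δ))(1 + e/a) = (a+e)/(a-δ)` and
`(a+1)(a-δ) - (a+e)(a+1-δ-e) = (δ+e)(e-1) ≥ 0`. -/
theorem PP_le (d : ℕ → ℕ) (hm : Monotone d) (w : ℕ) (h : SD d w ≤ w) :
    PP d w ≤ ((w : ℝ) + 1) / ((w : ℝ) + 1 - SD d w) := by
  induction w with
  | zero =>
    rw [PP_zero, SD_zero]
    norm_num
  | succ w ih =>
    by_cases he : d (w + 1) = 0
    · have h0 : ∀ p, p < w + 1 → d (p + 1) = 0 := by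
        intro p hp
        have := hm (show p + 1 ≤ w + 1 by omega)
        omega
      obtain ⟨h1, h2⟩ := e1_zero d (w + 1) h0
      rw [h1, h2]
      push_cast
      rw [sub_zero, div_self (by positivity)]
    · have he1 : 1 ≤ d (w + 1) := Nat.one_le_iff_ne_zero.2 he
      rw [SD_succ] at h ⊢
      have hδ : SD d w ≤ w := by omega
      have h1 := ih hδ
      rw [PP_succ]
      set a : ℝ := (w : ℝ) + 1 with ha
      set δ : ℝ := (SD d w : ℝ) with hδ'
      set e : ℝ := (d (w + 1) : ℝ) with he'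
      have hδR : δ ≤ (w : ℝ) := by rw [hδ']; exact_mod_cast hδ
      have hδ0 : 0 ≤ δ := Nat.cast_nonneg _
      have heR : 1 ≤ e := by rw [he']; exact_mod_cast he1
      have hsum : δ + e ≤ a := by
        have : ((SD d w + d (w + 1) : ℕ) : ℝ) ≤ ((w + 1 : ℕ) : ℝ) := by exact_mod_cast h
        push_cast at this
        exact this
      have ha0 : 0 < a := by positivity
      have h2 : 0 < a - δ := by rw [ha]; linarith
      have h3 : 0 < a + 1 - (δ + e) := by linarith
      push_cast
      have h4 : PP d w * (1 + e / a) ≤ (a / (a - δ)) * (1 + e / a) :=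
        mul_le_mul_of_nonneg_right h1 (by positivity)
      have h5 : (a / (a - δ)) * (1 + e / a) = (a + e) / (a - δ) := by
        field_simp
      rw [h5] at h4
      refine h4.trans ?_
      rw [div_le_div_iff₀ h2 h3]
      nlinarith [mul_nonneg (add_nonneg hδ0 (by linarith : (0 : ℝ) ≤ e)) (sub_nonneg.2 heR)]

theorem e1_grow (d : ℕ → ℕ) (hm : Monotone d) (p w : ℕ) (hpw : p ≤ w) (h1 : 1 ≤ d (p + 1)) :
    SD d p + (w - p) ≤ SD d w := by
  induction w, hpw using Nat.le_induction with
  | base => simp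
  | succ n hn ih =>
    rw [SD_succ]
    have := hm (show p + 1 ≤ n + 1 by omega)
    omega

/-- Every term with `d (p+1) ≥ 1` (`p < w`) satisfies `PP d p/(p+1) ≤ 1/(p+1-SD d p)` (`PP_le`;
`SD d p ≤ p` because `SD d w ≤ w` and all `d` from `p+1` to `w` are `≥ 1`), and
`p + 1 - SD d p ≥ w + 1 - SD d w` for the same reason. Terms with `d (p+1) = 0` vanish. -/
theorem Ph_le (t : ℕ) (d : ℕ → ℕ) (hm : Monotone d) (w : ℕ)
    (ht : ∀ p, p < w → d (p + 1) ≤ t) (h : SD d w ≤ w) :
    Ph t d w ≤ (∑ p ∈ range w, gq t (d (p + 1))) / ((w : ℝ) + 1 - SD d w) := by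
  unfold Ph
  rw [sum_div]
  apply sum_le_sum
  intro p hp
  rw [mem_range] at hp
  have hg := gq_nonneg (ht p hp)
  by_cases he : d (p + 1) = 0
  · have : gq t (d (p + 1)) = 0 := by rw [he]; simp [gq]
    rw [this]
    simp
  · have h1 := e1_grow d hm p w hp.le (Nat.one_le_iff_ne_zero.2 he)
    have h2 : SD d p ≤ p := by omega
    have h3 := PP_le d hm p h2
    have hR : (SD d p : ℝ) + ((w : ℝ) - p) ≤ SD d w := by
      have h4 : ((SD d p + (w - p) : ℕ) : ℝ) ≤ (SD d w : ℝ) := by exact_mod_cast h1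
      rw [Nat.cast_add, Nat.cast_sub hp.le] at h4
      exact h4
    have hwR : (SD d w : ℝ) ≤ w := by exact_mod_cast h
    have hpR : (SD d p : ℝ) ≤ p := by exact_mod_cast h2
    have h5 : PP d p / ((p : ℝ) + 1) ≤ 1 / ((w : ℝ) + 1 - SD d w) := by
      have h6 : PP d p / ((p : ℝ) + 1) ≤ 1 / ((p : ℝ) + 1 - SD d p) := by
        rw [div_le_iff₀ (by positivity)]
        refine h3.trans (le_of_eq ?_)
        ring
      refine h6.trans ?_
      apply one_div_le_one_div_of_le (by linarith)
      linarith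
    calc gq t (d (p + 1)) / ((p : ℝ) + 1) * PP d p
        = gq t (d (p + 1)) * (PP d p / ((p : ℝ) + 1)) := by ring
      _ ≤ gq t (d (p + 1)) * (1 / ((w : ℝ) + 1 - SD d w)) := mul_le_mul_of_nonneg_left h5 hg
      _ = gq t (d (p + 1)) / ((w : ℝ) + 1 - SD d w) := by ring

theorem e1_step (d : ℕ → ℕ) (hm : Monotone d) (i p w : ℕ) (hip : i ≤ p) (hpw : p < w)
    (h1 : 1 ≤ d (i + 1)) : SD d i + d (p + 1) + (w - i - 1) ≤ SD d w := by
  have h2 := e1_grow d hm i p hip h1
  have h3 : SD d (p + 1) = SD d p + d (p + 1) := SD_succ d p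
  have h4 : SD d (p + 1) + (w - (p + 1)) ≤ SD d w := by
    have h5 : 1 ≤ d (p + 1 + 1) := h1.trans (hm (by omega))
    exact e1_grow d hm (p + 1) w (by omega) h5
  omega

/-- Case `δ ≤ q`, where `δ = SD d w`. Let `A i = w - δ + SD d i` (real). Fix `p < w` with
`e = d (p+1) ≥ 1`.
(1) If `i ≤ p` and `d (i+1) ≥ 1` then `A i + e ≤ i + 1`: by monotonicity all of `d (i+1), …, d w` are
`≥ 1`, so `δ - SD d i = ∑_{j=i+1}^{w} d j ≥ e + (w - i - 1)` (count `d (p+1) = e` once).
(2) `PP d i ≤ (A i + e)/(A 0 + e)` for `i ≤ p`, by induction on `i`: `A (i+1) = A i + d (i+1)` and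
`1 + d(i+1)/(i+1) ≤ 1 + d(i+1)/(A i + e) = (A (i+1) + e)/(A i + e)` by (1) (trivial if
`d (i+1) = 0`; `A i + e ≥ A 0 + e > 0` because `δ ≤ q < w`).
(3) `A p + e = A (p+1) ≤ p + 1` (as `δ - SD d (p+1) ≥ w - p - 1`), so
`PP d p/(p+1) ≤ 1/(w - δ + e)`.
(4) `gq q e/(w-δ+e) ≤ e/(w (q+1-δ))`, because
`(q+1-e)(w-δ+e) - w(q+1-δ) = (δ-e)(w-q-1+e) ≥ 0` (`e ≤ δ`, `q < w`).
Sum over `p < w` (terms with `d (p+1) = 0` vanish): `∑ e = δ`. -/
theorem Ph_T1b (q : ℕ) (d : ℕ → ℕ) (hm : Monotone d) (w : ℕ) (h1 : 1 ≤ w) (hq : SD d w ≤ q)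
    (hw : q < w) : Ph q d w ≤ (SD d w : ℝ) / ((w : ℝ) * ((q : ℝ) + 1 - SD d w)) := by
  have hqR : (SD d w : ℝ) ≤ q := by exact_mod_cast hq
  have hwR : (q : ℝ) + 1 ≤ w := by exact_mod_cast hw
  have hδ0 : (0 : ℝ) ≤ SD d w := Nat.cast_nonneg _
  have hw0 : (0 : ℝ) < w := by exact_mod_cast h1
  have hsum : (SD d w : ℝ) = ∑ p ∈ range w, (d (p + 1) : ℝ) := by
    unfold SD
    push_cast
    rfl
  have key : ∀ p ∈ range w, gq q (d (p + 1)) / ((p : ℝ) + 1) * PP d p ≤
      (d (p + 1) : ℝ) / ((w : ℝ) * ((q : ℝ) + 1 - SD d w)) := by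
    intro p hp
    rw [mem_range] at hp
    by_cases he : d (p + 1) = 0
    · have : gq q (d (p + 1)) = 0 := by rw [he]; simp [gq]
      rw [this, he]
      simp
    · have he1 : 1 ≤ d (p + 1) := Nat.one_le_iff_ne_zero.2 he
      set e : ℝ := (d (p + 1) : ℝ) with he'
      have heR : (1 : ℝ) ≤ e := by rw [he']; exact_mod_cast he1
      have hA0 : (0 : ℝ) < w - SD d w + e := by linarith
      -- (2)
      have h2 : ∀ i, i ≤ p → PP d i ≤ ((w : ℝ) - SD d w + SD d i + e) / (w - SD d w + e) := by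
        intro i
        induction i with
        | zero =>
          intro _
          rw [PP_zero, SD_zero, Nat.cast_zero, add_zero, div_self hA0.ne']
        | succ i ih =>
          intro hi
          have h3 := ih (by omega)
          rw [PP_succ, SD_succ]
          push_cast
          have hSi : (0 : ℝ) ≤ SD d i := Nat.cast_nonneg _
          have hAi : (0 : ℝ) < (w : ℝ) - SD d w + SD d i + e := by linarith
          by_cases hz : d (i + 1) = 0
          · rw [hz, Nat.cast_zero, zero_div, add_zero, mul_one, add_zero]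
            exact h3
          · have h4 := e1_step d hm i p w (by omega) hp (Nat.one_le_iff_ne_zero.2 hz)
            have h5 : (w : ℝ) - SD d w + SD d i + e ≤ (i : ℝ) + 1 := by
              have h6 : SD d i + d (p + 1) + w ≤ SD d w + (i + 1) := by omega
              have h7 : ((SD d i + d (p + 1) + w : ℕ) : ℝ) ≤ ((SD d w + (i + 1) : ℕ) : ℝ) := by
                exact_mod_cast h6
              push_cast at h7
              rw [he']
              linarith
            have h8 : 1 + (d (i + 1) : ℝ) / ((i : ℝ) + 1) ≤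
                ((w : ℝ) - SD d w + SD d i + e + d (i + 1)) / ((w : ℝ) - SD d w + SD d i + e) := by
              rw [add_div, div_self hAi.ne']
              have : (d (i + 1) : ℝ) / ((i : ℝ) + 1) ≤
                  (d (i + 1) : ℝ) / ((w : ℝ) - SD d w + SD d i + e) :=
                div_le_div_of_nonneg_left (Nat.cast_nonneg _) hAi h5
              linarith
            calc PP d i * (1 + (d (i + 1) : ℝ) / ((i : ℝ) + 1))
                ≤ (((w : ℝ) - SD d w + SD d i + e) / (w - SD d w + e)) *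
                  (((w : ℝ) - SD d w + SD d i + e + d (i + 1)) /
                    ((w : ℝ) - SD d w + SD d i + e)) :=
                  mul_le_mul h3 h8 (by positivity) (div_nonneg hAi.le hA0.le)
              _ = ((w : ℝ) - SD d w + (SD d i + d (i + 1)) + e) / (w - SD d w + e) := by
                  field_simp
                  ring
      -- (3)
      have h3 : PP d p / ((p : ℝ) + 1) ≤ 1 / ((w : ℝ) - SD d w + e) := by
        have h4 := e1_step d hm p p w le_rfl hp he1
        have h5 : (w : ℝ) - SD d w + SD d p + e ≤ (p : ℝ) + 1 := by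
          have h6 : SD d p + d (p + 1) + w ≤ SD d w + (p + 1) := by omega
          have h7 : ((SD d p + d (p + 1) + w : ℕ) : ℝ) ≤ ((SD d w + (p + 1) : ℕ) : ℝ) := by
            exact_mod_cast h6
          push_cast at h7
          rw [he']
          linarith
        rw [div_le_iff₀ (by positivity)]
        refine (h2 p le_rfl).trans ?_
        rw [div_mul_eq_mul_div, one_mul]
        exact div_le_div_of_nonneg_right h5 hA0.le
      -- (4)
      have heδ : e ≤ SD d w := by
        rw [hsum, he']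
        exact single_le_sum (f := fun p => (d (p + 1) : ℝ)) (fun i _ => Nat.cast_nonneg _)
          (mem_range.2 hp)
      have hqe : (0 : ℝ) < (q : ℝ) + 1 - e := by linarith
      have hg : gq q (d (p + 1)) = e / ((q : ℝ) + 1 - e) := rfl
      calc gq q (d (p + 1)) / ((p : ℝ) + 1) * PP d p
          = gq q (d (p + 1)) * (PP d p / ((p : ℝ) + 1)) := by ring
        _ ≤ gq q (d (p + 1)) * (1 / ((w : ℝ) - SD d w + e)) := by
            apply mul_le_mul_of_nonneg_left h3
            rw [hg]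
            exact div_nonneg (by linarith) hqe.le
        _ = e / (((q : ℝ) + 1 - e) * ((w : ℝ) - SD d w + e)) := by
            rw [hg]
            field_simp
        _ ≤ e / ((w : ℝ) * ((q : ℝ) + 1 - SD d w)) := by
            apply div_le_div_of_nonneg_left (by linarith)
            · exact mul_pos hw0 (by linarith)
            · nlinarith [mul_nonneg (sub_nonneg.2 heδ)
                (show (0 : ℝ) ≤ (w : ℝ) - q - 1 + e by linarith)]
  have h5 : Ph q d w ≤ ∑ p ∈ range w, (d (p + 1) : ℝ) / ((w : ℝ) * ((q : ℝ) + 1 - SD d w)) :=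
    sum_le_sum key
  rw [← sum_div, ← hsum] at h5
  exact h5

end Pool.Agent.LRT
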