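import Mathlib
import Pool.Agent.LRT.E1

set_option autoImplicit false

namespace Pool.Agent.LRT

open Finset

theorem e3_zero (q : ℕ) (d : ℕ → ℕ) (w : ℕ) (h : ∀ p, p < w → d (p + 1) = 0) :
    SD d w = 0 ∧ Ph q d w = 0 := by
  constructor
  · unfold SD
    exact Finset.sum_eq_zero fun p hp => h p (Finset.mem_range.1 hp)
  · unfold Ph
    apply Finset.sum_eq_zero
    intro p hp
    have h1 : gq q (d (p + 1)) = 0 := by
      rw [h p (Finset.mem_range.1 hp)]
      simp [gq]
    rw [h1, zero_div, zero_mul]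

theorem e3_num (w δ e q D : ℝ) (hw : 0 ≤ w) (hD : D = w + 2 - δ - e) (hD1 : 1 ≤ D)
    (he : 1 ≤ e) (heq : e ≤ q)
    (hA : 2 ≤ e → D * (q + 1) ≤ (w + 2) * (q + 1 - e)) (he2 : e = 1 ∨ 2 ≤ e) :
    (w + 1 + q * (e / (q + 1 - e))) / (w + 1 - δ) ≤ (w + 2) / D := by
  have h1 : w + 1 - δ = D + e - 1 := by rw [hD]; ring
  have h2 : (0 : ℝ) < D + e - 1 := by linarith
  have h3 : (0 : ℝ) < q + 1 - e := by linarith
  have h4 : q * (e / (q + 1 - e)) = 1 + (q + 1) * (e - 1) / (q + 1 - e) := by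
    field_simp
    ring
  rw [h1, div_le_div_iff₀ h2 (by linarith), h4]
  have h5 : D * ((q + 1) * (e - 1) / (q + 1 - e)) ≤ (w + 2) * (e - 1) := by
    rcases he2 with he2 | he2
    · rw [he2]
      simp
    · rw [mul_div_assoc', div_le_iff₀ h3]
      have h6 := mul_le_mul_of_nonneg_right (hA he2) (by linarith : (0 : ℝ) ≤ e - 1)
      linarith
  linarith

/-- Case `α`. Induction on `w`. Let `δ = SD d w`, `e = d (w+1)`, `D = w + 2 - δ - e`.
`e = 0`: by monotonicity everything is `0`. `e ≥ 1`: then `δ ≤ w`, by the induction hypothesis and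
`PP_le`, `q Ph q d (w+1) + 1 ≤ (w+1)/(w+1-δ) + (q g(e)/(w+1)) (w+1)/(w+1-δ)
= (w + 1 + q g(e))/(D + e - 1)`. For `e = 1`, `q g(1) = 1` and this is `(w+2)/D`. For `e ≥ 2` the claim
`≤ (w+2)/D` is `D (q g(e) - 1) ≤ (w+2)(e-1)`, and `q g(e) - 1 = (q+1)(e-1)/(q+1-e)`, so it is the
hypothesis `hA` for `p = w`. -/
theorem alpha (q : ℕ) (d : ℕ → ℕ) (hq : 1 ≤ q) (hm : Monotone d) (w : ℕ)
    (hdq : ∀ p, p < w → d (p + 1) ≤ q) (h : SD d w ≤ w)
    (hA : ∀ p, p < w → 2 ≤ d (p + 1) →
      ((p : ℝ) + 2 - SD d (p + 1)) * ((q : ℝ) + 1) ≤ ((p : ℝ) + 2) * ((q : ℝ) + 1 - d (p + 1))) :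
    (q : ℝ) * Ph q d w + 1 ≤ ((w : ℝ) + 1) / ((w : ℝ) + 1 - SD d w) := by
  induction w with
  | zero =>
    rw [Ph_zero, SD_zero]
    norm_num
  | succ w ih =>
    have hS := SD_succ d w
    rcases Nat.eq_zero_or_pos (d (w + 1)) with he | he
    · have h0 : ∀ p, p < w + 1 → d (p + 1) = 0 := by
        intro p hp
        have h1 : d (p + 1) ≤ d (w + 1) := hm (by omega)
        omega
      obtain ⟨h1, h2⟩ := e3_zero q d (w + 1) h0
      rw [h1, h2]
      push_cast
      rw [mul_zero, zero_add, sub_zero, div_self (by positivity)]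
    · have hδ : SD d w ≤ w := by omega
      have ih' := ih (fun p hp => hdq p (by omega)) hδ (fun p hp => hA p (by omega))
      have hPP := PP_le d hm w hδ
      have hδ' : (SD d w : ℝ) ≤ w := by exact_mod_cast hδ
      have hpos : (0 : ℝ) < (w : ℝ) + 1 - SD d w := by linarith
      have heq := hdq w (by omega)
      have hg := gq_nonneg heq
      have hw1 : (0 : ℝ) < (w : ℝ) + 1 := by positivity
      have h1 : (q : ℝ) * Ph q d (w + 1) + 1 ≤
          ((w : ℝ) + 1 + q * gq q (d (w + 1))) / ((w : ℝ) + 1 - SD d w) := by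
        rw [Ph_succ, mul_add]
        have h2 : (q : ℝ) * (gq q (d (w + 1)) / ((w : ℝ) + 1) * PP d w) ≤
            (q : ℝ) * gq q (d (w + 1)) / ((w : ℝ) + 1 - SD d w) := by
          have h3 : (q : ℝ) * (gq q (d (w + 1)) / ((w : ℝ) + 1) * PP d w) ≤
              (q : ℝ) * (gq q (d (w + 1)) / ((w : ℝ) + 1) *
                (((w : ℝ) + 1) / ((w : ℝ) + 1 - SD d w))) := by
            apply mul_le_mul_of_nonneg_left _ (Nat.cast_nonneg q)
            apply mul_le_mul_of_nonneg_left hPP
            positivity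
          refine h3.trans (le_of_eq ?_)
          field_simp
        rw [add_div]
        linarith
      refine h1.trans ?_
      have h4 : ((w + 1 : ℕ) : ℝ) + 1 - (SD d (w + 1) : ℝ) =
          (w : ℝ) + 2 - SD d w - d (w + 1) := by
        rw [hS]
        push_cast
        ring
      have h5 : ((w + 1 : ℕ) : ℝ) + 1 = (w : ℝ) + 2 := by
        push_cast
        ring
      rw [h4, h5]
      have hSle : (SD d w : ℝ) + d (w + 1) ≤ (w : ℝ) + 1 := by
        have : SD d w + d (w + 1) ≤ w + 1 := by omega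
        exact_mod_cast this
      refine e3_num w (SD d w) (d (w + 1)) q _ (Nat.cast_nonneg w) rfl (by linarith)
        (by exact_mod_cast he) (by exact_mod_cast heq) (fun h2 => ?_) ?_
      · have h6 := hA w (by omega) (by exact_mod_cast h2)
        rw [hS] at h6
        push_cast at h6
        have e : (w : ℝ) + 2 - SD d w - d (w + 1) = (w : ℝ) + 2 - (SD d w + d (w + 1)) := by ring
        rw [e]
        exact h6
      · rcases Nat.lt_or_ge (d (w + 1)) 2 with h7 | h7
        · left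
          have : d (w + 1) = 1 := by omega
          rw [this]
          norm_num
        · right
          exact_mod_cast h7

end Pool.Agent.LRT
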