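import Mathlib
import Pool.Agent.LRT.E1

set_option autoImplicit false

namespace Pool.Agent.LRT

open Finset

theorem e4_SD_mono (d : ℕ → ℕ) : Monotone (SD d) := by
  apply monotone_nat_of_le_succ
  intro n
  rw [SD_succ]
  omega

/-- Deficits `0, …, 0, 1, …, 1`. Induction on `v`: for `d (v+1) = 1`,
`PP d (v+1) = ((v+1)/(v+1-δ)) ((v+2)/(v+1)) = (v+2)/(v+2-(δ+1))` and
`q Ph q d (v+1) = PP d v - 1 + PP d v/(v+1)` (`q gq q 1 = 1`). For `d (v+1) = 0` all are `0`. -/
theorem ones (q : ℕ) (d : ℕ → ℕ) (hq : 1 ≤ q) (hm : Monotone d) (v : ℕ)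
    (h1 : ∀ p, p < v → d (p + 1) ≤ 1) (h : SD d v ≤ v) :
    (q : ℝ) * Ph q d v = PP d v - 1 ∧ PP d v = ((v : ℝ) + 1) / ((v : ℝ) + 1 - SD d v) := by
  induction v with
  | zero =>
    rw [Ph_zero, PP_zero, SD_zero]
    norm_num
  | succ v ih =>
    have hS := SD_succ d v
    have hq0 : (q : ℝ) ≠ 0 := by
      have : (0 : ℝ) < q := by exact_mod_cast hq
      exact this.ne'
    have hv1 : (v : ℝ) + 1 ≠ 0 := by positivity
    have hv2 : (v : ℝ) + 1 + 1 ≠ 0 := by positivity
    rcases Nat.eq_zero_or_pos (d (v + 1)) with he | he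
    · have hS0 : SD d v = 0 := by
        unfold SD
        apply Finset.sum_eq_zero
        intro p hp
        have h2 : d (p + 1) ≤ d (v + 1) := hm (by
          have := Finset.mem_range.1 hp
          omega)
        omega
      obtain ⟨i1, i2⟩ := ih (fun p hp => h1 p (by omega)) (by omega)
      have hP : PP d v = 1 := by
        rw [i2, hS0, Nat.cast_zero, sub_zero, div_self hv1]
      rw [hP] at i1
      rw [Ph_succ, PP_succ, hS, hS0, he, hP]
      have hg : gq q 0 = 0 := by simp [gq]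
      rw [hg]
      push_cast
      constructor
      · rw [zero_div, zero_mul, add_zero, i1]
        ring
      · rw [sub_zero, div_self hv2, zero_div, add_zero, one_mul]
    · have hd1 : d (v + 1) = 1 := by
        have := h1 v (by omega)
        omega
      obtain ⟨i1, i2⟩ := ih (fun p hp => h1 p (by omega)) (by omega)
      have hδ : (SD d v : ℝ) ≤ v := by
        have : SD d v ≤ v := by omega
        exact_mod_cast this
      have hpos : (v : ℝ) + 1 - SD d v ≠ 0 := by
        have : (0 : ℝ) < (v : ℝ) + 1 - SD d v := by linarith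
        exact this.ne'
      have hg : (q : ℝ) * gq q 1 = 1 := by
        unfold gq
        push_cast
        rw [add_sub_cancel_right]
        field_simp
      rw [Ph_succ, PP_succ, hS, hd1]
      push_cast
      constructor
      · have e1 : (q : ℝ) * (Ph q d v + gq q 1 / ((v : ℝ) + 1) * PP d v) =
            q * Ph q d v + (q * gq q 1) / ((v : ℝ) + 1) * PP d v := by ring
        rw [e1, i1, hg]
        ring
      · rw [i2]
        have e2 : (v : ℝ) + 1 + 1 - (SD d v + 1) = (v : ℝ) + 1 - SD d v := by ring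
        rw [e2]
        field_simp

/-- From `v` to `w` all deficits are between `2` and `q-1`: then `gq q e ≤ e/2`, so each step adds to
`Ph` at most half of what it adds to `PP`. -/
theorem twos_half (q : ℕ) (d : ℕ → ℕ) (v w : ℕ) (hvw : v ≤ w)
    (h2 : ∀ p, v ≤ p → p < w → d (p + 1) + 1 ≤ q) :
    Ph q d w - Ph q d v ≤ (PP d w - PP d v) / 2 := by
  induction w, hvw using Nat.le_induction with
  | base => simp
  | succ w hvw ih =>
    have i1 := ih (fun p hp hpw => h2 p hp (by omega))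
    have h3 := h2 w hvw (by omega)
    have h4 : (d (w + 1) : ℝ) + 1 ≤ q := by exact_mod_cast h3
    have hg : gq q (d (w + 1)) ≤ (d (w + 1) : ℝ) / 2 := by
      unfold gq
      apply div_le_div_of_nonneg_left (Nat.cast_nonneg _) (by norm_num)
      linarith
    have hP := PP_pos d w
    have hw : (0 : ℝ) < (w : ℝ) + 1 := by positivity
    rw [Ph_succ, PP_succ]
    have h5 : gq q (d (w + 1)) / ((w : ℝ) + 1) * PP d w ≤
        (d (w + 1) : ℝ) / 2 / ((w : ℝ) + 1) * PP d w := by
      apply mul_le_mul_of_nonneg_right _ hP.le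
      exact div_le_div_of_nonneg_right hg hw.le
    have h6 : PP d w * (1 + (d (w + 1) : ℝ) / ((w : ℝ) + 1)) = PP d w +
        2 * ((d (w + 1) : ℝ) / 2 / ((w : ℝ) + 1) * PP d w) := by ring
    rw [h6]
    linarith

theorem e4_num (a e x : ℝ) (ha : 0 < a) (he : 0 ≤ e) (hx : 2 ≤ x)
    (hY : 0 < a + 1 - e - x / 2) :
    (a / (a - e)) ^ 2 * (1 + x / a) ≤ ((a + 1) / (a + 1 - e - x / 2)) ^ 2 := by
  set Y := a + 1 - e - x / 2 with hYdef
  obtain ⟨u, hu⟩ : ∃ u, u = x / 2 - 1 := ⟨_, rfl⟩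
  have hu0 : 0 ≤ u := by linarith
  have h1 : a - e = Y + u := by
    rw [hYdef, hu]
    ring
  have h2 : x = 2 * u + 2 := by linarith
  have hae : 0 < Y + u := by linarith
  have hYa : Y ≤ a + 1 := by
    rw [hYdef]
    linarith
  have e1 : (a / (Y + u)) ^ 2 * (1 + (2 * u + 2) / a) = a * (a + 2 + 2 * u) / (Y + u) ^ 2 := by
    field_simp
    ring
  rw [h1, h2, e1, div_pow, div_le_div_iff₀ (by positivity) (by positivity)]
  have h3 : a * Y ≤ (a + 1) ^ 2 := by nlinarith
  have h4 : u * Y * (a * Y) ≤ u * Y * (a + 1) ^ 2 :=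
    mul_le_mul_of_nonneg_left h3 (by positivity)
  have h5 : 0 ≤ (a + 1) ^ 2 * u ^ 2 := by positivity
  have h6 : 0 ≤ Y ^ 2 := by positivity
  nlinarith

/-- From `v` to `w` all deficits are `≥ 2`, `E = SD d w - SD d v`:
`PP d w ≤ PP d v ((w+1)/(w+1-E/2))²`. Induction on `w ≥ v`. Step: `a = w+1`, `e = E/2`,
`x = d (w+1) ≥ 2`: to show `(a/(a-e))² (1 + x/a) ≤ ((a+1)/(a+1-e-x/2))²`, i.e.
`a (a+x)(a+1-e-x/2)² ≤ (a+1)² (a-e)²`. The left side decreases in `x ≥ 2` (as long as
`a+1-e-x/2 > 0`), and for `x = 2` it is `a(a+2)(a-e)² ≤ (a+1)²(a-e)²`.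
(Positivity: `2(a+1-e-x/2) ≥ 2(w+2) - (E + x) ≥ w + 3`, because `SD d (w+1) ≤ w + 1`.) -/
theorem twos_growth (d : ℕ → ℕ) (v w : ℕ) (hvw : v ≤ w)
    (h2 : ∀ p, v ≤ p → p < w → 2 ≤ d (p + 1)) (h : SD d w ≤ w) :
    PP d w ≤ PP d v *
      (((w : ℝ) + 1) / ((w : ℝ) + 1 - ((SD d w : ℝ) - SD d v) / 2)) ^ 2 := by
  induction w, hvw using Nat.le_induction with
  | base =>
    have h1 : (v : ℝ) + 1 ≠ 0 := by positivity
    rw [sub_self, zero_div, sub_zero, div_self h1]
    simp
  | succ w hvw ih =>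
    have hS := SD_succ d w
    have hx := h2 w hvw (by omega)
    have i1 := ih (fun p hp hpw => h2 p hp (by omega)) (by omega)
    have hmono : SD d v ≤ SD d w := e4_SD_mono d hvw
    have hmono' : (SD d v : ℝ) ≤ SD d w := by exact_mod_cast hmono
    have hSR : (SD d w : ℝ) + d (w + 1) ≤ (w : ℝ) + 1 := by
      have : SD d w + d (w + 1) ≤ w + 1 := by omega
      exact_mod_cast this
    have hv0 : (0 : ℝ) ≤ SD d v := Nat.cast_nonneg _
    have hw0 : (0 : ℝ) ≤ w := Nat.cast_nonneg _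
    have h3 := e4_num ((w : ℝ) + 1) (((SD d w : ℝ) - SD d v) / 2) (d (w + 1)) (by positivity)
      (by linarith) (by exact_mod_cast hx) (by linarith)
    rw [PP_succ, hS]
    have h4 : (0 : ℝ) ≤ 1 + (d (w + 1) : ℝ) / ((w : ℝ) + 1) := by positivity
    refine (mul_le_mul_of_nonneg_right i1 h4).trans ?_
    rw [mul_assoc]
    apply mul_le_mul_of_nonneg_left _ (PP_pos d v).le
    refine h3.trans (le_of_eq ?_)
    push_cast
    congr 2
    ring

end Pool.Agent.LRT
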