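import Mathlib
import Pool.Agent.LRT.Defs

set_option autoImplicit false

namespace Pool.Agent.LRT

theorem e5_small (q p z : ℝ) (hq : 3 ≤ q) (hp : 1 ≤ p) (hp2 : p ≤ 2) (hz : 0 ≤ z) :
    (p - 1) / q + ((p + 2 + 1 / p) * z - p) / 2 ≤
      (2 - p) * (2 * z - 1 / 2) + (p - 1) * (9 / 4 * z - 2 / 3) := by
  have h1 : (p - 1) / q ≤ (p - 1) / 3 :=
    div_le_div_of_nonneg_left (by linarith) (by norm_num) hq
  have h2 : 1 / p ≤ (3 - p) / 2 := by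
    rw [div_le_div_iff₀ (by linarith) (by norm_num)]
    nlinarith
  have h3 : (p + 2 + 1 / p) * z ≤ (p + 2 + (3 - p) / 2) * z :=
    mul_le_mul_of_nonneg_right (by linarith) hz
  linarith

theorem e5_big (q p z : ℝ) (hp2 : 2 ≤ p) (hpq : p ≤ (q + 1) / 2)
    (hz1 : z ≤ 1) :
    (p - 1) / q + ((p + 2 + 1 / p) * z - p) / 2 ≤ 9 / 4 * z - 2 / 3 := by
  have hp0 : (0 : ℝ) < p := by linarith
  have h2p : (0 : ℝ) < 2 * p - 1 := by linarith
  have h1 : (p - 1) / q ≤ (p - 1) / (2 * p - 1) :=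
    div_le_div_of_nonneg_left (by linarith) h2p (by linarith)
  have h2 : 9 / 4 * z - 2 / 3 - ((p - 1) / (2 * p - 1) + ((p + 2 + 1 / p) * z - p) / 2) =
      (p - 2) * (2 * p - 3) / (12 * p * (2 * p - 1)) +
        (2 * p - 1) * (p - 2) / (4 * p) * (1 - z) := by
    field_simp
    ring
  have h3 : 0 ≤ (p - 2) * (2 * p - 3) / (12 * p * (2 * p - 1)) := by
    apply div_nonneg (mul_nonneg (by linarith) (by linarith))
    positivity
  have h4 : 0 ≤ (2 * p - 1) * (p - 2) / (4 * p) * (1 - z) := by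
    apply mul_nonneg _ (by linarith)
    apply div_nonneg (mul_nonneg (by linarith) (by linarith))
    positivity
  linarith

/-- Numerical lemma. Let `y = (1+x)² ≥ 1`. `bet x = max (2/y - 1/2) (9/(4y) - 2/3)`.
Case `p ≤ 2`: `(p-1)/q ≤ (p-1)/3`, and `F(p) = (p-1)/3 + ((p + 2 + 1/p)/y - p)/2` is convex on
`[1,2]` (`1/p` is), so `F(p) ≤ (2-p) F(1) + (p-1) F(2)`, `F(1) = 2/y - 1/2`, `F(2) = 9/(4y) - 2/3`
(`1/p ≤ (2-p) + (p-1)/2 = (3-p)/2` because `2 - 3p + p² ≤ 0`).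
Case `p ≥ 2`: `q ≥ 2p-1`, so `(p-1)/q ≤ (p-1)/(2p-1)`, and
`F(2) - [(p-1)/(2p-1) + ((p+2+1/p)/y - p)/2]
 = (p-2)[-1/(3(2p-1)) + 1/2 - (2p-1)/(4 p y)] ≥ (p-2)(2p-3)/(12 p (2p-1)) ≥ 0` (`y ≥ 1`). -/
theorem theta (q p x : ℝ) (hq : 3 ≤ q) (hp : 1 ≤ p) (hpq : p ≤ (q + 1) / 2) (hx : 0 ≤ x) :
    (p - 1) / q + ((p + 1) ^ 2 / (p * (1 + x) ^ 2) - p) / 2 ≤ bet x := by
  have hp0 : (0 : ℝ) < p := by linarith
  have hy : (1 : ℝ) ≤ (1 + x) ^ 2 := by nlinarith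
  set z : ℝ := 1 / (1 + x) ^ 2 with hz
  have hz0 : 0 ≤ z := by positivity
  have hz1 : z ≤ 1 := by
    rw [hz, div_le_one (by positivity)]
    exact hy
  have h1 : (p + 1) ^ 2 / (p * (1 + x) ^ 2) = (p + 2 + 1 / p) * z := by
    rw [hz]
    have : (1 + x) ^ 2 ≠ 0 := by positivity
    field_simp
    ring
  have h2 : 2 / (1 + x) ^ 2 - 1 / 2 = 2 * z - 1 / 2 := by
    rw [hz]
    ring
  have h3 : 9 / (4 * (1 + x) ^ 2) - 2 / 3 = 9 / 4 * z - 2 / 3 := by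
    rw [hz]
    have : (1 + x) ^ 2 ≠ 0 := by positivity
    field_simp
  unfold bet
  rw [h1, h2, h3]
  rcases le_total p 2 with h4 | h4
  · refine (e5_small q p z hq hp h4 hz0).trans ?_
    have h5 := le_max_left (2 * z - 1 / 2) (9 / 4 * z - 2 / 3)
    have h6 := le_max_right (2 * z - 1 / 2) (9 / 4 * z - 2 / 3)
    have h7 := mul_le_mul_of_nonneg_left h5 (by linarith : (0 : ℝ) ≤ 2 - p)
    have h8 := mul_le_mul_of_nonneg_left h6 (by linarith : (0 : ℝ) ≤ p - 1)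
    linarith
  · exact (e5_big q p z h4 hpq hz1).trans (le_max_right _ _)

/-- `bet` is antitone on `[0,∞)`, and `bet x ≤ bet 0 = 19/12`. -/
theorem bet_anti (x y : ℝ) (hx : 0 ≤ x) (hxy : x ≤ y) : bet y ≤ bet x := by
  unfold bet
  have h1 : (1 + x) ^ 2 ≤ (1 + y) ^ 2 := by
    apply pow_le_pow_left₀ (by linarith)
    linarith
  have h2 : (0 : ℝ) < (1 + x) ^ 2 := by positivity
  apply max_le_max
  · have := div_le_div_of_nonneg_left (by norm_num : (0 : ℝ) ≤ 2) h2 h1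
    linarith
  · have := div_le_div_of_nonneg_left (by norm_num : (0 : ℝ) ≤ 9)
      (by positivity : (0 : ℝ) < 4 * (1 + x) ^ 2) (by linarith : 4 * (1 + x) ^ 2 ≤ 4 * (1 + y) ^ 2)
    linarith

theorem bet_le (x : ℝ) (hx : 0 ≤ x) : bet x ≤ 19 / 12 := by
  refine (bet_anti 0 x le_rfl hx).trans ?_
  unfold bet
  norm_num

end Pool.Agent.LRT
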