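import Mathlib
import Pool.Agent.LRT.E4
import Pool.Agent.LRT.E5

set_option autoImplicit false

namespace Pool.Agent.LRT

open Finset

theorem e6_lin (d : ℕ → ℕ) (c a n : ℕ) (h : ∀ p, a ≤ p → p < a + n → c ≤ d (p + 1)) :
    SD d a + c * n ≤ SD d (a + n) := by
  induction n with
  | zero => simp
  | succ n ih =>
    have h1 := ih (fun p hp hpn => h p hp (by omega))
    have h2 := h (a + n) (by omega) (by omega)
    have e : a + (n + 1) = a + n + 1 := rfl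
    rw [e, SD_succ, Nat.mul_succ]
    omega

theorem e6_num (W E P D x B : ℝ) (hW : 0 < W) (hP : 1 ≤ P) (hD : 0 ≤ D) (hx : x = D / W)
    (hE : E * (P + 1) / 2 ≤ W - P * D)
    (hB : B ≤ P * (W / (W - E / 2)) ^ 2) : B ≤ (P + 1) ^ 2 / (P * (1 + x) ^ 2) := by
  have hP0 : 0 < P := by linarith
  have h1 : P * (W + D) ≤ (P + 1) * (W - E / 2) := by linarith
  have h2 : 0 < P * (W + D) := by positivity
  have h3 : 0 < W - E / 2 := by
    have h4 : 0 < (P + 1) * (W - E / 2) := lt_of_lt_of_le h2 h1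
    exact (mul_pos_iff_of_pos_left (by linarith)).1 h4
  have h5 : W / (W - E / 2) ≤ (P + 1) * W / (P * (W + D)) := by
    rw [div_le_div_iff₀ h3 h2]
    have := mul_le_mul_of_nonneg_left h1 hW.le
    linarith
  have h6 : (W / (W - E / 2)) ^ 2 ≤ ((P + 1) * W / (P * (W + D))) ^ 2 :=
    pow_le_pow_left₀ (div_nonneg hW.le h3.le) h5 2
  refine hB.trans ((mul_le_mul_of_nonneg_left h6 hP0.le).trans (le_of_eq ?_))
  have h7 : W + D ≠ 0 := by positivity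
  have h8 : 1 + x = (W + D) / W := by
    rw [hx]
    field_simp
  rw [h8]
  field_simp

/-- Case `β`. Let `v` be the number of `p < w` with `d (p+1) ≤ 1` (by monotonicity these are
`p = 0, …, v-1`; so `d (p+1) ≤ 1` for `p < v` and `d (p+1) ≥ 2` for `v ≤ p < w`). Let
`δ = SD d w`, `D = w+1-δ ≥ 1`, `δ_v = SD d v`, `E = δ - δ_v`, `c = w - v`, so `E ≥ 2c`, and
`P = PP d v = (v+1)/D_v`, `D_v = v+1-δ_v = D + E - c ≥ 1` (`ones`; `SD d v ≤ v` holds because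
`δ ≤ w` and the deficits between are `≥ 2`).
(1) `P < (q+1)/2`: take `p₀` from `hne`; `p₀ ≥ v` (as `2 ≤ d (p₀+1)`), and
`D_v ≥ p₀+2-SD d (p₀+1)` (deficits `≥ 2 ≥ 1` between), `q+1-d(p₀+1) ≥ 2`, so
`D_v (q+1) > 2 (p₀+2) ≥ 2(v+1)`. Also `P ≥ 1`.
(2) `Ph q d w ≤ (P-1)/q + (PP d w - P)/2` (`ones`, `twos_half`) and
`PP d w ≤ P ((w+1)/(w+1-E/2))²` (`twos_growth`).
(3) `P (D+E-c) = w+1-c`, `2c ≤ E`, `P ≥ 1` give `E (P+1)/2 ≤ w+1 - P D`, so
`w+1-E/2 ≥ P (w+1+D)/(P+1)` and `PP d w ≤ (P+1)²/(P (1+x)²)`, `x = D/(w+1)`.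
(4) `theta q P x`. -/
theorem beta (q : ℕ) (d : ℕ → ℕ) (hq : 3 ≤ q) (hm : Monotone d) (w : ℕ)
    (hdq : ∀ p, p < w → d (p + 1) + 1 ≤ q) (h : SD d w ≤ w)
    (hne : ∃ p, p < w ∧ 2 ≤ d (p + 1) ∧
      ((p : ℝ) + 2) * ((q : ℝ) + 1 - d (p + 1)) < ((p : ℝ) + 2 - SD d (p + 1)) * ((q : ℝ) + 1)) :
    Ph q d w ≤ bet (((w : ℝ) + 1 - SD d w) / ((w : ℝ) + 1)) := by
  obtain ⟨p₀, hp₀w, hp₀2, hp₀⟩ := hne
  have hex : ∃ p, 2 ≤ d (p + 1) := ⟨p₀, hp₀2⟩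
  obtain ⟨v, hv2, hvmin⟩ : ∃ v, 2 ≤ d (v + 1) ∧ ∀ p, p < v → d (p + 1) ≤ 1 := by
    refine ⟨Nat.find hex, Nat.find_spec hex, fun p hp => ?_⟩
    have := Nat.find_min hex hp
    omega
  have hvp₀ : v ≤ p₀ := by
    by_contra hcon
    have := hvmin p₀ (by omega)
    omega
  have hge : ∀ p, v ≤ p → 2 ≤ d (p + 1) := fun p hp => hv2.trans (hm (by omega))
  have hvw : v ≤ w := by omega
  obtain ⟨c, hc⟩ := Nat.exists_eq_add_of_le hvw
  have hL := e6_lin d 2 v c (fun p hp _ => hge p hp)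
  rw [← hc] at hL
  have hδv : SD d v ≤ v := by omega
  obtain ⟨o1, o2⟩ := ones q d (by omega) hm v hvmin hδv
  have hth := twos_half q d v w hvw (fun p _ hpw => hdq p hpw)
  have htg := twos_growth d v w hvw (fun p hp _ => hge p hp) h
  set P := PP d v with hPdef
  have hP1 : 1 ≤ P := PP_ge_one d v
  have hqR : (3 : ℝ) ≤ q := by exact_mod_cast hq
  have hq0 : (0 : ℝ) < q := by linarith
  have hPh : Ph q d v = (P - 1) / q := by
    rw [eq_div_iff hq0.ne']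
    linarith
  have hδvR : (SD d v : ℝ) ≤ v := by exact_mod_cast hδv
  have hδR : (SD d w : ℝ) ≤ w := by exact_mod_cast h
  have hDv : (0 : ℝ) < (v : ℝ) + 1 - SD d v := by linarith
  -- (1)
  have hPq : P ≤ ((q : ℝ) + 1) / 2 := by
    obtain ⟨n, hn⟩ := Nat.exists_eq_add_of_le hvp₀
    have hL2 := e6_lin d 2 v (n + 1) (fun p hp _ => hge p hp)
    have e1 : v + (n + 1) = p₀ + 1 := by omega
    rw [e1] at hL2
    have hL3 : (SD d v : ℝ) + 2 * ((n : ℝ) + 1) ≤ SD d (p₀ + 1) := by exact_mod_cast hL2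
    have hn' : (p₀ : ℝ) = v + n := by exact_mod_cast hn
    have hn0 : (0 : ℝ) ≤ n := Nat.cast_nonneg n
    have h1 : (p₀ : ℝ) + 2 - SD d (p₀ + 1) ≤ (v : ℝ) + 1 - SD d v := by linarith
    have h2 : (d (p₀ + 1) : ℝ) + 1 ≤ q := by exact_mod_cast hdq p₀ hp₀w
    have h3 : ((p₀ : ℝ) + 2) * 2 ≤ ((p₀ : ℝ) + 2) * ((q : ℝ) + 1 - d (p₀ + 1)) := by
      apply mul_le_mul_of_nonneg_left _ (by positivity)
      linarith
    have h4 : ((p₀ : ℝ) + 2 - SD d (p₀ + 1)) * ((q : ℝ) + 1) ≤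
        ((v : ℝ) + 1 - SD d v) * ((q : ℝ) + 1) :=
      mul_le_mul_of_nonneg_right h1 (by linarith)
    have h5 : ((v : ℝ) + 1) * 2 ≤ ((v : ℝ) + 1 - SD d v) * ((q : ℝ) + 1) := by linarith
    rw [o2, div_le_div_iff₀ hDv (by norm_num)]
    linarith
  -- (3)
  have hcR : (w : ℝ) = v + c := by exact_mod_cast hc
  have hLR : (SD d v : ℝ) + 2 * c ≤ SD d w := by exact_mod_cast hL
  have hPD : P * ((v : ℝ) + 1 - SD d v) = (v : ℝ) + 1 := by
    rw [o2]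
    field_simp
  have hc0 : (0 : ℝ) ≤ c := Nat.cast_nonneg c
  have hE : ((SD d w : ℝ) - SD d v) * (P + 1) / 2 ≤
      (w : ℝ) + 1 - P * ((w : ℝ) + 1 - SD d w) := by
    have h1 : (P - 1) * (2 * c) ≤ (P - 1) * ((SD d w : ℝ) - SD d v) :=
      mul_le_mul_of_nonneg_left (by linarith) (by linarith)
    have h2 : P * ((w : ℝ) + 1 - SD d w) = (v : ℝ) + 1 + P * c -
        P * ((SD d w : ℝ) - SD d v) := by
      rw [hcR, ← hPD]
      ring
    rw [h2, hcR]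
    linarith
  have hw1 : (0 : ℝ) < (w : ℝ) + 1 := by positivity
  have hPP := e6_num ((w : ℝ) + 1) ((SD d w : ℝ) - SD d v) P ((w : ℝ) + 1 - SD d w)
    (((w : ℝ) + 1 - SD d w) / ((w : ℝ) + 1)) (PP d w) hw1 hP1 (by linarith) rfl hE htg
  have hth2 := theta q P (((w : ℝ) + 1 - SD d w) / ((w : ℝ) + 1)) hqR hP1 hPq
    (div_nonneg (by linarith) hw1.le)
  rw [hPh] at hth
  linarith

end Pool.Agent.LRT
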