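import Mathlib
import Pool.Agent.LRT.E3
import Pool.Agent.LRT.E6
import Pool.Agent.LRT.D1
import Pool.Agent.LRT.H4

set_option autoImplicit false

namespace Pool.Agent.LRT

open Finset
open Pool.Agent.LRE

/-- `alpha` or `beta`; for `q = 2` all deficits are `≤ 1` and `alpha` applies. From `alpha`:
`q Ph ≤ (w+1)/(w+1-δ) - 1 = δ/(w+1-δ)`. -/
theorem ab (q : ℕ) (d : ℕ → ℕ) (hq : 2 ≤ q) (hm : Monotone d) (w : ℕ)
    (hdq : ∀ p, p < w → d (p + 1) + 1 ≤ q) (h : SD d w ≤ w) :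
    Ph q d w ≤ (SD d w : ℝ) / ((q : ℝ) * ((w : ℝ) + 1 - SD d w)) ∨
      (3 ≤ q ∧ Ph q d w ≤ bet (((w : ℝ) + 1 - SD d w) / ((w : ℝ) + 1))) := by
  by_cases hA : ∀ p, p < w → 2 ≤ d (p + 1) →
      ((p : ℝ) + 2 - SD d (p + 1)) * ((q : ℝ) + 1) ≤ ((p : ℝ) + 2) * ((q : ℝ) + 1 - d (p + 1))
  · left
    have h1 := alpha q d (by omega) hm w (fun p hp => by have := hdq p hp; omega) h hA
    have hδ : (SD d w : ℝ) ≤ w := by exact_mod_cast h
    have hD : (0 : ℝ) < (w : ℝ) + 1 - SD d w := by linarith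
    have hq0 : (0 : ℝ) < q := by
      have : 0 < q := by omega
      exact_mod_cast this
    rw [le_div_iff₀ (by positivity)]
    rw [le_div_iff₀ hD] at h1
    nlinarith
  · right
    push Not at hA
    obtain ⟨p, hp, h2, h3⟩ := hA
    have h4 := hdq p hp
    refine ⟨by omega, ?_⟩
    exact beta q d (by omega) hm w hdq h ⟨p, hp, h2, h3⟩

/-- Exactly `q` positive rows, width exactly `w = ω.sup`, `δ = q w - |ω| ≤ w`. -/
theorem exact_bound (q δ : ℕ) (ω : Multiset ℕ) (hq : 2 ≤ q) (hc : ω.card = q)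
    (hδ : ω.sum + δ = q * ω.sup) (hδw : δ ≤ ω.sup) :
    psi ω ≤ hh ω.sup q * (1 + (δ : ℝ) / ((q : ℝ) * ((ω.sup : ℝ) + 1 - δ))) ∨
      (3 ≤ q ∧
        psi ω ≤ hh ω.sup q * (1 + bet (((ω.sup : ℝ) + 1 - δ) / ((ω.sup : ℝ) + 1)))) := by
  have hne : ω ≠ 0 := by
    rintro rfl
    rw [Multiset.card_zero] at hc
    omega
  have h1 := PB ω ω.sup (fun x hx => Multiset.le_sup hx)
  have h2 := SD_dd ω ω.sup (fun x hx => Multiset.le_sup hx)
  have h3 : SD (dd ω) ω.sup = δ := by rw [hc] at h2; omega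
  have hh0 : 0 < hh ω.sup (q : ℝ) := hh_pos _ (Nat.cast_nonneg _)
  rw [hc] at h1
  rcases ab q (dd ω) hq (dd_mono ω) ω.sup (fun p hp => by
    have := dd_lt ω hne (p + 1) (by omega)
    omega) (by omega) with h4 | ⟨h4, h5⟩
  · left
    rw [h3] at h4
    exact h1.trans (mul_le_mul_of_nonneg_left (by linarith) hh0.le)
  · right
    rw [h3] at h5
    exact ⟨h4, h1.trans (mul_le_mul_of_nonneg_left (by linarith) hh0.le)⟩

end Pool.Agent.LRT
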