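import Mathlib
import Pool.Agent.LRT.H4
import Pool.Agent.LRT.E5

set_option autoImplicit false

namespace Pool.Agent.LRT

open Finset
open Pool.Agent.LRE

/-- `(r+1) u^r ≤ 1 + r u^(r+1)` for `u ≥ 1` -/
theorem j2_pow (u : ℝ) (hu : 1 ≤ u) (r : ℕ) : ((r : ℝ) + 1) * u ^ r ≤ 1 + (r : ℝ) * u ^ (r + 1) := by
  induction r with
  | zero => simp
  | succ r ih =>
    have h1 : (1 : ℝ) ≤ u ^ (r + 1) := one_le_pow₀ hu
    have h2 := mul_le_mul_of_nonneg_left ih (by linarith : (0 : ℝ) ≤ u)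
    have e1 : u ^ (r + 1 + 1) = u * u ^ (r + 1) := by ring
    have e2 : u ^ (r + 1) = u * u ^ r := by ring
    have h3 : 0 ≤ (u - 1) * (u ^ (r + 1) - 1) := mul_nonneg (by linarith) (by linarith)
    push_cast
    rw [e1]
    have e3 : u * (((r : ℝ) + 1) * u ^ r) = ((r : ℝ) + 1) * u ^ (r + 1) := by
      rw [e2]
      ring
    rw [e3] at h2
    nlinarith

/-- one row `w` above a rectangle `L^r`, `L ≤ w` -/
theorem row_rect (w L r : ℕ) (hL : L ≤ w) :
    psi ({w} + Multiset.replicate r L) ≤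
      hh w ((r : ℝ) + 1) * ((1 + (((w : ℝ) + 1) / ((L : ℝ) + 1)) ^ r) / 2) := by
  set u : ℝ := ((w : ℝ) + 1) / ((L : ℝ) + 1) with hu
  have hL1 : (0 : ℝ) < (L : ℝ) + 1 := by positivity
  have hLw : (L : ℝ) ≤ w := by exact_mod_cast hL
  have hu1 : 1 ≤ u := by
    rw [hu, le_div_iff₀ hL1]
    linarith
  -- ratio of rectangles
  have hrat : ∀ r : ℕ, hh L (r : ℝ) ≤ hh w (r : ℝ) * u ^ r := by
    intro r
    induction r with
    | zero =>
      rw [Nat.cast_zero, hh_zero_right, hh_zero_right, pow_zero, mul_one]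
    | succ r ih =>
      rw [hh_nat_succ, hh_nat_succ]
      have h1 : ((r : ℝ) + 1) / ((r : ℝ) + L + 1) ≤ ((r : ℝ) + 1) / ((r : ℝ) + w + 1) * u := by
        rw [div_mul_eq_mul_div, div_le_div_iff₀ (by positivity) (by positivity)]
        have h2 : (r : ℝ) + w + 1 ≤ u * ((r : ℝ) + L + 1) := by
          have h3 : u * ((L : ℝ) + 1) = (w : ℝ) + 1 := by
            rw [hu, div_mul_cancel₀ _ hL1.ne']
          have h4 : (r : ℝ) ≤ u * r := by
            have : (0 : ℝ) ≤ r := Nat.cast_nonneg r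
            nlinarith
          linarith
        have h5 : (0 : ℝ) ≤ (r : ℝ) + 1 := by positivity
        nlinarith
      have h2 : 0 ≤ hh w (r : ℝ) * u ^ r := by
        have := (hh_pos w (Nat.cast_nonneg r : (0 : ℝ) ≤ (r : ℝ))).le
        positivity
      calc hh L (r : ℝ) * (((r : ℝ) + 1) / ((r : ℝ) + L + 1))
          ≤ (hh w (r : ℝ) * u ^ r) * (((r : ℝ) + 1) / ((r : ℝ) + w + 1) * u) :=
            mul_le_mul ih h1 (by positivity) h2
        _ = hh w (r : ℝ) * (((r : ℝ) + 1) / ((r : ℝ) + w + 1)) * u ^ (r + 1) := by ring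
  induction r with
  | zero =>
    have h1 := psi_rect 1 w
    rw [Multiset.replicate_one] at h1
    rw [Multiset.replicate_zero, add_zero, h1]
    have e1 : ((0 : ℕ) : ℝ) + 1 = ((1 : ℕ) : ℝ) := by norm_num
    rw [e1, pow_zero]
    norm_num
  | succ r ih =>
    have h1 := psi_rec ({w} + Multiset.replicate (r + 1) L)
    have e1 : ({w} + Multiset.replicate (r + 1) L : Multiset ℕ).sup = w := by
      rw [Multiset.sup_add, h4_sup, Multiset.sup_singleton]
      exact sup_eq_left.2 hL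
    have e2 : ({w} + Multiset.replicate (r + 1) L : Multiset ℕ).card = r + 2 := by
      rw [Multiset.card_add, Multiset.card_singleton, Multiset.card_replicate]
      omega
    have e3 : ({w} + Multiset.replicate (r + 1) L : Multiset ℕ).erase w =
        Multiset.replicate (r + 1) L := by
      rw [Multiset.singleton_add, Multiset.erase_cons_head]
    have e4 : psi (({w} + Multiset.replicate (r + 1) L : Multiset ℕ).erase L) =
        psi ({w} + Multiset.replicate r L) := by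
      rcases Nat.lt_or_ge L w with h | h
      · rw [Multiset.singleton_add, Multiset.erase_cons_tail _ (by omega),
          Multiset.replicate_succ, Multiset.erase_cons_head, Multiset.singleton_add]
      · have : L = w := by omega
        subst this
        rw [e3, Multiset.replicate_succ, Multiset.singleton_add]
    have e5 : (({w} + Multiset.replicate (r + 1) L : Multiset ℕ).map fun x =>
        psi (({w} + Multiset.replicate (r + 1) L : Multiset ℕ).erase x)).sum =
        psi (Multiset.replicate (r + 1) L) + ((r : ℝ) + 1) * psi ({w} + Multiset.replicate r L) := by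
      rw [Multiset.map_add, Multiset.sum_add, Multiset.map_singleton, Multiset.sum_singleton, e3,
        Multiset.map_replicate, Multiset.sum_replicate, e4, nsmul_eq_mul]
      push_cast
      ring
    rw [e1, e2, e5, psi_rect] at h1
    have h2 := hrat (r + 1)
    have h3 : hh w (((r + 1 : ℕ) : ℝ) + 1) =
        hh w (((r + 1 : ℕ) : ℝ)) * ((((r + 1 : ℕ) : ℝ) + 1) / (((r + 1 : ℕ) : ℝ) + w + 1)) := by
      have := hh_nat_succ w (r + 1)
      rw [← this]
      push_cast
      ring_nf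
    have h4 : hh w (((r + 1 : ℕ) : ℝ)) = hh w ((r : ℝ) + 1) := by
      push_cast
      ring_nf
    rw [h4] at h2 h3
    rw [h3]
    set G := hh w ((r : ℝ) + 1) with hG
    have hG0 : 0 < G := hh_pos w (by positivity)
    have hD : (0 : ℝ) < (w : ℝ) + (r + 2 : ℕ) := by positivity
    apply le_of_mul_le_mul_left _ hD
    rw [h1]
    have h5 : psi (Multiset.replicate (r + 1) L) = hh L ((r + 1 : ℕ) : ℝ) := psi_rect (r + 1) L
    have h6 := mul_le_mul_of_nonneg_left ih (by positivity : (0 : ℝ) ≤ (r : ℝ) + 1)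
    have hp := j2_pow u hu1 r
    have e6 : ((w : ℝ) + (r + 2 : ℕ)) *
        (G * ((((r + 1 : ℕ) : ℝ) + 1) / (((r + 1 : ℕ) : ℝ) + w + 1)) * ((1 + u ^ (r + 1)) / 2)) =
        G * ((r : ℝ) + 2) * ((1 + u ^ (r + 1)) / 2) := by
      push_cast
      have : (r : ℝ) + 1 + w + 1 ≠ 0 := by positivity
      field_simp
      ring
    rw [e6]
    have h7 : hh L ((r + 1 : ℕ) : ℝ) + ((r : ℝ) + 1) * psi ({w} + Multiset.replicate r L) ≤
        G * u ^ (r + 1) + ((r : ℝ) + 1) * (G * ((1 + u ^ r) / 2)) := by linarith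
    refine h7.trans ?_
    have h8 : G * ((r : ℝ) + 2) * ((1 + u ^ (r + 1)) / 2) -
        (G * u ^ (r + 1) + ((r : ℝ) + 1) * (G * ((1 + u ^ r) / 2))) =
        G / 2 * (1 + (r : ℝ) * u ^ (r + 1) - ((r : ℝ) + 1) * u ^ r) := by ring
    have h9 : 0 ≤ G / 2 * (1 + (r : ℝ) * u ^ (r + 1) - ((r : ℝ) + 1) * u ^ r) := by
      apply mul_nonneg (by linarith)
      linarith
    linarith

/-- one branch of the closure property, `v = 1 + X`, `G = u - 1` -/
theorem j2_branch (a b v G : ℝ) (r : ℕ) (ha : 0 ≤ a) (hb : 0 < b) (hab : 4 * a ≤ b) (hv : 1 ≤ v)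
    (hv2 : v ≤ 2) (hG : 0 ≤ G) (hpos : 0 < v - (r : ℝ) * G) :
    (a + b / v ^ 2) * ((1 + (1 + G) ^ (r + 2)) / 2) ≤ a + b / ((v - (r : ℝ) * G) / (1 + G)) ^ 2 := by
  have hv0 : 0 < v := by linarith
  have hG1 : 0 < 1 + G := by linarith
  set y := (v - (r : ℝ) * G) / (1 + G) with hy
  have hy0 : 0 < y := by positivity
  -- `(1+G)^(r+2) y² ≤ v²`
  have h1 : (1 + G) ^ (r + 2) * y ^ 2 ≤ v ^ 2 := by
    have e1 : (1 + G) ^ (r + 2) * y ^ 2 = (1 + G) ^ r * (v - (r : ℝ) * G) ^ 2 := by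
      rw [hy, div_pow, pow_add]
      field_simp
    rw [e1]
    have h2 : (1 + G) ^ r ≤ Real.exp ((r : ℝ) * G) := by
      have h3 : 1 + G ≤ Real.exp G := by
        have := Real.add_one_le_exp G
        linarith
      calc (1 + G) ^ r ≤ (Real.exp G) ^ r := pow_le_pow_left₀ hG1.le h3 r
        _ = Real.exp ((r : ℝ) * G) := (Real.exp_nat_mul G r).symm
    have h3 : v - (r : ℝ) * G ≤ v * Real.exp (-((r : ℝ) * G) / 2) := by
      have h4 : 1 - (r : ℝ) * G / 2 ≤ Real.exp (-((r : ℝ) * G) / 2) := by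
        have := Real.add_one_le_exp (-((r : ℝ) * G) / 2)
        linarith
      have h5 : 0 ≤ (r : ℝ) * G := by positivity
      have h6 : v - (r : ℝ) * G ≤ v * (1 - (r : ℝ) * G / 2) := by nlinarith
      exact h6.trans (mul_le_mul_of_nonneg_left h4 hv0.le)
    have h4 : (v - (r : ℝ) * G) ^ 2 ≤ (v * Real.exp (-((r : ℝ) * G) / 2)) ^ 2 :=
      pow_le_pow_left₀ hpos.le h3 2
    have e2 : (v * Real.exp (-((r : ℝ) * G) / 2)) ^ 2 = v ^ 2 * Real.exp (-((r : ℝ) * G)) := by
      rw [mul_pow, ← Real.exp_nat_mul]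
      congr 2
      push_cast
      ring
    rw [e2] at h4
    calc (1 + G) ^ r * (v - (r : ℝ) * G) ^ 2
        ≤ Real.exp ((r : ℝ) * G) * (v ^ 2 * Real.exp (-((r : ℝ) * G))) :=
          mul_le_mul h2 h4 (by positivity) (Real.exp_pos _).le
      _ = v ^ 2 := by
          rw [mul_comm, mul_assoc, ← Real.exp_add]
          simp
  set P := (1 + G) ^ (r + 2) with hP
  have hP1 : 1 ≤ P := one_le_pow₀ (by linarith)
  -- `b/y² ≥ b P/v²`
  have h2 : b * P / v ^ 2 ≤ b / y ^ 2 := by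
    rw [div_le_div_iff₀ (by positivity) (by positivity)]
    nlinarith
  have h3 : a ≤ b / v ^ 2 := by
    rw [le_div_iff₀ (by positivity)]
    have h5 : v ^ 2 ≤ 4 := by nlinarith
    have h6 := mul_le_mul_of_nonneg_left h5 ha
    linarith
  have h4 : (a + b / v ^ 2) * ((1 + P) / 2) ≤ a + b * P / v ^ 2 := by
    have e1 : b * P / v ^ 2 = b / v ^ 2 * P := by ring
    rw [e1]
    nlinarith
  linarith

/-- closure property of `1 + bet` -/
theorem E17 (u X : ℝ) (r : ℕ) (hr : 2 ≤ r) (hu : 1 ≤ u) (hX0 : 0 ≤ X) (hX1 : X ≤ 1)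
    (hx : 0 ≤ (X - ((r : ℝ) - 1) * (u - 1)) / u) :
    (1 + bet X) * ((1 + u ^ r) / 2) ≤ 1 + bet ((X - ((r : ℝ) - 1) * (u - 1)) / u) := by
  obtain ⟨q, rfl⟩ : ∃ q, r = q + 2 := ⟨r - 2, by omega⟩
  have hu0 : 0 < u := by linarith
  set x := (X - (((q + 2 : ℕ) : ℝ) - 1) * (u - 1)) / u with hxd
  have hv : 1 + x = ((1 + X) - (q : ℝ) * (u - 1)) / (1 + (u - 1)) := by
    rw [hxd]
    push_cast
    have : (1 : ℝ) + (u - 1) = u := by ring
    rw [this]
    field_simp
    ring
  have hpos : 0 < (1 + X) - (q : ℝ) * (u - 1) := by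
    have h1 : 0 < 1 + x := by linarith
    rw [hv] at h1
    have h2 : (0 : ℝ) < 1 + (u - 1) := by linarith
    exact (div_pos_iff_of_pos_right h2).1 h1
  have e1 : u = 1 + (u - 1) := by ring
  have b1 := j2_branch (1 / 2) 2 (1 + X) (u - 1) q (by norm_num) (by norm_num) (by norm_num)
    (by linarith) (by linarith) (by linarith) hpos
  have b2 := j2_branch (1 / 3) (9 / 4) (1 + X) (u - 1) q (by norm_num) (by norm_num)
    (by norm_num) (by linarith) (by linarith) (by linarith) hpos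
  rw [← hv, ← e1] at b1 b2
  have hP : 0 ≤ (1 + u ^ (q + 2)) / 2 := by positivity
  have f1 : 1 / 2 + 2 / (1 + x) ^ 2 ≤ 1 + bet x := by
    have := le_max_left (2 / (1 + x) ^ 2 - 1 / 2) (9 / (4 * (1 + x) ^ 2) - 2 / 3)
    unfold bet
    linarith
  have f2 : 1 / 3 + 9 / 4 / (1 + x) ^ 2 ≤ 1 + bet x := by
    have := le_max_right (2 / (1 + x) ^ 2 - 1 / 2) (9 / (4 * (1 + x) ^ 2) - 2 / 3)
    have e2 : 9 / 4 / (1 + x) ^ 2 = 9 / (4 * (1 + x) ^ 2) := by
      rw [div_div]
    unfold bet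
    rw [e2]
    linarith
  rcases le_total (2 / (1 + X) ^ 2 - 1 / 2) (9 / (4 * (1 + X) ^ 2) - 2 / 3) with h | h
  · have e3 : 1 + bet X = 1 / 3 + 9 / 4 / (1 + X) ^ 2 := by
      unfold bet
      rw [max_eq_right h, div_div]
      ring
    rw [e3]
    exact b2.trans f2
  · have e3 : 1 + bet X = 1 / 2 + 2 / (1 + X) ^ 2 := by
      unfold bet
      rw [max_eq_left h]
      ring
    rw [e3]
    exact b1.trans f1

end Pool.Agent.LRT
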