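import Mathlib
import Pool.Agent.LRT.Defs

set_option autoImplicit false

namespace Pool.Agent.LRT

open Finset

/-- Log-convexity of `b ↦ hh c b`.
Proof: induction on `c`, using `hh_succ`. The factor `(c+1)/(b+ε+c+1)` is
`((c+1)/(b+c+1)) / (1+ε/z)`, `z = b+c+1`, and `1/(1+ε/z) ≤ ((b+c+1)/(b+c+2))^ε = (1+1/z)^(-ε)` by
Bernoulli `(1+1/z)^ε ≤ 1 + ε/z` (`Real.rpow_one_add_le_one_add_mul_self`, `0 ≤ ε ≤ 1`); the powers
multiply: `((b+1)/(b+c+1))^ε ((b+c+1)/(b+c+2))^ε = ((b+1)/(b+c+2))^ε` (`Real.mul_rpow`). -/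
theorem hh_rpow (c : ℕ) (b ε : ℝ) (hb : 0 ≤ b) (h0 : 0 ≤ ε) (h1 : ε ≤ 1) :
    hh c (b + ε) ≤ hh c b * ((b + 1) / (b + c + 1)) ^ ε := by
  induction c with
  | zero =>
    rw [hh_zero, hh_zero]
    push_cast
    rw [add_zero, div_self (by positivity), Real.one_rpow, one_mul]
  | succ c ih =>
    rw [hh_succ, hh_succ]
    push_cast
    set z : ℝ := b + c + 1 with hz
    have hz0 : 0 < z := by positivity
    have hzε : 0 < z + ε := by positivity
    have e1 : b + ε + ((c : ℝ) + 1) = z + ε := by rw [hz]; ring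
    have e2 : b + ((c : ℝ) + 1) = z := by rw [hz]; ring
    rw [e1, e2]
    have hP0 : 0 ≤ ((b + 1) / (z + 1)) ^ ε := Real.rpow_nonneg (by positivity) _
    have hQ : ((z + 1) / z) ^ ε ≤ (z + ε) / z := by
      have h2 := rpow_one_add_le_one_add_mul_self (s := 1 / z) (p := ε)
        (by have : 0 < 1 / z := by positivity
            linarith) h0 h1
      have e3 : 1 + 1 / z = (z + 1) / z := by field_simp
      have e4 : 1 + ε * (1 / z) = (z + ε) / z := by field_simp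
      rwa [e3, e4] at h2
    have e5 : ((b + 1) / z) ^ ε = ((b + 1) / (z + 1)) ^ ε * ((z + 1) / z) ^ ε := by
      rw [← Real.mul_rpow (by positivity) (by positivity)]
      congr 1
      field_simp
    have hh0 := hh_pos c hb
    have h3 : (0 : ℝ) ≤ ((c : ℝ) + 1) / (z + ε) := by positivity
    calc hh c (b + ε) * (((c : ℝ) + 1) / (z + ε))
        ≤ (hh c b * ((b + 1) / z) ^ ε) * (((c : ℝ) + 1) / (z + ε)) :=
          mul_le_mul_of_nonneg_right ih h3
      _ = (hh c b * ((b + 1) / (z + 1)) ^ ε * (((c : ℝ) + 1) / (z + ε))) * ((z + 1) / z) ^ ε := by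
          rw [e5]; ring
      _ ≤ (hh c b * ((b + 1) / (z + 1)) ^ ε * (((c : ℝ) + 1) / (z + ε))) * ((z + ε) / z) :=
          mul_le_mul_of_nonneg_left hQ (by positivity)
      _ = hh c b * (((c : ℝ) + 1) / z) * ((b + 1) / (z + 1)) ^ ε := by
          field_simp

/-- Chord inequality. From `hh_rpow`, Bernoulli `y^ε ≤ 1 - ε + ε y` for `y = (b+1)/(b+c+1) > 0`,
`0 ≤ ε ≤ 1`, and `hh_add_one`: `hh c (b+1) = hh c b * y`. -/
theorem hh_chord (c : ℕ) (b ε : ℝ) (hb : 0 ≤ b) (h0 : 0 ≤ ε) (h1 : ε ≤ 1) :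
    hh c (b + ε) ≤ (1 - ε) * hh c b + ε * hh c (b + 1) := by
  have h2 := hh_rpow c b ε hb h0 h1
  have hy : 0 < (b + 1) / (b + c + 1) := by positivity
  have h3 := rpow_one_add_le_one_add_mul_self (s := (b + 1) / (b + c + 1) - 1) (p := ε)
    (by linarith) h0 h1
  rw [add_sub_cancel] at h3
  have hh0 := hh_pos c hb
  rw [hh_add_one c hb]
  calc hh c (b + ε) ≤ hh c b * ((b + 1) / (b + c + 1)) ^ ε := h2
    _ ≤ hh c b * (1 + ε * ((b + 1) / (b + c + 1) - 1)) := mul_le_mul_of_nonneg_left h3 hh0.le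
    _ = (1 - ε) * hh c b + ε * (hh c b * ((b + 1) / (b + c + 1))) := by ring

end Pool.Agent.LRT
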