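import Mathlib
import Pool.Agent.LRT.H2

set_option autoImplicit false

namespace Pool.Agent.LRT

theorem n1_exp_two : Real.exp 2 ≤ 37 / 5 := by
  have h1 := Real.exp_one_lt_d9
  have h2 : Real.exp 2 = Real.exp 1 * Real.exp 1 := by
    rw [← Real.exp_add]; norm_num
  have h3 : 0 < Real.exp 1 := Real.exp_pos 1
  rw [h2]
  nlinarith

theorem n1_exp_neg (a k : ℝ) (ha : 0 ≤ a) (hk : 0 < k) :
    Real.exp (-(a / k)) ≤ k / (a + k) := by
  have h1 := Real.add_one_le_exp (a / k)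
  have h2 : 0 < a / k + 1 := by positivity
  rw [Real.exp_neg]
  have h3 : k / (a + k) = (a / k + 1)⁻¹ := by
    field_simp
  rw [h3]
  exact inv_anti₀ h2 h1

/-- `h = g+1`: `r h/(h-1) = r + r/g`.
If `r ≤ g` (true: `37(r+1) ≤ 5(g+1+r)` forces `r ≤ g`), `ε = r/g ∈ [0,1]` and `hh_rpow`:
`hh g (r + ε) ≤ hh g r ((r+1)/(r+g+1))^ε`. With `(r+g+1)/(r+1) ≥ 37/5 > e²`
(`Real.exp_one_lt_d9`): `((r+1)/(r+g+1))^ε ≤ exp (-2 r/g)`. And
`hh (g+2) r = hh g r (g+1)(g+2)/((r+g+1)(r+g+2))` (`hh_succ` twice), where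
`(1 + r/(g+1))(1 + r/(g+2)) ≤ exp (r/(g+1) + r/(g+2)) ≤ exp (2r/g)`. -/
theorem n1 (g r : ℕ) (hg : 1 ≤ g) (h : 37 * (r + 1) ≤ 5 * (g + 1 + r)) :
    hh g ((r : ℝ) * ((g : ℝ) + 1) / g) ≤ hh (g + 2) (r : ℝ) := by
  have hg0 : (0 : ℝ) < g := by exact_mod_cast hg
  have hr0 : (0 : ℝ) ≤ r := Nat.cast_nonneg r
  have hrg : (r : ℝ) ≤ g := by
    have : r ≤ g := by omega
    exact_mod_cast this
  have hR : 37 * ((r : ℝ) + 1) ≤ 5 * ((g : ℝ) + 1 + r) := by exact_mod_cast h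
  have hx : (r : ℝ) * ((g : ℝ) + 1) / g = r + r / g := by field_simp
  have hε0 : 0 ≤ (r : ℝ) / g := by positivity
  have hε1 : (r : ℝ) / g ≤ 1 := by rw [div_le_one hg0]; exact hrg
  have h2 := hh_rpow g r (r / g) hr0 hε0 hε1
  have h3 : ((r : ℝ) + 1) / (r + g + 1) ≤ Real.exp (-2) := by
    rw [Real.exp_neg]
    have h4 : (Real.exp 2)⁻¹ ≥ (37 / 5 : ℝ)⁻¹ := inv_anti₀ (Real.exp_pos 2) n1_exp_two
    refine le_trans ?_ h4
    rw [div_le_iff₀ (by positivity)]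
    nlinarith
  have h5 : (((r : ℝ) + 1) / (r + g + 1)) ^ ((r : ℝ) / g) ≤ Real.exp (-(r / g)) *
      Real.exp (-(r / g)) := by
    have h6 := Real.rpow_le_rpow (by positivity) h3 hε0
    rw [← Real.exp_mul] at h6
    rw [← Real.exp_add]
    have h7 : -((r : ℝ) / g) + -(r / g) = -2 * (r / g) := by ring
    rw [h7]
    exact h6
  have h8 : Real.exp (-((r : ℝ) / g)) ≤ ((g : ℝ) + 1) / (r + ((g : ℝ) + 1)) := by
    refine le_trans ?_ (n1_exp_neg r (g + 1) hr0 (by positivity))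
    apply Real.exp_le_exp.2
    apply neg_le_neg
    exact div_le_div_of_nonneg_left hr0 hg0 (by linarith)
  have h9 : Real.exp (-((r : ℝ) / g)) ≤ ((g : ℝ) + 1 + 1) / (r + ((g : ℝ) + 1 + 1)) := by
    refine le_trans ?_ (n1_exp_neg r (g + 1 + 1) hr0 (by positivity))
    apply Real.exp_le_exp.2
    apply neg_le_neg
    exact div_le_div_of_nonneg_left hr0 hg0 (by linarith)
  rw [hx, hh_succ, hh_succ]
  push_cast
  rw [mul_assoc]
  refine h2.trans (mul_le_mul_of_nonneg_left (h5.trans ?_) (hh_pos g hr0).le)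
  exact mul_le_mul h8 h9 (Real.exp_pos _).le (by positivity)

theorem n1_pow (h : ℕ) (h17 : 17 ≤ h) : (((h : ℝ) + 3) / ((h : ℝ) + 1)) ^ h ≤ ((h : ℝ) + 3) / 3 := by
  by_cases h20 : 20 ≤ h
  · have h20' : (20 : ℝ) ≤ h := by exact_mod_cast h20
    have hpos : (0 : ℝ) < (h : ℝ) + 1 := by positivity
    have h1 : ((h : ℝ) + 3) / ((h : ℝ) + 1) ≤ Real.exp (2 / ((h : ℝ) + 1)) := by
      have h2 := Real.add_one_le_exp (2 / ((h : ℝ) + 1))
      have h3 : ((h : ℝ) + 3) / ((h : ℝ) + 1) = 2 / ((h : ℝ) + 1) + 1 := by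
        field_simp
        ring
      rw [h3]
      exact h2
    have h4 : (((h : ℝ) + 3) / ((h : ℝ) + 1)) ^ h ≤ Real.exp (2 / ((h : ℝ) + 1)) ^ h :=
      pow_le_pow_left₀ (by positivity) h1 h
    rw [← Real.exp_nat_mul] at h4
    have h5 : (h : ℝ) * (2 / ((h : ℝ) + 1)) ≤ 2 := by
      rw [mul_div_assoc', div_le_iff₀ hpos]
      linarith
    have h6 := h4.trans ((Real.exp_le_exp.2 h5).trans n1_exp_two)
    linarith
  · have : h = 17 ∨ h = 18 ∨ h = 19 := by omega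
    rcases this with rfl | rfl | rfl <;> norm_num

/-- `(2h+1)/h = 2 + 1/h`, `hh_rpow`: `hh h (2+1/h) ≤ hh h 2 (3/(h+3))^(1/h)`, and
`hh (h+1) 2 = hh h 2 (h+1)/(h+3)`. Need `(3/(h+3))^(1/h) ≤ (h+1)/(h+3)`, i.e.
`((h+3)/(h+1))^h ≤ (h+3)/3`. `(1+2/(h+1))^h ≤ exp (2h/(h+1))`. For `h ≥ 20`:
`≤ e² < 7.4 < 23/3 ≤ (h+3)/3`; `h = 17, 18, 19` by `norm_num`
(`(20/18)^17 ≤ 20/3`, `(21/19)^18 ≤ 7`, `(22/20)^19 ≤ 22/3`). -/
theorem n2 (h : ℕ) (hh17 : 17 ≤ h) :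
    hh h ((2 * (h : ℝ) + 1) / h) ≤ hh (h + 1) (2 : ℝ) := by
  have hpos : (0 : ℝ) < h := by
    have : 0 < h := by omega
    exact_mod_cast this
  have h1' : (1 : ℝ) ≤ h := by
    have : 1 ≤ h := by omega
    exact_mod_cast this
  have hx : (2 * (h : ℝ) + 1) / h = 2 + 1 / h := by field_simp
  have h2 := hh_rpow h 2 (1 / h) (by norm_num) (by positivity)
    (by rw [div_le_one hpos]; exact h1')
  rw [hx, hh_succ]
  refine h2.trans (mul_le_mul_of_nonneg_left ?_ (hh_pos h (by norm_num)).le)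
  have h3 := n1_pow h hh17
  have hq : (0 : ℝ) < ((h : ℝ) + 1) / (2 + ((h : ℝ) + 1)) := by positivity
  have h4 : ((2 : ℝ) + 1) / (2 + h + 1) ≤ (((h : ℝ) + 1) / (2 + ((h : ℝ) + 1))) ^ h := by
    have h5 : (((h : ℝ) + 1) / (2 + ((h : ℝ) + 1))) ^ h * (((h : ℝ) + 3) / ((h : ℝ) + 1)) ^ h = 1 := by
      rw [← mul_pow]
      have : ((h : ℝ) + 1) / (2 + ((h : ℝ) + 1)) * (((h : ℝ) + 3) / ((h : ℝ) + 1)) = 1 := by
        have h6 : (2 : ℝ) + ((h : ℝ) + 1) = h + 3 := by ring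
        rw [h6]
        field_simp
      rw [this, one_pow]
    have h7 : (0 : ℝ) < (((h : ℝ) + 1) / (2 + ((h : ℝ) + 1))) ^ h := by positivity
    rw [div_le_iff₀ (by positivity)]
    have h8 := mul_le_mul_of_nonneg_left h3 h7.le
    rw [h5] at h8
    nlinarith
  have h9 := Real.rpow_le_rpow (by positivity) h4 (z := 1 / (h : ℝ)) (by positivity)
  have h10 : ((((h : ℝ) + 1) / (2 + ((h : ℝ) + 1))) ^ h) ^ (1 / (h : ℝ)) =
      ((h : ℝ) + 1) / (2 + ((h : ℝ) + 1)) := by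
    rw [one_div]
    exact Real.pow_rpow_inv_natCast hq.le (by omega)
  rw [h10] at h9
  exact h9

end Pool.Agent.LRT
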