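import Mathlib
import Pool.Agent.LRT.H2

set_option autoImplicit false

namespace Pool.Agent.LRT

open Finset

/-- Put `b = x/(c+1)`, so `0 ≤ b ≤ c`, and `ε = b/c ∈ [0,1]`; then `x/c = b + ε`
(`b + b/c = b (c+1)/c = x/c`). By `hh_rpow`
`hh c (x/c) ≤ hh c b ((b+1)/(b+c+1))^ε`, and `((b+1)/(b+c+1))^ε = (1 - c/(b+c+1))^ε ≤
1 - ε c/(b+c+1) = 1 - b/(b+c+1) = (c+1)/(b+c+1)` (Bernoulli for exponents in `[0,1]`,
`Real.rpow_one_add_le_one_add_mul_self` with `-1 ≤ s`). Finally `hh_succ`: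
`hh (c+1) b = hh c b ((c+1)/(b+(c+1)))`. -/
theorem hh_ml (c : ℕ) (x : ℝ) (hc : 1 ≤ c) (h0 : 0 ≤ x) (h1 : x ≤ (c : ℝ) * ((c : ℝ) + 1)) :
    hh c (x / c) ≤ hh (c + 1) (x / ((c : ℝ) + 1)) := by
  have hc0 : (0 : ℝ) < c := by exact_mod_cast hc
  set b : ℝ := x / ((c : ℝ) + 1) with hb
  have hb0 : 0 ≤ b := by positivity
  have hbc : b ≤ c := by
    rw [hb, div_le_iff₀ (by positivity)]
    exact h1
  have hx : x / c = b + b / c := by
    rw [hb]
    field_simp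
  have hε0 : 0 ≤ b / c := by positivity
  have hε1 : b / c ≤ 1 := by
    rw [div_le_one hc0]
    exact hbc
  have h2 := hh_rpow c b (b / c) hb0 hε0 hε1
  have hy : 0 < (b + 1) / (b + c + 1) := by positivity
  have h3 := rpow_one_add_le_one_add_mul_self (s := (b + 1) / (b + c + 1) - 1) (p := b / c)
    (by linarith) hε0 hε1
  rw [add_sub_cancel] at h3
  have e1 : 1 + b / c * ((b + 1) / (b + c + 1) - 1) = ((c : ℝ) + 1) / (b + ((c : ℝ) + 1)) := by
    have h4 : b + (c : ℝ) + 1 ≠ 0 := by positivity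
    have h5 : b + ((c : ℝ) + 1) ≠ 0 := by positivity
    field_simp
    ring
  rw [e1] at h3
  rw [hh_succ, hx]
  exact h2.trans (mul_le_mul_of_nonneg_left h3 (hh_pos c hb0).le)

/-- Induction on `b ≥ a` (`Nat.le_induction`), with `hh_ml` (`x ≤ a(a+1) ≤ b(b+1)`). -/
theorem hh_ml_chain (a b : ℕ) (x : ℝ) (ha : 1 ≤ a) (hab : a ≤ b) (h0 : 0 ≤ x)
    (h1 : x ≤ (a : ℝ) * ((a : ℝ) + 1)) : hh a (x / a) ≤ hh b (x / b) := by
  induction b, hab using Nat.le_induction with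
  | base => exact le_rfl
  | succ n hn ih =>
    have h2 : (a : ℝ) ≤ n := by exact_mod_cast hn
    have h3 : (0 : ℝ) ≤ a := Nat.cast_nonneg a
    have h4 := hh_ml n x (ha.trans hn) h0 (h1.trans (by nlinarith))
    push_cast
    exact ih.trans h4

end Pool.Agent.LRT
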