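import Mathlib
import Pool.Agent.LRT.H2

set_option autoImplicit false

namespace Pool.Agent.LRT

open Finset
open Pool.Agent.LRE

/-- One step of the bound `psi s ≤ hh w (|s|/w)`, `w = s.sup`. Let `k = s.sum`, `t = s.card`.
`psi_rec`: `(w + t) psi s = ∑_{x ∈ s} psi (s.erase x) ≤ ∑ hh w ((k-x)/w)`. As `w ∈ s`, `k ≥ w`.
By `hh_chord` with `b = (k-w)/w ≥ 0`, `ε = 1 - x/w ∈ [0,1]` (so `b + ε = (k-x)/w`, `b + 1 = k/w`):
`hh w ((k-x)/w) ≤ (x/w) hh w ((k-w)/w) + (1 - x/w) hh w (k/w)`. Summing over `x ∈ s` (`∑ x = k`):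
`(k/w) hh w ((k-w)/w) + (t - k/w) hh w (k/w)`, and `hh_add_one` (`b + 1 = k/w`) gives
`hh w (k/w) = hh w ((k-w)/w) (k/w)/(k/w + w)`, i.e.
`(k/w) hh w ((k-w)/w) = (k/w + w) hh w (k/w)`. The total is `(w + t) hh w (k/w)`. -/
theorem sb_step (w : ℕ) (s : Multiset ℕ) (hw : 1 ≤ w) (hsup : s.sup = w)
    (h : ∀ x ∈ s, psi (s.erase x) ≤ hh w (((s.sum : ℝ) - x) / w)) :
    psi s ≤ hh w ((s.sum : ℝ) / w) := by
  have hs0 : s ≠ 0 := by
    rintro rfl
    rw [Multiset.sup_zero] at hsup
    have : (⊥ : ℕ) = 0 := rfl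
    omega
  have hws : w ∈ s := hsup ▸ a2_sup_mem s hs0
  have hk : (w : ℝ) ≤ s.sum := by exact_mod_cast a4_le_sum hws
  have hw0 : (0 : ℝ) < w := by exact_mod_cast hw
  set k : ℝ := (s.sum : ℝ) with hkdef
  set b : ℝ := (k - w) / w with hb
  have hb0 : 0 ≤ b := div_nonneg (by linarith) hw0.le
  have hb1 : b + 1 = k / w := by
    rw [hb]
    field_simp
    ring
  have hadd := hh_add_one w hb0
  rw [hb1] at hadd
  have hden : (0 : ℝ) < b + w + 1 := by positivity
  have hrel : k / w * hh w b = (k / w + w) * hh w (k / w) := by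
    have e1 : b + w + 1 = k / w + w := by
      rw [← hb1]
      ring
    rw [e1] at hadd hden
    rw [hadd]
    have hne := hden.ne'
    generalize k / (w : ℝ) + w = D at hne ⊢
    generalize k / (w : ℝ) = K
    field_simp
  have hrec := psi_rec s
  rw [hsup] at hrec
  have hbound : (s.map fun x => psi (s.erase x)).sum ≤
      (s.map fun x : ℕ => hh w (k / w) + (hh w b - hh w (k / w)) / w * (x : ℝ)).sum := by
    apply Multiset.sum_map_le_sum_map
    intro x hx
    refine (h x hx).trans ?_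
    have hxw : (x : ℝ) ≤ w := by
      have : x ≤ s.sup := Multiset.le_sup hx
      rw [hsup] at this
      exact_mod_cast this
    have h1 := hh_chord w b (1 - x / w) hb0 (by
      rw [sub_nonneg, div_le_one hw0]
      exact hxw) (by
      have : (0 : ℝ) ≤ (x : ℝ) / w := by positivity
      linarith)
    have e1 : b + (1 - (x : ℝ) / w) = (k - x) / w := by
      rw [hb]
      field_simp
      ring
    rw [e1, hb1] at h1
    refine h1.trans (le_of_eq ?_)
    field_simp
    ring
  rw [← hrec, a4_affine] at hbound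
  have hwt : (0 : ℝ) < (w : ℝ) + s.card := by positivity
  have e2 : (s.card : ℝ) * hh w (k / w) + (hh w b - hh w (k / w)) / w * k =
      ((w : ℝ) + s.card) * hh w (k / w) := by
    have e3 : (hh w b - hh w (k / w)) / w * k = k / w * hh w b - k / w * hh w (k / w) := by
      field_simp
    rw [e3, hrel]
    ring
  rw [e2] at hbound
  exact le_of_mul_le_mul_left hbound hwt

end Pool.Agent.LRT
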