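import Mathlib
import Pool.Agent.LRT.S1
import Pool.Agent.LRT.H3
import Pool.Agent.LRT.CJ

set_option autoImplicit false

namespace Pool.Agent.LRT

open Finset
open Pool.Agent.LRE

theorem s2_sum_le (s : Multiset ℕ) (w : ℕ) (h : ∀ x ∈ s, x ≤ w) : s.sum ≤ s.card * w := by
  have h1 := Multiset.sum_le_card_nsmul s w h
  rwa [smul_eq_mul] at h1

theorem s2_sum_filter (s : Multiset ℕ) : (s.filter (fun x => 0 < x)).sum = s.sum := by
  induction s using Multiset.induction with
  | empty => rfl
  | cons a s ih =>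
    rcases Nat.eq_zero_or_pos a with h | h
    · rw [Multiset.filter_cons_of_neg _ (by omega), ih, Multiset.sum_cons, h, zero_add]
    · have h' : 0 < a := h
      rw [Multiset.filter_cons_of_pos (p := fun x => 0 < x) _ h', Multiset.sum_cons,
        Multiset.sum_cons, ih]

theorem s2_core (N : ℕ)
    (ih : ∀ s : Multiset ℕ, s.card + s.sup < N → (∀ x ∈ s, 0 < x) → ∀ h : ℕ, 1 ≤ h →
      s.card ≤ h → s.sup ≤ h → psi s ≤ hh h ((s.sum : ℝ) / h))
    (s : Multiset ℕ) (hN : s.card + s.sup = N) (hp : ∀ x ∈ s, 0 < x) (hs0 : s ≠ 0)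
    (htw : s.card ≤ s.sup) (h : ℕ) (hs : s.sup ≤ h) :
    psi s ≤ hh h ((s.sum : ℝ) / h) := by
  have hcard : 1 ≤ s.card := Multiset.card_pos.2 hs0
  have hw : 1 ≤ s.sup := le_trans hcard htw
  have hle : ∀ x ∈ s, x ≤ s.sup := fun x hx => Multiset.le_sup hx
  have h1 : psi s ≤ hh s.sup ((s.sum : ℝ) / s.sup) := by
    apply sb_step s.sup s hw rfl
    intro x hx
    have hc1 : (s.erase x).card + 1 = s.card := by
      rw [Multiset.card_erase_of_mem hx]
      have : (s.card).pred = s.card - 1 := rfl
      omega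
    have hc2 : (s.erase x).sup ≤ s.sup :=
      Multiset.sup_mono (Multiset.erase_subset x s)
    have h2 := ih (s.erase x) (by omega) (fun y hy => hp y (Multiset.mem_of_mem_erase hy)) s.sup hw
      (by omega) hc2
    rw [a4_sum_erase hx] at h2
    exact h2
  refine h1.trans (hh_ml_chain s.sup h s.sum hw hs (Nat.cast_nonneg _) ?_)
  have h3 : s.sum ≤ s.sup * (s.sup + 1) := by
    refine (s2_sum_le s s.sup hle).trans ?_
    calc s.card * s.sup ≤ s.sup * s.sup := Nat.mul_le_mul_right _ htw
      _ ≤ s.sup * (s.sup + 1) := Nat.mul_le_mul_left _ (Nat.le_succ _)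
  exact_mod_cast h3

theorem s2_pos (N : ℕ) : ∀ s : Multiset ℕ, s.card + s.sup = N → (∀ x ∈ s, 0 < x) → ∀ h : ℕ,
    1 ≤ h → s.card ≤ h → s.sup ≤ h → psi s ≤ hh h ((s.sum : ℝ) / h) := by
  induction N using Nat.strong_induction_on with
  | _ N ih =>
    intro s hN hp h h1 hc hs
    have ih' : ∀ s : Multiset ℕ, s.card + s.sup < N → (∀ x ∈ s, 0 < x) → ∀ h : ℕ, 1 ≤ h →
        s.card ≤ h → s.sup ≤ h → psi s ≤ hh h ((s.sum : ℝ) / h) := fun s hs =>
      ih _ hs s rfl
    by_cases hs0 : s = 0
    · subst hs0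
      rw [psi_zero, Multiset.sum_zero, Nat.cast_zero, zero_div, hh_zero_right]
    rcases le_total s.card s.sup with htw | htw
    · exact s2_core N ih' s hN hp hs0 htw h hs
    · have e1 := conj_card s
      have e2 := conj_sup s hp
      have e3 := conj_sum s
      have e4 := conj_pos s
      have h0 : conj s ≠ 0 := by
        intro h2
        obtain ⟨a, ha⟩ := Multiset.exists_mem_of_ne_zero hs0
        have h3 := hp a ha
        have h4 : a ≤ s.sup := Multiset.le_sup ha
        rw [h2, Multiset.card_zero] at e1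
        omega
      have h5 := s2_core N ih' (conj s) (by omega) e4 h0 (by omega) h (by omega)
      rw [psi_conj, e3] at h5
      exact h5

/-- The bound (SB). Strong induction on `N = s.card + s.sup`, for all `h`.
`psi_filter_pos`: removing the zero rows changes neither `psi` nor `s.sum`, does not increase
`s.card` and keeps `s.sup`, so we may assume that all rows are positive (keep `≤ N`: prove the
statement for `s` with positive rows by strong induction first, then deduce the general one).
If `s = 0` then `psi 0 = 1 = hh h 0` (`hh_zero_right`).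
Let `s ≠ 0`, `w = s.sup ≥ 1`, `t = s.card`. By `psi_conj`, `conj_card`, `conj_sup`, `conj_sum`,
`conj_pos` we may replace `s` by `conj s` (same `N`, card and sup are exchanged), so assume `t ≤ w`.
For `x ∈ s`, `s.erase x` has `card = t-1 ≤ w`, `sup ≤ w`, positive rows, smaller `N`, sum
`k - x` (`a4_sum_erase`): the induction hypothesis with `h = w` gives the hypothesis of `sb_step`,
hence `psi s ≤ hh w (k/w)`. Finally `k ≤ t w ≤ w²` and `hh_ml_chain` from `w` to `h`. -/
theorem sb (s : Multiset ℕ) (h : ℕ) (h1 : 1 ≤ h) (hc : s.card ≤ h) (hs : s.sup ≤ h) :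
    psi s ≤ hh h ((s.sum : ℝ) / h) := by
  have h2 := s2_pos _ (s.filter (fun x => 0 < x)) rfl
    (fun x hx => (Multiset.mem_filter.1 hx).2) h h1
    ((Multiset.card_le_card (Multiset.filter_le _ _)).trans hc) (by rw [a3_sup_filter]; exact hs)
  rw [psi_filter_pos, s2_sum_filter] at h2
  exact h2

end Pool.Agent.LRT
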