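import Mathlib
import Pool.Agent.LRT.N1
import Pool.Agent.LRT.S2
import Pool.Agent.LRT.H4

set_option autoImplicit false

namespace Pool.Agent.LRT

open Finset
open Pool.Agent.LRE

theorem tl1 (h : ℕ) (τ : Multiset ℕ) (hsum : h + 1 ≤ τ.sum) : psi τ ≤ hh (h + 1) (1 : ℝ) := by
  have h1 := psi_le_inv τ
  have h2 : hh (h + 1) (1 : ℝ) = 1 / ((h : ℝ) + 2) := by
    have h3 := hh_symm (h + 1) 1
    rw [Nat.cast_one] at h3
    have h4 : hh 1 ((h + 1 : ℕ) : ℝ) = 1 / ((h : ℝ) + 2) := by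
      simp only [hh, range_one, prod_singleton, Nat.cast_zero, zero_add]
      push_cast
      congr 1
      ring
    rw [h3, h4]
  rw [h2]
  refine h1.trans ?_
  apply one_div_le_one_div_of_le (by positivity)
  have h3 : ((h + 1 : ℕ) : ℝ) ≤ ((τ.sum : ℕ) : ℝ) := Nat.cast_le.mpr hsum
  have h4 : ((h + 1 : ℕ) : ℝ) = (h : ℝ) + 1 := by push_cast; ring
  linarith

theorem tl2 (h : ℕ) (τ : Multiset ℕ) (h17 : 17 ≤ h) (hc : τ.card ≤ h) (hs : τ.sup ≤ h)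
    (hsum : 2 * h + 1 ≤ τ.sum) : psi τ ≤ hh (h + 1) (2 : ℝ) := by
  refine (sb τ h (by omega) hc hs).trans (le_trans ?_ (n2 h h17))
  have h0 : (0 : ℝ) < h := by
    have : 0 < h := by omega
    exact_mod_cast this
  apply hh_anti h (by positivity)
  apply div_le_div_of_nonneg_right _ h0.le
  have h3 : ((2 * h + 1 : ℕ) : ℝ) ≤ ((τ.sum : ℕ) : ℝ) := Nat.cast_le.mpr hsum
  have h4 : ((2 * h + 1 : ℕ) : ℝ) = 2 * (h : ℝ) + 1 := by push_cast; ring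
  linarith

/-- `w ≤ h - 1`, `h = g + 1`: `sb` with `g`, `n1` -/
theorem tl_narrow (g r : ℕ) (τ : Multiset ℕ) (hg : 1 ≤ g) (h37 : 37 * (r + 1) ≤ 5 * (g + 1 + r))
    (hc : τ.card ≤ g) (hs : τ.sup ≤ g) (hsum : r * (g + 1) ≤ τ.sum) :
    psi τ ≤ hh (g + 2) (r : ℝ) := by
  refine (sb τ g hg hc hs).trans (le_trans ?_ (n1 g r hg h37))
  have h0 : (0 : ℝ) < g := by exact_mod_cast hg
  apply hh_anti g (by positivity)
  apply div_le_div_of_nonneg_right _ h0.le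
  have h3 : ((r * (g + 1) : ℕ) : ℝ) ≤ ((τ.sum : ℕ) : ℝ) := Nat.cast_le.mpr hsum
  have h4 : ((r * (g + 1) : ℕ) : ℝ) = (r : ℝ) * ((g : ℝ) + 1) := by push_cast; ring
  linarith

end Pool.Agent.LRT
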