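import Mathlib
import Pool.Agent.LRT.C5
import Pool.Agent.LRT.E7
import Pool.Agent.LRT.CJ
import Pool.Agent.LRT.T1
import Pool.Agent.LRT.J2

set_option autoImplicit false

namespace Pool.Agent.LRT

open Finset
open Pool.Agent.LRE

/-- the bound of `bgen` -/
noncomputable def BB (m w δ : ℕ) : ℝ :=
  max (1 + (δ : ℝ) / ((m : ℝ) * ((w : ℝ) + 1 - δ))) (1 + bet (((w : ℝ) + 1 - δ) / ((w : ℝ) + 1)))

theorem bet_nonneg (x : ℝ) (h0 : 0 ≤ x) (h1 : x ≤ 1) : 0 ≤ bet x := by
  refine le_trans ?_ (le_max_left _ _)
  have h2 : (0 : ℝ) < (1 + x) ^ 2 := by positivity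
  have h3 : (1 / 2 : ℝ) ≤ 2 / (1 + x) ^ 2 := by
    rw [le_div_iff₀ h2]
    nlinarith
  linarith

theorem BB_ge_one (m w δ : ℕ) (h : δ ≤ w) : 1 ≤ BB m w δ := by
  unfold BB
  refine le_max_of_le_left ?_
  have h1 : (δ : ℝ) ≤ w := by exact_mod_cast h
  have h2 : (0 : ℝ) ≤ (δ : ℝ) / ((m : ℝ) * ((w : ℝ) + 1 - δ)) := by
    apply div_nonneg (Nat.cast_nonneg _)
    apply mul_nonneg (Nat.cast_nonneg _)
    linarith
  linarith

/-- `exact_bound` with `BB` -/
theorem j3_exact (m w δ : ℕ) (ω : Multiset ℕ) (hm : 2 ≤ m) (hc : ω.card = m) (hs : ω.sup = w)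
    (hsum : ω.sum + δ = m * w) (hδ : δ ≤ w) : psi ω ≤ hh w (m : ℝ) * BB m w δ := by
  subst hs
  have hh0 : 0 < hh ω.sup (m : ℝ) := hh_pos _ (Nat.cast_nonneg _)
  rcases exact_bound m δ ω hm hc hsum hδ with h | ⟨_, h⟩
  · exact h.trans (mul_le_mul_of_nonneg_left (le_max_left _ _) hh0.le)
  · exact h.trans (mul_le_mul_of_nonneg_left (le_max_right _ _) hh0.le)

theorem j3_near (L q b : ℕ) (hbL : b ≤ L) :
    psi (Multiset.replicate q L + {L - b}) =
      hh L ((q : ℝ) + 1) * (1 + (b : ℝ) / (((q : ℝ) + 1) * ((L : ℝ) + 1 - b))) := by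
  rw [psi_near L q (L - b) (by omega)]
  have h1 : hh L ((q : ℝ) + 1) = hh L (q : ℝ) * (((q : ℝ) + 1) / ((q : ℝ) + L + 1)) := by
    have := hh_nat_succ L q
    rw [← this]
    push_cast
    ring_nf
  rw [h1]
  have hb' : (b : ℝ) ≤ L := by exact_mod_cast hbL
  have h2 : ((L - b : ℕ) : ℝ) + 1 = (L : ℝ) + 1 - b := by
    rw [Nat.cast_sub hbL]
    ring
  rw [h2]
  have h3 : (L : ℝ) + 1 - b ≠ 0 := by
    have : (0 : ℝ) < (L : ℝ) + 1 - b := by linarith
    exact this.ne'
  have h4 : (q : ℝ) + L + 1 ≠ 0 := by positivity
  have h5 : (L : ℝ) + q + 1 ≠ 0 := by positivity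
  have h6 : (q : ℝ) + 1 ≠ 0 := by positivity
  field_simp
  ring

theorem bgen (C : ℕ) (κ : ℝ) (hκ : 1 ≤ κ)
    (hB : ∀ (r h : ℕ) (τ : Multiset ℕ), 2 ≤ r → C * (r - 1) ≤ h → (∀ x ∈ τ, 0 < x) → τ.card ≤ h →
      τ.sup ≤ h → r * h < τ.sum → τ.sum ≤ r * (h + 1) → psi τ ≤ κ * hh (h + 1) (r : ℝ)) :
    ∀ (m w δ : ℕ) (s : Multiset ℕ), 1 ≤ m → (∀ x ∈ s, 0 < x) → s.sup = w → s.card ≤ w →
      s.sum + δ = m * w → δ < w → C * (m - 1) ≤ w → psi s ≤ κ * (hh w (m : ℝ) * BB m w δ) := by
  intro m
  induction m with
  | zero =>
    intro w δ s h1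
    omega
  | succ r ih =>
    intro w δ s _ hpos hsup hcard hsum hδ hC
    have hκ0 : 0 ≤ κ := by linarith
    have hs0 : s ≠ 0 := by
      rintro rfl
      rw [Multiset.sup_zero] at hsup
      have : (⊥ : ℕ) = 0 := rfl
      omega
    have hw : w ∈ s := hsup ▸ a2_sup_mem s hs0
    obtain ⟨τ, rfl⟩ := Multiset.exists_cons_of_mem hw
    rw [← Multiset.singleton_add] at *
    have hτpos : ∀ x ∈ τ, 0 < x := fun x hx => hpos x (Multiset.mem_add.2 (Or.inr hx))
    have hτw : τ.sup ≤ w := by
      rw [← hsup, Multiset.sup_add]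
      exact le_sup_right
    rw [Multiset.card_add, Multiset.card_singleton] at hcard
    rw [Multiset.sum_add, Multiset.sum_singleton, Nat.succ_mul] at hsum
    have hK : τ.sum + δ = r * w := by omega
    have hhw : 0 < hh w ((r + 1 : ℕ) : ℝ) := hh_pos _ (Nat.cast_nonneg _)
    have hBB := BB_ge_one (r + 1) w δ hδ.le
    have hrhs : 0 ≤ hh w ((r + 1 : ℕ) : ℝ) * BB (r + 1) w δ := mul_nonneg hhw.le (by linarith)
    have hwr : ((w : ℕ) : ℝ) + 1 > 0 := by positivity
    rcases Nat.lt_or_ge r 2 with hr | hr
    · rcases Nat.lt_or_ge r 1 with hr0 | hr0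
      · -- one line
        have hr0' : r = 0 := by omega
        subst hr0'
        have h1 := psi_add_le {w} τ
        have h2 := psi_rect 1 w
        rw [Multiset.replicate_one] at h2
        rw [h2] at h1
        refine h1.trans ?_
        have h3 : hh w ((1 : ℕ) : ℝ) ≤ hh w ((0 + 1 : ℕ) : ℝ) * BB (0 + 1) w δ := by
          rw [zero_add] at hBB hhw ⊢
          exact le_mul_of_one_le_right hhw.le hBB
        exact h3.trans (le_mul_of_one_le_left hrhs hκ)
      · -- two lines
        have hr1 : r = 1 := by omega
        subst hr1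
        have hK1 : 1 ≤ τ.sum := by omega
        have hKw : τ.sum ≤ w := by omega
        have h1 : psi τ ≤ 1 * psi (Multiset.replicate 0 w + {τ.sum}) := by
          rw [one_mul, Multiset.replicate_zero, zero_add]
          have h2 := psi_rect 1 τ.sum
          rw [Multiset.replicate_one] at h2
          rw [h2, Nat.cast_one]
          obtain ⟨h, hh'⟩ : ∃ h, τ.sum = h + 1 := ⟨τ.sum - 1, by omega⟩
          have h3 := tl1 h τ hh'.ge
          rw [hh']
          exact h3
        have h2 := dom_near w 0 τ.sum {w} τ 1 (by omega) le_rfl hKw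
          (fun x hx => by rw [Multiset.mem_singleton] at hx; omega)
          (fun x hx => (Multiset.le_sup hx).trans hτw) h1
        rw [one_mul, Multiset.replicate_zero, zero_add] at h2
        have h3 := j3_exact 2 w δ ({w} + {τ.sum}) le_rfl (by simp)
          (by
            rw [Multiset.sup_add, Multiset.sup_singleton, Multiset.sup_singleton]
            exact sup_eq_left.2 hKw)
          (by
            rw [Multiset.sum_add, Multiset.sum_singleton, Multiset.sum_singleton]
            omega) hδ.le
        exact (h2.trans h3).trans (le_mul_of_one_le_left hrhs hκ)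
    · -- at least three lines
      have hL0 : ∃ L, L = max τ.card τ.sup := ⟨_, rfl⟩
      obtain ⟨L, hL⟩ := hL0
      have hcL : τ.card ≤ L := hL ▸ le_max_left _ _
      have hsL : τ.sup ≤ L := hL ▸ le_max_right _ _
      have hLw : L ≤ w := by
        rw [hL]
        exact max_le (by omega) hτw
      have hCr : C * r ≤ w := by simpa using hC
      obtain ⟨q, hq⟩ : ∃ q, r = q + 1 := ⟨r - 1, by omega⟩
      have hrw : r * w = q * w + w := by rw [hq, Nat.succ_mul]
      have hKlow : q * w < τ.sum := by omega
      have hCq : r * (C * q) ≤ q * w := by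
        have := Nat.mul_le_mul_left q hCr
        calc r * (C * q) = q * (C * r) := by ring
          _ ≤ q * w := this
      have hτL : ∀ x ∈ τ, x ≤ L := fun x hx => (Multiset.le_sup hx).trans hsL
      have hx0 : (0 : ℝ) ≤ ((w : ℝ) + 1 - δ) / ((w : ℝ) + 1) := by
        have : (δ : ℝ) ≤ w := by exact_mod_cast hδ.le
        apply div_nonneg _ hwr.le
        linarith
      rcases Nat.lt_or_ge (r * L) τ.sum with hA | hA
      · -- (B)
        -- `L' = h + 1` with `r h < |τ| ≤ r (h+1)`
        have hdiv : ∃ h, r * h < τ.sum ∧ τ.sum ≤ r * (h + 1) := by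
          refine ⟨(τ.sum - 1) / r, ?_, ?_⟩
          · have := Nat.mul_div_le (τ.sum - 1) r
            omega
          · have h1 := Nat.lt_mul_div_succ (τ.sum - 1) (show 0 < r by omega)
            omega
        obtain ⟨h, hh1, hh2⟩ := hdiv
        have hLh : L ≤ h := by
          have : r * L < r * (h + 1) := lt_of_lt_of_le hA hh2
          have := Nat.lt_of_mul_lt_mul_left this
          omega
        have hhw' : h < w := by
          have : r * h < r * w := by omega
          exact Nat.lt_of_mul_lt_mul_left this
        have hCh : C * (r - 1) ≤ h := by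
          have h3 : r * (C * q) < r * (h + 1) := by omega
          have h4 := Nat.lt_of_mul_lt_mul_left h3
          have h5 : r - 1 = q := by omega
          rw [h5]
          omega
        have h1 := hB r h τ hr hCh hτpos (by omega) (by omega) hh1 hh2
        have h2 : psi τ ≤ κ * psi (Multiset.replicate r (h + 1)) := by
          rw [psi_rect]
          exact h1
        have h3 := dom (h + 1) r {w} τ κ (by omega) hκ
          (fun x hx => by rw [Multiset.mem_singleton] at hx; omega)
          (fun x hx => (hτL x hx).trans (by omega)) h2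
        have h4 := row_rect w (h + 1) r (by omega)
        have hu : (1 : ℝ) ≤ ((w : ℝ) + 1) / (((h + 1 : ℕ) : ℝ) + 1) := by
          rw [le_div_iff₀ (by positivity)]
          have : ((h + 1 : ℕ) : ℝ) ≤ w := by exact_mod_cast hhw'
          linarith
        set u : ℝ := ((w : ℝ) + 1) / (((h + 1 : ℕ) : ℝ) + 1) with hud
        -- arithmetic
        have hr1 : (r : ℝ) * w = τ.sum + δ := by exact_mod_cast hK.symm
        have hr2 : ((τ.sum : ℕ) : ℝ) ≤ r * (((h + 1 : ℕ) : ℝ)) := by exact_mod_cast hh2
        have hH : (0 : ℝ) < ((h + 1 : ℕ) : ℝ) + 1 := by positivity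
        have huw : u * (((h + 1 : ℕ) : ℝ) + 1) = (w : ℝ) + 1 := by
          rw [hud, div_mul_cancel₀ _ hH.ne']
        have hu0 : 0 < u := by linarith
        have hxx : ((w : ℝ) + 1 - δ) / ((w : ℝ) + 1) ≤ (1 - ((r : ℝ) - 1) * (u - 1)) / u := by
          rw [div_le_div_iff₀ hwr hu0]
          have h5 : ((w : ℝ) + 1 - δ) * u * (((h + 1 : ℕ) : ℝ) + 1) ≤
              (1 - ((r : ℝ) - 1) * (u - 1)) * ((w : ℝ) + 1) * (((h + 1 : ℕ) : ℝ) + 1) := by
            have e1 : ((w : ℝ) + 1 - δ) * u * (((h + 1 : ℕ) : ℝ) + 1) =
                ((w : ℝ) + 1 - δ) * ((w : ℝ) + 1) := by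
              rw [mul_assoc, huw]
            have e2 : (1 - ((r : ℝ) - 1) * (u - 1)) * ((w : ℝ) + 1) * (((h + 1 : ℕ) : ℝ) + 1) =
                ((((h + 1 : ℕ) : ℝ) + 1) - ((r : ℝ) - 1) *
                  (((w : ℝ) + 1) - (((h + 1 : ℕ) : ℝ) + 1))) * ((w : ℝ) + 1) := by
              rw [← huw]
              ring
            rw [e1, e2]
            apply mul_le_mul_of_nonneg_right _ hwr.le
            linarith
          exact le_of_mul_le_mul_right h5 hH
        have hx1 : (0 : ℝ) ≤ (1 - ((r : ℝ) - 1) * (u - 1)) / u := hx0.trans hxx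
        have h5 := E17 u 1 r hr hu zero_le_one le_rfl hx1
        have hb1 : bet 1 = 0 := by
          unfold bet
          norm_num
        rw [hb1] at h5
        have h6 := bet_anti _ _ hx0 hxx
        have h7 : (1 + u ^ r) / 2 ≤ BB (r + 1) w δ := by
          unfold BB
          refine le_max_of_le_right ?_
          linarith
        refine h3.trans (mul_le_mul_of_nonneg_left ?_ hκ0)
        refine h4.trans ?_
        have e3 : ((r + 1 : ℕ) : ℝ) = (r : ℝ) + 1 := by push_cast; ring
        rw [e3] at hhw ⊢
        exact mul_le_mul_of_nonneg_left h7 hhw.le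
      · -- (A)
        obtain ⟨b, hb⟩ : ∃ b, τ.sum + b = r * L := ⟨r * L - τ.sum, by omega⟩
        have hbL : b < L := by
          have h1 : r * L = q * L + L := by rw [hq, Nat.succ_mul]
          have h2 : q * L ≤ q * w := Nat.mul_le_mul_left q hLw
          omega
        have hCL : C * (r - 1) ≤ L := by
          have h3 : r * (C * q) < r * L := by omega
          have h4 := Nat.lt_of_mul_lt_mul_left h3
          have h5 : r - 1 = q := by omega
          rw [h5]
          omega
        have hL1 : 1 ≤ L := by omega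
        -- induction hypothesis
        have hIH : psi τ ≤ κ * (hh L (r : ℝ) * BB r L b) := by
          rcases le_total τ.card τ.sup with h | h
          · have hLs : τ.sup = L := by rw [hL, max_eq_right h]
            exact ih L b τ (by omega) hτpos hLs hcL hb hbL hCL
          · have hLs : τ.card = L := by rw [hL, max_eq_left h]
            have h1 := ih L b (conj τ) (by omega) (conj_pos τ) (by rw [conj_sup τ hτpos, hLs])
              (by rw [conj_card]; exact hsL) (by rw [conj_sum]; exact hb) hbL hCL
            rwa [psi_conj] at h1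
        have hLr : (0 : ℝ) < L := by exact_mod_cast hL1
        have hbr : (b : ℝ) ≤ L := by exact_mod_cast hbL.le
        have hνL : ∀ x ∈ ({w} : Multiset ℕ), L ≤ x := fun x hx => by
          rw [Multiset.mem_singleton] at hx
          omega
        rcases le_total (1 + bet (((L : ℝ) + 1 - b) / ((L : ℝ) + 1)))
          (1 + (b : ℝ) / ((r : ℝ) * ((L : ℝ) + 1 - b))) with hmax | hmax
        · -- branch 1
          have h1 : psi τ ≤ κ * psi (Multiset.replicate q L + {L - b}) := by
            rw [j3_near L q b hbL.le]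
            unfold BB at hIH
            rw [max_eq_left hmax] at hIH
            have e1 : (r : ℝ) = (q : ℝ) + 1 := by rw [hq]; push_cast; ring
            rw [← e1]
            exact hIH
          have h2 := dom_near L q (L - b) {w} τ κ hL1 hκ (by omega) hνL hτL h1
          refine h2.trans (mul_le_mul_of_nonneg_left ?_ hκ0)
          apply j3_exact (r + 1) w δ _ (by omega)
          · rw [Multiset.card_add, Multiset.card_add, Multiset.card_singleton,
              Multiset.card_replicate, Multiset.card_singleton]
            omega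
          · apply le_antisymm
            · rw [Multiset.sup_le]
              intro x hx
              rcases Multiset.mem_add.1 hx with h3 | h3
              · rw [Multiset.mem_singleton] at h3
                omega
              · rcases Multiset.mem_add.1 h3 with h4 | h4
                · rw [Multiset.eq_of_mem_replicate h4]
                  exact hLw
                · rw [Multiset.mem_singleton] at h4
                  omega
            · rw [Multiset.sup_add, Multiset.sup_singleton]
              exact le_sup_left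
          · rw [Multiset.sum_add, Multiset.sum_add, Multiset.sum_singleton,
              Multiset.sum_replicate, Multiset.sum_singleton, smul_eq_mul, Nat.succ_mul]
            have h3 : r * L = q * L + L := by rw [hq, Nat.succ_mul]
            omega
          · exact hδ.le
        · -- branch 2
          set X := ((L : ℝ) + 1 - b) / ((L : ℝ) + 1) with hX
          have hL1r : (0 : ℝ) < (L : ℝ) + 1 := by positivity
          have hX0 : 0 ≤ X := by
            apply div_nonneg _ hL1r.le
            linarith
          have hX1 : X ≤ 1 := by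
            rw [hX, div_le_one hL1r]
            have : (0 : ℝ) ≤ b := Nat.cast_nonneg b
            linarith
          have hA0 := bet_nonneg X hX0 hX1
          have h1 : psi τ ≤ (κ * (1 + bet X)) * psi (Multiset.replicate r L) := by
            rw [psi_rect]
            unfold BB at hIH
            rw [max_eq_right hmax] at hIH
            calc psi τ ≤ κ * (hh L (r : ℝ) * (1 + bet X)) := hIH
              _ = (κ * (1 + bet X)) * hh L (r : ℝ) := by ring
          have h2 := dom L r {w} τ (κ * (1 + bet X)) hL1
            (one_le_mul_of_one_le_of_one_le hκ (by linarith)) hνL hτL h1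
          have h3 := row_rect w L r hLw
          have hu : (1 : ℝ) ≤ ((w : ℝ) + 1) / ((L : ℝ) + 1) := by
            rw [le_div_iff₀ hL1r]
            have : (L : ℝ) ≤ w := by exact_mod_cast hLw
            linarith
          set u : ℝ := ((w : ℝ) + 1) / ((L : ℝ) + 1) with hud
          have hu0 : 0 < u := by linarith
          have hxx : (X - ((r : ℝ) - 1) * (u - 1)) / u = ((w : ℝ) + 1 - δ) / ((w : ℝ) + 1) := by
            rw [div_eq_div_iff hu0.ne' hwr.ne', hX, hud]
            have hr1 : (r : ℝ) * w = τ.sum + δ := by exact_mod_cast hK.symm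
            have hr2 : (r : ℝ) * L = τ.sum + b := by exact_mod_cast hb.symm
            have hr3 : (δ : ℝ) = b + r * w - r * L := by linarith
            rw [hr3]
            field_simp
            ring
          have h4 := E17 u X r hr hu hX0 hX1 (by rw [hxx]; exact hx0)
          rw [hxx] at h4
          have e3 : ((r + 1 : ℕ) : ℝ) = (r : ℝ) + 1 := by push_cast; ring
          have h5 : psi ({w} + τ) ≤ (κ * (1 + bet X)) * (hh w ((r : ℝ) + 1) * ((1 + u ^ r) / 2)) :=
            h2.trans (mul_le_mul_of_nonneg_left h3 (mul_nonneg hκ0 (by linarith)))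
          refine h5.trans ?_
          have e4 : (κ * (1 + bet X)) * (hh w ((r : ℝ) + 1) * ((1 + u ^ r) / 2)) =
              κ * (hh w ((r : ℝ) + 1) * ((1 + bet X) * ((1 + u ^ r) / 2))) := by ring
          rw [e4]
          apply mul_le_mul_of_nonneg_left _ hκ0
          rw [e3] at hhw ⊢
          apply mul_le_mul_of_nonneg_left _ hhw.le
          unfold BB
          exact le_max_of_le_right h4

end Pool.Agent.LRT
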