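import Mathlib
import Pool.Agent.LRT.E1

set_option autoImplicit false

namespace Pool.Agent.LRT

open Finset

theorem f1_half (m e : ℕ) (h : e + 1 ≤ m) : gq m e ≤ 1 / 2 * (e : ℝ) := by
  have h1 : (e : ℝ) + 1 ≤ m := by exact_mod_cast h
  unfold gq
  rw [div_le_iff₀ (by linarith)]
  have h2 : (0 : ℝ) ≤ e := Nat.cast_nonneg e
  nlinarith

theorem f1_third (m e : ℕ) (h : e + 2 ≤ m) : gq m e ≤ 1 / 3 * (e : ℝ) := by
  have h1 : (e : ℝ) + 2 ≤ m := by exact_mod_cast h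
  unfold gq
  rw [div_le_iff₀ (by linarith)]
  have h2 : (0 : ℝ) ≤ e := Nat.cast_nonneg e
  nlinarith

theorem f1_sum (m : ℕ) (d : ℕ → ℕ) (w : ℕ) (c : ℝ)
    (h : ∀ p, p < w → gq m (d (p + 1)) ≤ c * (d (p + 1) : ℝ)) :
    (∑ p ∈ range w, gq m (d (p + 1))) ≤ c * (SD d w : ℝ) := by
  unfold SD
  push_cast
  rw [Finset.mul_sum]
  exact Finset.sum_le_sum fun p hp => h p (Finset.mem_range.1 hp)

theorem f1_SD_le (d : ℕ → ℕ) (w p : ℕ) (hp : p < w) : d (p + 1) ≤ SD d w := by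
  unfold SD
  exact Finset.single_le_sum (f := fun p => d (p + 1)) (fun _ _ => Nat.zero_le _)
    (Finset.mem_range.2 hp)

/-- `∑ g(d_p)` for `δ = m + ρ`, `1 ≤ ρ ≤ m-1`, all `d_p ≤ m-1`.
`ρ ≥ m-2` (`ρ = m-1` or `m-2`): `gq m e ≤ e/2` for `e ≤ m-1`, so `∑ ≤ (m+ρ)/2`, and
`(2m-1)/2 ≤ (9/10)(m + (m-1)/2)`, `(2m-2)/2 ≤ (9/10)(m + (m-2)/3)` (`gq m (m-1) = (m-1)/2`,
`gq m (m-2) = (m-2)/3`).
`ρ ≤ m-3`: `gq m e ≤ e/3` for `e ≤ m-2`. If all `d_p ≤ m-2`: `∑ ≤ (m+ρ)/3 ≤ (5m-7)/6`. Otherwise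
`d_w = m-1` (monotone), the others have sum `ρ+1 ≤ m-2`, so each is `≤ m-2`:
`∑ ≤ (m-1)/2 + (ρ+1)/3 ≤ (5m-7)/6 ≤ (9/10) m`. -/
theorem sum_gq (m ρ : ℕ) (d : ℕ → ℕ) (hm3 : 3 ≤ m) (hm : Monotone d) (w : ℕ)
    (hdq : ∀ p, p < w → d (p + 1) + 1 ≤ m) (hδ : SD d w = m + ρ) (hρ1 : 1 ≤ ρ) (hρ2 : ρ + 1 ≤ m) :
    (∑ p ∈ range w, gq m (d (p + 1))) ≤ 9 / 10 * ((m : ℝ) + gq m ρ) := by
  have hmR : (3 : ℝ) ≤ m := by exact_mod_cast hm3
  have hg0 : 0 ≤ gq m ρ := gq_nonneg (by omega)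
  rcases Nat.lt_or_ge (ρ + 2) m with hc | hc
  · have hρR : (ρ : ℝ) + 3 ≤ m := by exact_mod_cast hc
    by_cases hall : ∀ p, p < w → d (p + 1) + 2 ≤ m
    · have h1 := f1_sum m d w (1 / 3) (fun p hp => f1_third m _ (hall p hp))
      rw [hδ] at h1
      push_cast at h1
      linarith
    · push Not at hall
      obtain ⟨p₁, hp₁, hp₁m⟩ := hall
      obtain ⟨w', rfl⟩ : ∃ w', w = w' + 1 := ⟨w - 1, by omega⟩
      have h1 : d (p₁ + 1) ≤ d (w' + 1) := hm (by omega)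
      have h2 := hdq w' (by omega)
      have h3 : d (w' + 1) + 1 = m := by omega
      have hS := SD_succ d w'
      have h4 : SD d w' = ρ + 1 := by omega
      have h5 := f1_sum m d w' (1 / 3) (fun p hp => f1_third m _ (by
        have := f1_SD_le d w' p hp
        omega))
      have h6 := f1_half m (d (w' + 1)) h2
      have h7 : (d (w' + 1) : ℝ) + 1 = m := by exact_mod_cast h3
      rw [h4] at h5
      push_cast at h5
      rw [Finset.sum_range_succ]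
      linarith
  · have h1 := f1_sum m d w (1 / 2) (fun p hp => f1_half m _ (hdq p hp))
    rw [hδ] at h1
    push_cast at h1
    rcases Nat.lt_or_ge (ρ + 1) m with hc2 | hc2
    · have h2 : (m : ℝ) = ρ + 2 := by
        have : m = ρ + 2 := by omega
        exact_mod_cast this
      have h3 : gq m ρ = (ρ : ℝ) / 3 := by
        unfold gq
        rw [h2]
        congr 1
        ring
      rw [h3]
      linarith
    · have h2 : (m : ℝ) = ρ + 1 := by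
        have : m = ρ + 1 := by omega
        exact_mod_cast this
      have h3 : gq m ρ = (ρ : ℝ) / 2 := by
        unfold gq
        rw [h2]
        congr 1
        ring
      rw [h3]
      linarith

/-- `Ph_le` and `sum_gq`: `w + 1 - δ ≥ w - 2m ≥ (9/10) w` for `w ≥ 20 m`. -/
theorem Ph_c1 (m ρ : ℕ) (d : ℕ → ℕ) (hm3 : 3 ≤ m) (hm : Monotone d) (w : ℕ) (hw : 20 * m ≤ w)
    (hdq : ∀ p, p < w → d (p + 1) + 1 ≤ m) (hδ : SD d w = m + ρ) (hρ1 : 1 ≤ ρ) (hρ2 : ρ + 1 ≤ m) :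
    Ph m d w ≤ ((m : ℝ) + gq m ρ) / w := by
  have h1 := sum_gq m ρ d hm3 hm w hdq hδ hρ1 hρ2
  have h2 := Ph_le m d hm w (fun p hp => by
    have := hdq p hp
    omega) (by omega)
  have hw0 : (0 : ℝ) < w := by
    have : 0 < w := by omega
    exact_mod_cast this
  have hwR : 20 * (m : ℝ) ≤ w := by exact_mod_cast hw
  have hρR : (ρ : ℝ) + 1 ≤ m := by exact_mod_cast hρ2
  have hg0 : 0 ≤ gq m ρ := gq_nonneg (by omega)
  have hm0 : (0 : ℝ) ≤ m := Nat.cast_nonneg m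
  rw [hδ] at h2
  push_cast at h2
  have h3 : 9 / 10 * (w : ℝ) ≤ (w : ℝ) + 1 - (m + ρ) := by linarith
  have h4 : (0 : ℝ) < (w : ℝ) + 1 - (m + ρ) := by linarith
  refine h2.trans ?_
  rw [div_le_div_iff₀ h4 hw0]
  have h5 := mul_le_mul_of_nonneg_right h1 hw0.le
  have h6 := mul_le_mul_of_nonneg_left h3 (by linarith : (0 : ℝ) ≤ (m : ℝ) + gq m ρ)
  linarith

end Pool.Agent.LRT
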