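import Mathlib
import Pool.Agent.LRT.E5

set_option autoImplicit false

namespace Pool.Agent.LRT

theorem f2_choose (c : ℕ) : (0 : ℝ) ≤ (c : ℝ) * ((c : ℝ) - 1) * ((c : ℝ) - 2) := by
  rcases Nat.lt_or_ge c 3 with h | h
  · have : c = 0 ∨ c = 1 ∨ c = 2 := by omega
    rcases this with rfl | rfl | rfl <;> norm_num
  · have h3 : (3 : ℝ) ≤ c := by exact_mod_cast h
    have : (0 : ℝ) ≤ (c : ℝ) - 1 := by linarith
    have : (0 : ℝ) ≤ (c : ℝ) - 2 := by linarith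
    positivity

/-- Four terms of the binomial expansion, `z = c μ`. Induction on `c ≥ 2`? or: for `c ≥ 0` the
polynomial `1 + z + z(z-μ)/2 + z(z-μ)(z-2μ)/6 = 1 + cμ + C(c,2)μ² + C(c,3)μ³` and induction on `c`
with `C(c+1,j) = C(c,j) + C(c,j-1)` (the step is `(1+μ)·(...) - (...) = C(c,3) μ⁴ ≥ 0`). -/
theorem binom4 (c : ℕ) (μ : ℝ) (hμ : 0 ≤ μ) :
    1 + c * μ + c * μ * (c * μ - μ) / 2 + c * μ * (c * μ - μ) * (c * μ - 2 * μ) / 6
      ≤ (1 + μ) ^ c := by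
  induction c with
  | zero => simp
  | succ c ih =>
    rw [pow_succ]
    push_cast
    have h1 := mul_le_mul_of_nonneg_right ih (show (0 : ℝ) ≤ 1 + μ by linarith)
    refine le_trans ?_ h1
    have h2 := f2_choose c
    have h3 : 0 ≤ μ ^ 4 := by positivity
    nlinarith [mul_nonneg h2 h3]

/-- Univariate inequality 1: `u = 1 - x` runs over `[1/3, 19/20]`. For `u ≤ 19/20`:
`f = (u-1/20) + (u-1/20)(u-2/20)/2 + (u-1/20)(u-2/20)(u-3/20)/6` and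
`bet (1-u) = max (2/(2-u)² - 1/2) (9/(4(2-u)²) - 2/3)`. Minimal margin `0.0103` at `u = 19/20`
(second branch), `0.07` for the first branch. Multiply by `(2-u)²`. -/
theorem uni1 (u : ℝ) (h1 : 1 / 3 ≤ u) (h2 : u ≤ 19 / 20) :
    bet (1 - u) ≤ (u - 1 / 20) + (u - 1 / 20) * (u - 2 / 20) / 2 +
      (u - 1 / 20) * (u - 2 / 20) * (u - 3 / 20) / 6 := by
  have hs : 0 ≤ u - 1 / 3 := by linarith
  have ht : 0 ≤ 19 / 20 - u := by linarith
  have hd : 0 < (2 - u) ^ 2 := by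
    have : 0 < 2 - u := by linarith
    positivity
  have e1 : (1 : ℝ) + (1 - u) = 2 - u := by ring
  unfold bet
  rw [e1]
  apply max_le
  · rw [sub_le_iff_le_add, div_le_iff₀ hd]
    have k1 : ((u - 1 / 20) + (u - 1 / 20) * (u - 2 / 20) / 2 +
      (u - 1 / 20) * (u - 2 / 20) * (u - 3 / 20) / 6 + 1 / 2) * (2 - u) ^ 2 - 2 =
        637690000 / 208031871 * ((u - 1 / 3) ^ 0 * (19 / 20 - u) ^ 5) +
        1466476800 / 69343957 * ((u - 1 / 3) ^ 1 * (19 / 20 - u) ^ 4) +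
        3222074967 / 69343957 * ((u - 1 / 3) ^ 2 * (19 / 20 - u) ^ 3) +
        5873866011 / 138687914 * ((u - 1 / 3) ^ 3 * (19 / 20 - u) ^ 2) +
        1017603567 / 69343957 * ((u - 1 / 3) ^ 4 * (19 / 20 - u) ^ 1) +
        60389388 / 69343957 * ((u - 1 / 3) ^ 5 * (19 / 20 - u) ^ 0) := by ring
    have k2 : 0 ≤ ((u - 1 / 20) + (u - 1 / 20) * (u - 2 / 20) / 2 +
      (u - 1 / 20) * (u - 2 / 20) * (u - 3 / 20) / 6 + 1 / 2) * (2 - u) ^ 2 - 2 := by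
      rw [k1]
      positivity
    linarith
  · rw [sub_le_iff_le_add, div_le_iff₀ (by positivity)]
    have k1 : ((u - 1 / 20) + (u - 1 / 20) * (u - 2 / 20) / 2 +
      (u - 1 / 20) * (u - 2 / 20) * (u - 3 / 20) / 6 + 2 / 3) * (2 - u) ^ 2 - 9 / 4 =
        1134490000 / 208031871 * ((u - 1 / 3) ^ 0 * (19 / 20 - u) ^ 5) +
        2028076800 / 69343957 * ((u - 1 / 3) ^ 1 * (19 / 20 - u) ^ 4) +
        3861758967 / 69343957 * ((u - 1 / 3) ^ 2 * (19 / 20 - u) ^ 3) +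
        6284770011 / 138687914 * ((u - 1 / 3) ^ 3 * (19 / 20 - u) ^ 2) +
        927855567 / 69343957 * ((u - 1 / 3) ^ 4 * (19 / 20 - u) ^ 1) +
        8873388 / 69343957 * ((u - 1 / 3) ^ 5 * (19 / 20 - u) ^ 0) := by ring
    have k2 : 0 ≤ ((u - 1 / 20) + (u - 1 / 20) * (u - 2 / 20) / 2 +
      (u - 1 / 20) * (u - 2 / 20) * (u - 3 / 20) / 6 + 2 / 3) * (2 - u) ^ 2 - 9 / 4 := by
      rw [k1]
      positivity
    linarith

/-- Univariate inequality 2 (`μ = 1 - u`), minimal margin `0.0103` at `u = 19/20`. -/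
theorem uni2 (u : ℝ) (h1 : 19 / 20 ≤ u) (h2 : u ≤ 1) :
    bet (1 - u) ≤ (2 * u - 1) + (2 * u - 1) * (3 * u - 2) / 2 +
      (2 * u - 1) * (3 * u - 2) * (4 * u - 3) / 6 := by
  have hs : 0 ≤ u - 19 / 20 := by linarith
  have ht : 0 ≤ 1 - u := by linarith
  have hd : 0 < (2 - u) ^ 2 := by
    have : 0 < 2 - u := by linarith
    positivity
  have e1 : (1 : ℝ) + (1 - u) = 2 - u := by ring
  unfold bet
  rw [e1]
  apply max_le
  · rw [sub_le_iff_le_add, div_le_iff₀ hd]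
    have k1 : ((2 * u - 1) + (2 * u - 1) * (3 * u - 2) / 2 +
      (2 * u - 1) * (3 * u - 2) * (4 * u - 3) / 6 + 1 / 2) * (2 - u) ^ 2 - 2 =
        248516 / 1 * ((u - 19 / 20) ^ 0 * (1 - u) ^ 5) +
        1543720 / 1 * ((u - 19 / 20) ^ 1 * (1 - u) ^ 4) +
        3675200 / 1 * ((u - 19 / 20) ^ 2 * (1 - u) ^ 3) +
        12740000 / 3 * ((u - 19 / 20) ^ 3 * (1 - u) ^ 2) +
        2400000 / 1 * ((u - 19 / 20) ^ 4 * (1 - u) ^ 1) +
        1600000 / 3 * ((u - 19 / 20) ^ 5 * (1 - u) ^ 0) := by ring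
    have k2 : 0 ≤ ((2 * u - 1) + (2 * u - 1) * (3 * u - 2) / 2 +
      (2 * u - 1) * (3 * u - 2) * (4 * u - 3) / 6 + 1 / 2) * (2 - u) ^ 2 - 2 := by
      rw [k1]
      positivity
    linarith
  · rw [sub_le_iff_le_add, div_le_iff₀ (by positivity)]
    have k1 : ((2 * u - 1) + (2 * u - 1) * (3 * u - 2) / 2 +
      (2 * u - 1) * (3 * u - 2) * (4 * u - 3) / 6 + 2 / 3) * (2 - u) ^ 2 - 9 / 4 =
        36516 / 1 * ((u - 19 / 20) ^ 0 * (1 - u) ^ 5) +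
        427720 / 1 * ((u - 19 / 20) ^ 1 * (1 - u) ^ 4) +
        3997600 / 3 * ((u - 19 / 20) ^ 2 * (1 - u) ^ 3) +
        5384000 / 3 * ((u - 19 / 20) ^ 3 * (1 - u) ^ 2) +
        1120000 / 1 * ((u - 19 / 20) ^ 4 * (1 - u) ^ 1) +
        800000 / 3 * ((u - 19 / 20) ^ 5 * (1 - u) ^ 0) := by ring
    have k2 : 0 ≤ ((2 * u - 1) + (2 * u - 1) * (3 * u - 2) / 2 +
      (2 * u - 1) * (3 * u - 2) * (4 * u - 3) / 6 + 2 / 3) * (2 - u) ^ 2 - 9 / 4 := by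
      rw [k1]
      positivity
    linarith

theorem f2_mono (A B C A' B' C' : ℝ) (hA : A' ≤ A) (hB : B' ≤ B) (hC : C' ≤ C) (hA0 : 0 ≤ A')
    (hB0 : 0 ≤ B') (hC0 : 0 ≤ C') :
    A' + A' * B' / 2 + A' * B' * C' / 6 ≤ A + A * B / 2 + A * B * C / 6 := by
  have h1 : A' * B' ≤ A * B := mul_le_mul hA hB hB0 (hA0.trans hA)
  have h2 : A' * B' * C' ≤ A * B * C :=
    mul_le_mul h1 hC hC0 (mul_nonneg (hA0.trans hA) (hB0.trans hB))
  linarith

/-- Let `a(z) = z + z(z-μ)/2 + z(z-μ)(z-2μ)/6`, nondecreasing in `z ≥ 2μ`. Let `u = 1 - x`, so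
`u ≤ z + μ` and `u ≤ 1 - μ`. Put `u' = min (z+μ) (1-μ)`; `u ≤ u'` and `bet (1-u) ≤ bet (1-u')`
(`bet_anti`; `1 - u' ≥ μ > 0`); `u' - μ ≤ z`, `u' - μ ≥ 2μ` (`z ≥ 2μ` and `1 - 2μ ≥ 2μ`), so it is
enough that `bet (1-u') ≤ a(u'-μ)` for `3μ ≤ u' ≤ 1-μ`.
`u' ≤ 1/3`: `a(u'-μ) ≥ u' - μ ≥ (2/3) u'`, and `bet(1-u') ≤ (2/3) u'` for `0 ≤ u' ≤ 1/3`
(first branch: `2/(2-u)² - 1/2 = u(4-u)/(2(2-u)²)`; second branch: `9 ≤ (8/3)(2-u)²(1+u)`).
`1/3 ≤ u' ≤ 19/20`: `a(u'-μ)` as a function of `μ ∈ (0, 1/20]` is nonincreasing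
(all factors `u'-μ, u'-2μ, u'-3μ` are nonnegative and nonincreasing), use `uni1`.
`u' ≥ 19/20`: `μ ≤ 1 - u' ≤ 1/20`, `a(u'-μ) ≥` its value at `μ = 1-u'`, use `uni2`. -/
theorem bet_poly (μ z x : ℝ) (hμ0 : 0 < μ) (hμ : μ ≤ 1 / 20) (hz : 2 * μ ≤ z)
    (hx1 : 1 - z - μ ≤ x) (hx2 : μ ≤ x) (hx3 : x ≤ 1) :
    bet x ≤ z + z * (z - μ) / 2 + z * (z - μ) * (z - 2 * μ) / 6 := by
  set u : ℝ := min (z + μ) (1 - μ) with hu
  have hu1 : u ≤ z + μ := min_le_left _ _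
  have hu2 : u ≤ 1 - μ := min_le_right _ _
  have hu3 : 3 * μ ≤ u := le_min (by linarith) (by linarith)
  have hu4 : 1 - u ≤ x := by
    rcases min_choice (z + μ) (1 - μ) with h | h
    · rw [hu, h]; linarith
    · rw [hu, h]; linarith
  have h1 : bet x ≤ bet (1 - u) := bet_anti (1 - u) x (by linarith) hu4
  refine h1.trans ?_
  have h2 : (u - μ) + (u - μ) * (u - 2 * μ) / 2 + (u - μ) * (u - 2 * μ) * (u - 3 * μ) / 6 ≤
      z + z * (z - μ) / 2 + z * (z - μ) * (z - 2 * μ) / 6 :=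
    f2_mono z (z - μ) (z - 2 * μ) (u - μ) (u - 2 * μ) (u - 3 * μ) (by linarith) (by linarith)
      (by linarith) (by linarith) (by linarith) (by linarith)
  refine le_trans ?_ h2
  rcases le_total u (1 / 3) with h3 | h3
  · have h4 : u - μ ≤ (u - μ) + (u - μ) * (u - 2 * μ) / 2 +
        (u - μ) * (u - 2 * μ) * (u - 3 * μ) / 6 := by
      have a1 : 0 ≤ u - μ := by linarith
      have a2 : 0 ≤ u - 2 * μ := by linarith
      have a3 : 0 ≤ u - 3 * μ := by linarith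
      have a4 : 0 ≤ (u - μ) * (u - 2 * μ) := mul_nonneg a1 a2
      have a5 : 0 ≤ (u - μ) * (u - 2 * μ) * (u - 3 * μ) := mul_nonneg a4 a3
      linarith
    refine le_trans ?_ h4
    have h5 : 2 / 3 * u ≤ u - μ := by linarith
    refine le_trans ?_ h5
    have hu0 : 0 ≤ u := by linarith
    have hd : 0 < (2 - u) ^ 2 := by
      have : 0 < 2 - u := by linarith
      positivity
    have e1 : (1 : ℝ) + (1 - u) = 2 - u := by ring
    unfold bet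
    rw [e1]
    apply max_le
    · rw [sub_le_iff_le_add, div_le_iff₀ hd]
      have h6 : 0 ≤ u * (1 / 54 + (1 / 3 - u) * (13 / 6 - 2 / 3 * u - 2 / 9)) := by
        have h7 : 0 ≤ (1 / 3 - u) * (13 / 6 - 2 / 3 * u - 2 / 9) :=
          mul_nonneg (by linarith) (by linarith)
        positivity
      nlinarith
    · rw [sub_le_iff_le_add, div_le_iff₀ (by positivity)]
      have h7 : 0 ≤ u ^ 2 * u := by positivity
      nlinarith [mul_nonneg hu0 (by linarith : (0 : ℝ) ≤ 1 / 3 - u)]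
  · rcases le_total u (19 / 20) with h4 | h4
    · refine (uni1 u h3 h4).trans ?_
      exact f2_mono _ _ _ _ _ _ (by linarith) (by linarith) (by linarith) (by linarith)
        (by linarith) (by linarith)
    · refine (uni2 u h4 (by linarith)).trans ?_
      exact f2_mono _ _ _ _ _ _ (by linarith) (by linarith) (by linarith) (by linarith)
        (by linarith) (by linarith)

/-- `binom4` with `c = δ / m`, `μ = m/w ≤ 1/20`, `z = c μ`, `x = (w+1-δ)/(w+1)`: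
`δ < (c+1) m` gives `1 - x = δ/(w+1) ≤ (c+1) m/w = z + μ`; `x ≥ (m+1)/(w+1) ≥ m/w`. `c ≥ 2`. -/
theorem numF2 (m w δ : ℕ) (hm : 1 ≤ m) (hw : 20 * m ≤ w) (h1 : 2 * m ≤ δ) (h2 : δ + m ≤ w) :
    bet (((w : ℝ) + 1 - δ) / ((w : ℝ) + 1)) ≤ (1 + (m : ℝ) / w) ^ (δ / m) - 1 := by
  have hmR : (1 : ℝ) ≤ m := by exact_mod_cast hm
  have hwR : 20 * (m : ℝ) ≤ w := by exact_mod_cast hw
  have hw0 : (0 : ℝ) < w := by linarith
  have hδR : (δ : ℝ) + m ≤ w := by exact_mod_cast h2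
  have hδ0 : (0 : ℝ) ≤ δ := Nat.cast_nonneg _
  set c : ℕ := δ / m with hc
  have hc2 : 2 ≤ c := by
    rw [hc, Nat.le_div_iff_mul_le (by omega)]
    exact h1
  have hcm : δ < (c + 1) * m :=
    (Nat.div_lt_iff_lt_mul (by omega)).1 (Nat.lt_succ_self _)
  have hcmR : (δ : ℝ) ≤ ((c : ℝ) + 1) * m := by
    have : ((δ : ℕ) : ℝ) ≤ (((c + 1) * m : ℕ) : ℝ) := by exact_mod_cast hcm.le
    push_cast at this
    exact this
  have hc2R : (2 : ℝ) ≤ c := by exact_mod_cast hc2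
  have hμ0 : (0 : ℝ) < (m : ℝ) / w := by positivity
  have hμ : (m : ℝ) / w ≤ 1 / 20 := by
    rw [div_le_iff₀ hw0]
    linarith
  have h3 := bet_poly ((m : ℝ) / w) (c * ((m : ℝ) / w)) (((w : ℝ) + 1 - δ) / ((w : ℝ) + 1)) hμ0 hμ
    (mul_le_mul_of_nonneg_right hc2R hμ0.le) (by
      have e1 : 1 - (c : ℝ) * ((m : ℝ) / w) - (m : ℝ) / w = 1 - ((c : ℝ) + 1) * m / w := by ring
      have e2 : ((w : ℝ) + 1 - δ) / ((w : ℝ) + 1) = 1 - δ / ((w : ℝ) + 1) := by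
        field_simp
      rw [e1, e2]
      have h4 : (δ : ℝ) / ((w : ℝ) + 1) ≤ ((c : ℝ) + 1) * m / w := by
        calc (δ : ℝ) / ((w : ℝ) + 1) ≤ (δ : ℝ) / w :=
              div_le_div_of_nonneg_left hδ0 hw0 (by linarith)
          _ ≤ ((c : ℝ) + 1) * m / w := div_le_div_of_nonneg_right hcmR hw0.le
      linarith) (by
      rw [div_le_div_iff₀ hw0 (by positivity)]
      nlinarith) (by
      rw [div_le_one (by positivity)]
      linarith)
  have h4 := binom4 c ((m : ℝ) / w) hμ0.le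
  linarith

end Pool.Agent.LRT
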