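import Mathlib
import Pool.Agent.LRT.H4

set_option autoImplicit false

namespace Pool.Agent.LRT

open Finset
open Pool.Agent.LRE

/-- the step `hh m v = hh m (v+1) (1 + m/(v+1))` -/
theorem f3_step (m v : ℕ) :
    hh m (v : ℝ) = hh m ((v + 1 : ℕ) : ℝ) * (1 + (m : ℝ) / ((v : ℝ) + 1)) := by
  rw [hh_nat_succ]
  have h1 : (v : ℝ) + m + 1 ≠ 0 := by positivity
  have h2 : (v : ℝ) + 1 ≠ 0 := by positivity
  field_simp
  ring

/-- `hh m (w-c) ≥ hh m w (1+m/w)^c` for `c ≤ w`: `hh m v = hh m (v+1) (1 + m/(v+1))`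
(`hh_nat_succ`), and `v + 1 ≤ w`. Induction on `c`. -/
theorem hh_drop (m w c : ℕ) (hw : 1 ≤ w) (hc : c ≤ w) :
    hh m w * (1 + (m : ℝ) / w) ^ c ≤ hh m ((w - c : ℕ) : ℝ) := by
  induction c with
  | zero => simp
  | succ c ih =>
    have i1 := ih (by omega)
    obtain ⟨v, hv⟩ : ∃ v, w - c = v + 1 := ⟨w - c - 1, by omega⟩
    have e1 : w - (c + 1) = v := by omega
    rw [hv] at i1
    rw [e1, f3_step m v, pow_succ, ← mul_assoc]
    have h1 : (0 : ℝ) < w := by exact_mod_cast hw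
    have h2 : (v : ℝ) + 1 ≤ w := by
      have : v + 1 ≤ w := by omega
      exact_mod_cast this
    have h3 : (m : ℝ) / w ≤ (m : ℝ) / ((v : ℝ) + 1) :=
      div_le_div_of_nonneg_left (Nat.cast_nonneg m) (by positivity) h2
    have h4 : 0 < hh m ((v + 1 : ℕ) : ℝ) := hh_pos m (Nat.cast_nonneg _)
    have h5 : (0 : ℝ) ≤ 1 + (m : ℝ) / w := by positivity
    exact mul_le_mul i1 (add_le_add le_rfl h3) h5 h4.le

/-- `NN m k ≥ psi (m^K) = hh m K` for `k ≤ m K` : `k / m < K` or (`k = m K`, `k % m = 0`); the row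
`k % m ≤ m` may be enlarged to `m` (`psi_cons_le`), further rows `m` may be added (`psi_add_le`). -/
theorem NN_ge_rect (m K k : ℕ) (hm : 1 ≤ m) (hk : k ≤ m * K) : hh m (K : ℝ) ≤ NN m k := by
  unfold NN
  rw [← psi_rect]
  have hdm := Nat.div_add_mod k m
  have hmod := Nat.mod_lt k hm
  rcases Nat.lt_or_ge (k / m) K with h | h
  · obtain ⟨n, hn⟩ := Nat.exists_eq_add_of_le (Nat.succ_le_of_lt h)
    have h1 : psi (Multiset.replicate K m) ≤ psi (Multiset.replicate (k / m + 1) m) := by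
      have h2 := psi_add_le (Multiset.replicate (k / m + 1) m) (Multiset.replicate n m)
      rw [← Multiset.replicate_add] at h2
      have e : k / m + 1 + n = K := hn.symm
      rw [e] at h2
      exact h2
    refine h1.trans ?_
    rw [Multiset.replicate_succ, add_comm, Multiset.singleton_add]
    exact psi_cons_le hmod.le _
  · have h1 : m * K ≤ m * (k / m) := Nat.mul_le_mul_left m h
    have h2 : k % m = 0 := by omega
    have h3 : m * (k / m) = m * K := by omega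
    have h4 : k / m = K := Nat.eq_of_mul_eq_mul_left hm h3
    rw [h2, h4, add_comm, Multiset.singleton_add, psi_cons_zero]

/-- `k = m w - δ`, `K = w - δ/m`, `NN_ge_rect`, `hh_drop`, `hh_symm`. -/
theorem NN_pow (m w δ : ℕ) (hm : 1 ≤ m) (hw : 1 ≤ w) (hδ : δ ≤ m * w) :
    hh w (m : ℝ) * (1 + (m : ℝ) / w) ^ (δ / m) ≤ NN m (m * w - δ) := by
  have h1 : δ / m ≤ w := Nat.div_le_of_le_mul hδ
  have h2 := hh_drop m w (δ / m) hw h1
  rw [hh_symm m w] at h2
  refine h2.trans (NN_ge_rect m _ _ hm ?_)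
  rw [Nat.mul_sub]
  have h3 := Nat.mul_div_le δ m
  omega

/-- closed form of `NN m (m v - ρ)`, `ρ < m`, `v ≥ 1`:
`psi_near` with `r = v-1`, `s = m - ρ` (for `ρ = 0` use `psi_rect`), and
`hh m (v-1) = hh m v (m+v)/v`. -/
theorem NN_near (m v ρ : ℕ) (hρ : ρ < m) (hv : 1 ≤ v) :
    NN m (m * v - ρ) = hh m (v : ℝ) * (1 + gq m ρ / v) := by
  unfold NN
  rcases Nat.eq_zero_or_pos ρ with h0 | h0
  · subst h0
    have hg : gq m 0 = 0 := by simp [gq]
    rw [hg, zero_div, add_zero, mul_one, Nat.sub_zero, Nat.mul_div_cancel_left v hρ,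
      Nat.mul_mod_right, add_comm, Multiset.singleton_add, psi_cons_zero, psi_rect]
  · obtain ⟨r, rfl⟩ : ∃ r, v = r + 1 := ⟨v - 1, by omega⟩
    obtain ⟨s, hs⟩ : ∃ s, m = ρ + s := Nat.exists_eq_add_of_le hρ.le
    have e1 : m * (r + 1) - ρ = s + m * r := by
      rw [Nat.mul_succ]
      omega
    have hsm : s < m := by omega
    have hs1 : 0 < s := by omega
    rw [e1, Nat.add_mul_div_left _ _ (by omega), Nat.add_mul_mod_self_left,
      Nat.div_eq_of_lt hsm, Nat.mod_eq_of_lt hsm, zero_add, psi_near m r s hsm.le, f3_step m r]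
    have e2 : gq m ρ = (ρ : ℝ) / ((s : ℝ) + 1) := by
      unfold gq
      rw [hs]
      push_cast
      congr 1
      ring
    rw [e2]
    have e3 : (m : ℝ) = ρ + s := by exact_mod_cast hs
    have h1 : (r : ℝ) + 1 ≠ 0 := by positivity
    have h2 : (s : ℝ) + 1 ≠ 0 := by positivity
    have h3 : (m : ℝ) + r + 1 ≠ 0 := by positivity
    push_cast
    rw [mul_assoc]
    congr 1
    rw [e3] at h3 ⊢
    field_simp
    ring

/-- `NN_near` for `v = w - 1`: `hh m (w-1) = hh m w (1 + m/w)`, and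
`(1 + m/w)(1 + g/(w-1)) ≥ 1 + (m+g)/w`. -/
theorem NN_c1 (m w ρ : ℕ) (hρ : ρ < m) (hw : 2 ≤ w) :
    hh w (m : ℝ) * (1 + ((m : ℝ) + gq m ρ) / w) ≤ NN m (m * w - (m + ρ)) := by
  obtain ⟨v, rfl⟩ : ∃ v, w = v + 1 := ⟨w - 1, by omega⟩
  have e1 : m * (v + 1) - (m + ρ) = m * v - ρ := by
    rw [Nat.mul_succ]
    omega
  rw [e1, NN_near m v ρ hρ (by omega), f3_step m v, hh_symm (v + 1) m, mul_assoc]
  apply mul_le_mul_of_nonneg_left _ (hh_pos m (Nat.cast_nonneg _)).le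
  have hv : (0 : ℝ) < v := by
    have : 0 < v := by omega
    exact_mod_cast this
  have hg := gq_nonneg hρ.le
  push_cast
  have h1 : gq m ρ / ((v : ℝ) + 1) ≤ gq m ρ / v :=
    div_le_div_of_nonneg_left hg hv (by linarith)
  have h2 : 0 ≤ (m : ℝ) / ((v : ℝ) + 1) * (gq m ρ / v) := by positivity
  rw [add_div]
  nlinarith

/-- `δ < m`: `NN_near`; `δ = m`: `NN m (m (w-1)) = hh m (w-1) = hh m w (1 + m/w)`. -/
theorem NN_T1b (m w δ : ℕ) (hm : 1 ≤ m) (hδ : δ ≤ m) (hw : 1 ≤ w) :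
    hh w (m : ℝ) * (1 + (δ : ℝ) / ((w : ℝ) * ((m : ℝ) + 1 - δ))) ≤ NN m (m * w - δ) := by
  rcases Nat.lt_or_ge δ m with h | h
  · rw [NN_near m w δ h hw, hh_symm m w]
    apply le_of_eq
    unfold gq
    rw [div_div, mul_comm ((m : ℝ) + 1 - δ)]
  · have e1 : δ = m := by omega
    subst e1
    obtain ⟨v, rfl⟩ : ∃ v, w = v + 1 := ⟨w - 1, by omega⟩
    have e2 : δ * (v + 1) - δ = δ * v := by
      rw [Nat.mul_succ]
      omega
    rw [e2]
    refine le_trans (le_of_eq ?_) (NN_ge_rect δ v (δ * v) hm le_rfl)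
    rw [f3_step δ v, hh_symm (v + 1) δ]
    congr 2
    push_cast
    rw [add_sub_cancel_left, mul_one]

/-- rows of length `w`: `NN_near` with `m` and `v` exchanged: `NN w (w m - δ) = hh w m (1 + gq w δ/m)`
for `δ < w`; for `δ = w`, `NN w (w (m-1)) = hh w (m-1) = hh w m (1 + w/m)`. -/
theorem NN_B (m w δ : ℕ) (hm : 1 ≤ m) (hδ : δ ≤ w) (hw : 1 ≤ w) :
    hh w (m : ℝ) * (1 + (δ : ℝ) / ((m : ℝ) * ((w : ℝ) + 1 - δ))) ≤ NN w (m * w - δ) := by
  have h1 := NN_T1b w m δ hw hδ hm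
  rw [hh_symm m w, mul_comm w m] at h1
  exact h1

end Pool.Agent.LRT
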