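import Mathlib
import Pool.Agent.LRT.E7
import Pool.Agent.LRT.F1
import Pool.Agent.LRT.F2
import Pool.Agent.LRT.F3

set_option autoImplicit false

namespace Pool.Agent.LRT

open Finset
open Pool.Agent.LRE

/-- Exactly `m` rows, width `w = ω.sup`, `k = m w - δ`, `δ + m ≤ w`:
`δ ≤ m`: `PB`, `Ph_T1b`, `NN_T1b` (`SD (dd ω) w = δ` from `SD_dd`).
`δ > m`: `exact_bound`; first alternative: `NN_B`. Second alternative (`m ≥ 3`, so `20 m ≤ w`):
`m < δ < 2m`, `ρ = δ - m`: use `PB` and `Ph_c1`, `NN_c1` instead; `δ ≥ 2m`: `numF2`, `NN_pow`. -/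
theorem exact_m (m δ : ℕ) (ω : Multiset ℕ) (hm : 2 ≤ m) (hc : ω.card = m)
    (hδ : ω.sum + δ = m * ω.sup) (hδw : δ + m ≤ ω.sup) (hw : m = 2 ∨ 20 * m ≤ ω.sup) :
    psi ω ≤ max (NN m ω.sum) (NN ω.sup ω.sum) := by
  have hne : ω ≠ 0 := by
    rintro rfl
    rw [Multiset.card_zero] at hc
    omega
  have h1 := PB ω ω.sup (fun x hx => Multiset.le_sup hx)
  have h2 := SD_dd ω ω.sup (fun x hx => Multiset.le_sup hx)
  have h3 : SD (dd ω) ω.sup = δ := by rw [hc] at h2; omega
  have hh0 : 0 < hh ω.sup (m : ℝ) := hh_pos _ (Nat.cast_nonneg _)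
  have hk : ω.sum = m * ω.sup - δ := by omega
  have hdlt : ∀ p, p < ω.sup → dd ω (p + 1) + 1 ≤ m := by
    intro p hp
    have := dd_lt ω hne (p + 1) (by omega)
    omega
  rw [hc] at h1
  by_cases hd1 : δ ≤ m
  · by_cases hd2 : ω.sup ≤ m
    · -- then `δ = 0`
      have hd0 : δ = 0 := by omega
      have h4 : ω.sup = m := by omega
      refine le_max_of_le_left ?_
      have h5 : Ph m (dd ω) ω.sup = 0 := by
        unfold Ph
        apply sum_eq_zero
        intro p hp
        rw [mem_range] at hp
        have h6 : dd ω (p + 1) = 0 := by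
          have h7 : SD (dd ω) ω.sup = 0 := by omega
          unfold SD at h7
          exact (sum_eq_zero_iff.mp h7) p (mem_range.mpr hp)
        rw [h6]
        simp [gq]
      have h8 := NN_T1b m ω.sup 0 (by omega) (by omega) (by omega)
      rw [hk, hd0]
      refine le_trans ?_ h8
      rw [h5] at h1
      simpa using h1
    · refine le_max_of_le_left ?_
      have h4 := Ph_T1b m (dd ω) (dd_mono ω) ω.sup (by omega) (by omega) (by omega)
      have h5 := NN_T1b m ω.sup δ (by omega) hd1 (by omega)
      rw [hk]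
      refine le_trans h1 (le_trans ?_ h5)
      rw [h3] at h4
      exact mul_le_mul_of_nonneg_left (by linarith) hh0.le
  · push Not at hd1
    rcases exact_bound m δ ω hm hc hδ (by omega) with h4 | ⟨h4, h5⟩
    · refine le_max_of_le_right ?_
      have h5 := NN_B m ω.sup δ (by omega) (by omega) (by omega)
      rw [hk]
      exact h4.trans h5
    · refine le_max_of_le_left ?_
      have hw20 : 20 * m ≤ ω.sup := by
        rcases hw with h6 | h6
        · omega
        · exact h6
      by_cases hd2 : δ < 2 * m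
      · have h6 := Ph_c1 m (δ - m) (dd ω) h4 (dd_mono ω) ω.sup hw20 hdlt (by omega) (by omega)
          (by omega)
        have h7 := NN_c1 m ω.sup (δ - m) (by omega) (by omega)
        have h8 : m + (δ - m) = δ := by omega
        rw [h8] at h7
        rw [hk]
        refine le_trans h1 (le_trans ?_ h7)
        exact mul_le_mul_of_nonneg_left (by linarith) hh0.le
      · push Not at hd2
        have h6 := numF2 m ω.sup δ (by omega) hw20 hd2 (by omega)
        have h7 := NN_pow m ω.sup δ (by omega) (by omega) (by omega)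
        rw [hk]
        refine le_trans h5 (le_trans ?_ h7)
        exact mul_le_mul_of_nonneg_left (by linarith) hh0.le

end Pool.Agent.LRT
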