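import Mathlib
import Pool.Agent.LRT.C5
import Pool.Agent.LRT.F4
import Pool.Agent.LRT.S2

set_option autoImplicit false

namespace Pool.Agent.LRT

open Finset
open Pool.Agent.LRE

/-- `NN r (r L - b)` for `b ≤ 1` is a near rectangle with rows of length `L` -/
theorem NN_one (r L b : ℕ) (hr : 2 ≤ r) (hL : 1 ≤ L) (hb : b ≤ 1) :
    NN r (r * L - b) = psi (Multiset.replicate (r - 1) L + {L - b}) := by
  obtain ⟨q, rfl⟩ : ∃ q, r = q + 1 := ⟨r - 1, by omega⟩
  rw [NN_near (q + 1) L b (by omega) hL, Nat.add_sub_cancel, psi_near L q (L - b) (by omega),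
    hh_symm (q + 1) L, hh_nat_succ]
  have hLr : (0 : ℝ) < L := by exact_mod_cast hL
  have h1 : (q : ℝ) + L + 1 ≠ 0 := by positivity
  have h2 : (L : ℝ) + q + 1 ≠ 0 := by positivity
  rcases Nat.le_one_iff_eq_zero_or_eq_one.1 hb with h | h
  · subst h
    simp only [gq, Nat.sub_zero, Nat.cast_zero]
    field_simp
    ring
  · subst h
    obtain ⟨l, rfl⟩ : ∃ l, L = l + 1 := ⟨L - 1, by omega⟩
    rw [Nat.add_sub_cancel]
    simp only [gq]
    push_cast at h1 h2 ⊢
    have h3 : (q : ℝ) + 1 + 1 - 1 ≠ 0 := by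
      have : (q : ℝ) + 1 + 1 - 1 = q + 1 := by ring
      rw [this]
      positivity
    have h4 : (q : ℝ) + 1 ≠ 0 := by positivity
    have h5 : (q : ℝ) + 1 + 1 - 1 = q + 1 := by ring
    rw [h5]
    field_simp
    ring

/-- family `p = 1` -/
theorem j1_A (r b w : ℝ) (hr : 3 ≤ r) (hb : 2 ≤ b) (hbr : b + 1 ≤ r) (hw : 30 * r ≤ w) :
    (1 + b / (r + 1 - b) / (w - 1)) * (1 + 1 / 2 * r / (w + 1 - r)) ≤
      1 + (r + 1 + (b - 1) / (r + 1 + 1 - (b - 1))) / w := by
  have hd1 : 0 < r + 1 - b := by linarith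
  have hd2 : 0 < r + 1 + 1 - (b - 1) := by linarith
  set x := b / (r + 1 - b) with hx
  set y := (b - 1) / (r + 1 + 1 - (b - 1)) with hy
  have hx0 : 0 < x := by positivity
  have hx1 : x ≤ r / 2 := by
    rw [hx, div_le_iff₀ hd1]
    nlinarith
  have hxy : x ≤ y + r / 4 := by
    have h1 : x * (r + 1 - b) = b := by rw [hx, div_mul_cancel₀ _ hd1.ne']
    have h2 : y * (r + 1 + 1 - (b - 1)) = b - 1 := by rw [hy, div_mul_cancel₀ _ hd2.ne']
    have h3 : (y + r / 4 - x) * ((r + 1 - b) * (r + 3 - b)) =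
        r / 4 * ((r + 1 - b) * (r + 3 - b)) - (b + r + 1) := by
      have e1 : r + 3 - b = r + 1 + 1 - (b - 1) := by ring
      have e2 : (y + r / 4 - x) * ((r + 1 - b) * (r + 3 - b)) =
          (y * (r + 1 + 1 - (b - 1))) * (r + 1 - b) + r / 4 * ((r + 1 - b) * (r + 3 - b)) -
            (x * (r + 1 - b)) * (r + 3 - b) := by
        rw [e1]
        ring
      rw [e2, h1, h2]
      ring
    have h4 : 0 ≤ r / 4 * ((r + 1 - b) * (r + 3 - b)) - (b + r + 1) := by
      have h5 : (r + 1 - b) * (r + 3 - b) ≥ 8 + 6 * (r - 1 - b) := by nlinarith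
      nlinarith
    have h5 : 0 < (r + 1 - b) * (r + 3 - b) := by
      apply mul_pos hd1
      linarith
    by_contra hc
    push Not at hc
    have h6 : (y + r / 4 - x) * ((r + 1 - b) * (r + 3 - b)) < 0 :=
      mul_neg_of_neg_of_pos (by linarith) h5
    linarith
  have hw0 : 0 < w := by linarith
  have hw1 : 0 < w - 1 := by linarith
  have hwr : 0 < w + 1 - r := by linarith
  have h1 : x / (w - 1) ≤ (x + 1 / 50) / w := by
    rw [div_le_div_iff₀ hw1 hw0]
    nlinarith
  have h2 : 1 / 2 * r / (w + 1 - r) ≤ (13 / 25 * r) / w := by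
    rw [div_le_div_iff₀ hwr hw0]
    nlinarith
  have h3 : x / (w - 1) ≤ 9 / 500 := by
    rw [div_le_iff₀ hw1]
    nlinarith
  have h4 : 0 ≤ 1 / 2 * r / (w + 1 - r) := by positivity
  have h5 : 0 ≤ x / (w - 1) := by positivity
  have h6 : (1 + x / (w - 1)) * (1 + 1 / 2 * r / (w + 1 - r)) ≤
      1 + (x + 1 / 50) / w + (13 / 25 * r) / w * (1 + 9 / 500) := by
    have h7 : (1 + x / (w - 1)) * (1 + 1 / 2 * r / (w + 1 - r)) =
        1 + x / (w - 1) + 1 / 2 * r / (w + 1 - r) * (1 + x / (w - 1)) := by ring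
    rw [h7]
    have h8 : 1 / 2 * r / (w + 1 - r) * (1 + x / (w - 1)) ≤
        (13 / 25 * r) / w * (1 + 9 / 500) := by
      apply mul_le_mul h2 (by linarith) (by linarith)
      positivity
    linarith
  refine h6.trans ?_
  have h9 : 1 + (x + 1 / 50) / w + (13 / 25 * r) / w * (1 + 9 / 500) =
      1 + (x + 1 / 50 + 13 / 25 * r * (1 + 9 / 500)) / w := by ring
  rw [h9]
  have h10 : (x + 1 / 50 + 13 / 25 * r * (1 + 9 / 500)) / w ≤ (r + 1 + y) / w := by
    apply div_le_div_of_nonneg_right _ hw0.le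
    linarith
  linarith

/-- families `p ≥ 2` -/
theorem j1_B (m x δ₂ ρ L w : ℝ) (hm : 5 ≤ m) (hx : x ≤ 3 / 2) (hx0 : 0 ≤ x)
    (hδ0 : 0 ≤ δ₂) (hδ : δ₂ ≤ 2 * m - 3) (hρ : m - 2 ≤ ρ) (hρ1 : ρ ≤ m - 1)
    (hL : w - 3 ≤ L) (hw : 30 * (m - 1) ≤ w) :
    (1 + x / L) * (1 + 1 / 2 * δ₂ / (w + 1 - δ₂)) ≤ 1 + (m + ρ / (m + 1 - ρ)) / w := by
  have hw0 : 0 < w := by linarith
  have hL0 : 0 < L := by linarith
  have hg : (m - 2) / 3 ≤ ρ / (m + 1 - ρ) := by
    rw [div_le_div_iff₀ (by norm_num) (by linarith)]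
    nlinarith
  have hwd : 0 < w + 1 - δ₂ := by linarith
  have h1 : x / L ≤ 31 / 20 / w := by
    rw [div_le_div_iff₀ hL0 hw0]
    nlinarith
  have h1' : x / L ≤ 1 / 75 := by
    rw [div_le_iff₀ hL0]
    nlinarith
  have h2 : 1 / 2 * δ₂ / (w + 1 - δ₂) ≤ (1 / 2 * (2 * m - 3) * (15 / 14)) / w := by
    rw [div_le_div_iff₀ hwd hw0]
    have h3 : w * 14 ≤ (w + 1 - δ₂) * 15 := by nlinarith
    nlinarith
  have h3 : 0 ≤ 1 / 2 * δ₂ / (w + 1 - δ₂) := by positivity
  have h4 : 0 ≤ x / L := by positivity
  have h5 : (1 + x / L) * (1 + 1 / 2 * δ₂ / (w + 1 - δ₂)) ≤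
      1 + 31 / 20 / w + (1 / 2 * (2 * m - 3) * (15 / 14)) / w * (1 + 1 / 75) := by
    have h7 : (1 + x / L) * (1 + 1 / 2 * δ₂ / (w + 1 - δ₂)) =
        1 + x / L + 1 / 2 * δ₂ / (w + 1 - δ₂) * (1 + x / L) := by ring
    rw [h7]
    have h8 : 1 / 2 * δ₂ / (w + 1 - δ₂) * (1 + x / L) ≤
        (1 / 2 * (2 * m - 3) * (15 / 14)) / w * (1 + 1 / 75) := by
      apply mul_le_mul h2 (by linarith) (by linarith)
      apply div_nonneg _ hw0.le
      nlinarith
    linarith
  refine h5.trans ?_
  have h9 : 1 + 31 / 20 / w + (1 / 2 * (2 * m - 3) * (15 / 14)) / w * (1 + 1 / 75) =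
      1 + (31 / 20 + 1 / 2 * (2 * m - 3) * (15 / 14) * (1 + 1 / 75)) / w := by ring
  rw [h9]
  have h10 : (31 / 20 + 1 / 2 * (2 * m - 3) * (15 / 14) * (1 + 1 / 75)) / w ≤
      (m + ρ / (m + 1 - ρ)) / w := by
    apply div_le_div_of_nonneg_right _ hw0.le
    linarith
  linarith

/-- The context `ν` (rows `≥ L`, `p` rows, maximum `w`), a tail `τ` with rows `≤ L`,
`|τ| = r L - b`, `b < r`, `w - L ≥ p`, total deficit `δ < 2 m`, and `psi τ ≤ NN r |τ|`. -/
theorem tail_small (m w L b δ r : ℕ) (ν τ : Multiset ℕ) (hm : ν.card + r = m) (hr : 2 ≤ r)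
    (hp : 1 ≤ ν.card) (hw : 30 * (m - 1) ≤ w) (hL : 1 ≤ L) (hν : ∀ x ∈ ν, L ≤ x)
    (hsup : ν.sup = w) (hLw : L + ν.card ≤ w) (hτ : ∀ x ∈ τ, x ≤ L)
    (hK : τ.sum + b = r * L) (hb : b < r) (hδ : (ν + τ).sum + δ = m * w) (hδ2 : δ < 2 * m)
    (h : psi τ ≤ NN r τ.sum) :
    psi (ν + τ) ≤ max (NN m (ν + τ).sum) (NN w (ν + τ).sum) := by
  have hKe : τ.sum = r * L - b := by omega
  have hm3 : 3 ≤ m := by omega
  rw [Multiset.sum_add] at hδ
  by_cases hb1 : b ≤ 1
  · rw [hKe, NN_one r L b hr hL hb1] at h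
    have h1 := dom_near L (r - 1) (L - b) ν τ 1 hL le_rfl (by omega) hν hτ (by rwa [one_mul])
    rw [one_mul] at h1
    set ω := ν + (Multiset.replicate (r - 1) L + {L - b}) with hω
    have hsum : ω.sum = (ν + τ).sum := by
      rw [hω, Multiset.sum_add, Multiset.sum_add, Multiset.sum_add, Multiset.sum_replicate,
        Multiset.sum_singleton, hKe, smul_eq_mul]
      obtain ⟨q, rfl⟩ : ∃ q, r = q + 1 := ⟨r - 1, by omega⟩
      rw [Nat.add_sub_cancel, Nat.succ_mul]
      omega
    have hωs : ω.sup = w := by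
      apply le_antisymm
      · rw [Multiset.sup_le]
        intro x hx
        rcases Multiset.mem_add.1 hx with h2 | h2
        · rw [← hsup]
          exact Multiset.le_sup h2
        · rcases Multiset.mem_add.1 h2 with h3 | h3
          · rw [Multiset.eq_of_mem_replicate h3]
            omega
          · rw [Multiset.mem_singleton.1 h3]
            omega
      · rw [← hsup, hω, Multiset.sup_add]
        exact le_sup_left
    have hωc : ω.card = m := by
      rw [hω, Multiset.card_add, Multiset.card_add, Multiset.card_replicate,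
        Multiset.card_singleton]
      omega
    have h2 := exact_m m δ ω (by omega) hωc
      (by rw [hsum, hωs, Multiset.sum_add]; exact hδ) (by rw [hωs]; omega)
      (by rw [hωs]; omega)
    rw [hωs, hsum] at h2
    exact h1.trans h2
  · push Not at hb1
    have hLr : (0 : ℝ) < L := by exact_mod_cast hL
    have hkap : 0 ≤ gq r b / (L : ℝ) := div_nonneg (gq_nonneg hb.le) hLr.le
    have h0 : psi τ ≤ (1 + gq r b / L) * psi (Multiset.replicate r L) := by
      rw [psi_rect, ← hh_symm r L, mul_comm, ← NN_near r L b hb hL, ← hKe]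
      exact h
    have h1 := dom L r ν τ (1 + gq r b / L) hL (by linarith) hν hτ h0
    set ω := ν + Multiset.replicate r L with hω
    have hωc : ω.card = m := by
      rw [hω, Multiset.card_add, Multiset.card_replicate]
      omega
    have hωw : ∀ x ∈ ω, x ≤ w := by
      intro x hx
      rcases Multiset.mem_add.1 hx with h2 | h2
      · rw [← hsup]
        exact Multiset.le_sup h2
      · rw [Multiset.eq_of_mem_replicate h2]
        omega
    have hωs : ω.sup = w := by
      apply le_antisymm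
      · rw [Multiset.sup_le]
        exact hωw
      · rw [← hsup, hω, Multiset.sup_add]
        exact le_sup_left
    have hne : ω ≠ 0 := by
      rintro h2
      rw [h2, Multiset.card_zero] at hωc
      omega
    have h2 := PB ω w hωw
    rw [hωc] at h2
    have h3 := SD_dd ω w hωw
    have hωsum : ω.sum = ν.sum + r * L := by
      rw [hω, Multiset.sum_add, Multiset.sum_replicate, smul_eq_mul]
    have hνs : ν.sum ≤ ν.card * w := s2_sum_le ν w (fun x hx => by
      rw [← hsup]
      exact Multiset.le_sup hx)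
    -- the families
    obtain ⟨e, he⟩ : ∃ e, w = L + e := ⟨w - L, by omega⟩
    have hmw : m * w = ν.card * w + (r * L + r * e) := by
      rw [← hm, he]
      ring
    have hre : r * e + b ≤ δ := by omega
    have hSD : SD (dd ω) w + b = δ := by
      rw [hωc] at h3
      omega
    have hpe : ν.card ≤ e := by omega
    have hmδ : m + 1 ≤ δ := by
      have h4 : r * ν.card ≤ r * e := Nat.mul_le_mul_left r hpe
      obtain ⟨p', hp'⟩ : ∃ p', ν.card = p' + 1 := ⟨ν.card - 1, by omega⟩
      obtain ⟨r', hr'⟩ : ∃ r', r = r' + 1 := ⟨r - 1, by omega⟩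
      have h5 : r * ν.card = r' * p' + r' + p' + 1 := by
        rw [hp', hr']
        ring
      omega
    obtain ⟨ρ, hρ⟩ : ∃ ρ, δ = m + ρ := ⟨δ - m, by omega⟩
    have h5 := NN_c1 m w ρ (by omega) (by omega)
    have hk : (ν + τ).sum = m * w - (m + ρ) := by
      rw [Multiset.sum_add]
      omega
    refine le_max_of_le_left ?_
    rw [hk]
    refine le_trans ?_ h5
    refine h1.trans ?_
    have hh0 : 0 < hh w (m : ℝ) := hh_pos _ (Nat.cast_nonneg _)
    have hdq : ∀ p, p < w → dd ω (p + 1) + 1 ≤ m := by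
      intro p hp
      have := dd_lt ω hne (p + 1) (by omega)
      omega
    have hSDw : SD (dd ω) w ≤ w := by omega
    have h6 := Ph_le m (dd ω) (dd_mono ω) w (fun p hp => by have := hdq p hp; omega) hSDw
    have h7 := f1_sum m (dd ω) w (1 / 2) (fun p hp => f1_half m _ (hdq p hp))
    have hSDr : (SD (dd ω) w : ℝ) ≤ w := by exact_mod_cast hSDw
    have h8 : Ph m (dd ω) w ≤ 1 / 2 * (SD (dd ω) w : ℝ) / ((w : ℝ) + 1 - SD (dd ω) w) := by
      refine h6.trans ?_
      apply div_le_div_of_nonneg_right h7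
      linarith
    have hfin : (1 + gq r b / L) * (1 + 1 / 2 * (SD (dd ω) w : ℝ) / ((w : ℝ) + 1 - SD (dd ω) w)) ≤
        1 + ((m : ℝ) + gq m ρ) / w := by
      have hbr : (b : ℝ) + 1 ≤ r := by exact_mod_cast hb
      have hb2 : (2 : ℝ) ≤ b := by exact_mod_cast hb1
      by_cases hp1 : ν.card = 1
      · -- family A
        have he1 : e = 1 := by
          have h9 : r * e < r * 2 := by omega
          have h10 := Nat.lt_of_mul_lt_mul_left h9
          omega
        obtain ⟨x, hx⟩ := Multiset.card_eq_one.1 hp1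
        have hxw : x = w := by
          rw [← hsup, hx, Multiset.sup_singleton]
        have hνsum : ν.sum = w := by rw [hx, Multiset.sum_singleton, hxw]
        have hmr : m = r + 1 := by omega
        have hδe : δ = r + b := by
          rw [hp1, he1] at hmw
          omega
        have hρe : ρ + 1 = b := by omega
        have hSDe : SD (dd ω) w = r := by omega
        have hr3 : (3 : ℝ) ≤ r := by linarith
        have hLe : (L : ℝ) = (w : ℝ) - 1 := by
          rw [he, he1]
          push_cast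
          ring
        have hwr : 30 * (r : ℝ) ≤ w := by
          have : 30 * r ≤ w := by
            rw [hmr] at hw
            simpa using hw
          exact_mod_cast this
        have h9 := j1_A r b w hr3 hb2 hbr hwr
        rw [hSDe, hLe]
        have hρr : (ρ : ℝ) = b - 1 := by
          have : ((ρ + 1 : ℕ) : ℝ) = b := by exact_mod_cast hρe
          push_cast at this
          linarith
        have hmr' : (m : ℝ) = r + 1 := by rw [hmr]; push_cast; ring
        unfold gq
        rw [hρr, hmr']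
        exact h9
      · -- families B, C
        have hr3 : 3 ≤ r := by omega
        have hcase : (ν.card = 2 ∧ e = 2 ∧ b ≤ 3) ∨ (ν.card = 3 ∧ r = 3 ∧ e = 3 ∧ b = 2) := by
          have hp2 : 2 ≤ ν.card := by omega
          rcases Nat.lt_or_ge ν.card 3 with h9 | h9
          · left
            have hp2' : ν.card = 2 := by omega
            have he2 : e = 2 := by
              by_contra hc
              have h10 : 3 ≤ e := by omega
              have h11 : r * 3 ≤ r * e := Nat.mul_le_mul_left r h10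
              omega
            subst he2
            refine ⟨hp2', rfl, by omega⟩
          · right
            have hc1 : r = 3 ∧ ν.card = 3 := by
              obtain ⟨r', hr'⟩ : ∃ r', r = r' + 2 := ⟨r - 2, by omega⟩
              obtain ⟨p', hp'⟩ : ∃ p', ν.card = p' + 2 := ⟨ν.card - 2, by omega⟩
              have h10 : r * ν.card ≤ r * e := Nat.mul_le_mul_left r hpe
              have h11 : r * ν.card = r' * p' + 2 * r' + 2 * p' + 4 := by
                rw [hr', hp']
                ring
              have h12 : r' * p' ≤ 1 := by omega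
              have h13 : r' = 1 ∧ p' = 1 := by
                have h14 : r' * p' = 1 := by
                  have : 0 < r' * p' := Nat.mul_pos (by omega) (by omega)
                  omega
                exact ⟨Nat.eq_one_of_mul_eq_one_right h14, Nat.eq_one_of_mul_eq_one_left h14⟩
              omega
            obtain ⟨hc2, hc3⟩ := hc1
            rw [hc2] at hre
            refine ⟨hc3, hc2, by omega, by omega⟩
        have hm5 : (5 : ℝ) ≤ m := by
          have : 5 ≤ m := by omega
          exact_mod_cast this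
        have he3 : e ≤ 3 := by omega
        have hx : gq r b ≤ 3 / 2 := by
          unfold gq
          have h9 : (0 : ℝ) < (r : ℝ) + 1 - b := by linarith
          have hb3 : (b : ℝ) ≤ 3 := by
            have : b ≤ 3 := by omega
            exact_mod_cast this
          rw [div_le_iff₀ h9]
          linarith
        have hρ1 : (m : ℝ) - 2 ≤ ρ := by
          have h9 : m ≤ ρ + 2 := by
            rcases hcase with ⟨h10, h11, h12⟩ | ⟨h10, h11, h12, h13⟩
            · subst h11
              omega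
            · rw [h11, h12] at hre
              omega
          have : (m : ℝ) ≤ ((ρ + 2 : ℕ) : ℝ) := by exact_mod_cast h9
          push_cast at this
          linarith
        have hρ2 : (ρ : ℝ) ≤ m - 1 := by
          have h9 : ρ + 1 ≤ m := by omega
          have : ((ρ + 1 : ℕ) : ℝ) ≤ m := by exact_mod_cast h9
          push_cast at this
          linarith
        have hδ2r : (SD (dd ω) w : ℝ) ≤ 2 * m - 3 := by
          have h9 : SD (dd ω) w + 3 ≤ 2 * m := by omega
          have : ((SD (dd ω) w + 3 : ℕ) : ℝ) ≤ ((2 * m : ℕ) : ℝ) := by exact_mod_cast h9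
          push_cast at this
          linarith
        have hLw' : (w : ℝ) - 3 ≤ L := by
          have h9 : w ≤ L + 3 := by omega
          have : (w : ℝ) ≤ ((L + 3 : ℕ) : ℝ) := by exact_mod_cast h9
          push_cast at this
          linarith
        have hwm : 30 * ((m : ℝ) - 1) ≤ w := by
          obtain ⟨m', hm'⟩ : ∃ m', m = m' + 1 := ⟨m - 1, by omega⟩
          rw [hm', Nat.add_sub_cancel] at hw
          rw [hm']
          push_cast
          have : ((30 * m' : ℕ) : ℝ) ≤ w := by exact_mod_cast hw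
          push_cast at this
          linarith
        exact j1_B m (gq r b) (SD (dd ω) w) ρ L w hm5 hx (gq_nonneg hb.le) (Nat.cast_nonneg _)
          hδ2r hρ1 hρ2 hLw' hwm
    have hpos1 : 0 ≤ 1 + gq r b / (L : ℝ) := by linarith
    calc (1 + gq r b / L) * psi ω ≤ (1 + gq r b / L) * (hh w m * (1 + Ph m (dd ω) w)) :=
          mul_le_mul_of_nonneg_left h2 hpos1
      _ ≤ (1 + gq r b / L) * (hh w m *
            (1 + 1 / 2 * (SD (dd ω) w : ℝ) / ((w : ℝ) + 1 - SD (dd ω) w))) := by
          apply mul_le_mul_of_nonneg_left _ hpos1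
          apply mul_le_mul_of_nonneg_left _ hh0.le
          linarith
      _ = hh w m * ((1 + gq r b / L) *
            (1 + 1 / 2 * (SD (dd ω) w : ℝ) / ((w : ℝ) + 1 - SD (dd ω) w))) := by ring
      _ ≤ hh w m * (1 + ((m : ℝ) + gq m ρ) / w) := mul_le_mul_of_nonneg_left hfin hh0.le

end Pool.Agent.LRT
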