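import Mathlib
import Pool.Agent.LRT.Defs

set_option autoImplicit false

namespace Pool.Agent.LRT

open Finset
open Pool.Agent.LRE

/-- Splitting at the first `stage`. Induction on `q`. Let `x = s.sup ∈ s` (`a2_sup_mem`),
`s' = s.erase x`, so `s'.sum = s.sum - x ≤ (q-1) x`, `s'.card ≥ q`.
`q = 1`: `s.sum ≤ x`, but `s` has at least two positive rows: contradiction.
`q ≥ 2`, `r = q-1`. If `r * s'.sup < s'.sum`: take `ν = {x}`, `τ = s'`, `L = ⌈s'.sum / r⌉`
(`= (s'.sum + r - 1)/r`), then `r (L-1) < s'.sum ≤ r L`, `L ≤ x` because `s'.sum ≤ r x`, and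
`s'.sup < L` because `r * s'.sup < s'.sum`.
Otherwise `s'.sum ≤ (q-1) * s'.sup` and `(q-1)+1 ≤ s'.card`: apply the induction hypothesis to `s'`
and add `x` to `ν` (`L ≤ ν'.sup = s'.sup ≤ x`, where `ν' ≠ 0`).
`2 ≤ L` because `τ ≠ 0` (its sum is positive), its rows are `≥ 1` and `< L`. -/
theorem stage (q : ℕ) (s : Multiset ℕ) (hq : 1 ≤ q) (hpos : ∀ x ∈ s, 0 < x)
    (hcard : q + 1 ≤ s.card) (hsum : s.sum ≤ q * s.sup) :
    ∃ (ν τ : Multiset ℕ) (r L : ℕ), s = ν + τ ∧ ν.card + r = q ∧ 1 ≤ r ∧ ν ≠ 0 ∧
      ν.sup = s.sup ∧ (∀ x ∈ ν, L ≤ x) ∧ (∀ x ∈ τ, x < L) ∧ r * (L - 1) < τ.sum ∧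
      τ.sum ≤ r * L ∧ 2 ≤ L := by
  induction q, hq using Nat.le_induction generalizing s with
  | base =>
    exfalso
    have hs0 : s ≠ 0 := by
      rintro rfl
      simp at hcard
    have hx := a2_sup_mem s hs0
    have h1 := Multiset.sum_erase hx
    have h2 : 0 < (s.erase s.sup).card := by
      rw [Multiset.card_erase_of_mem hx]
      have : (s.card).pred = s.card - 1 := rfl
      omega
    obtain ⟨y, hy⟩ := Multiset.card_pos_iff_exists_mem.1 h2
    have h3 := hpos y (Multiset.mem_of_mem_erase hy)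
    have h4 := a4_le_sum hy
    omega
  | succ r hr ih =>
    have hs0 : s ≠ 0 := by
      rintro rfl
      simp at hcard
    have hx := a2_sup_mem s hs0
    set x := s.sup with hxdef
    set s' := s.erase x with hs'
    have hcons : x ::ₘ s' = s := Multiset.cons_erase hx
    have h1 : x + s'.sum = s.sum := Multiset.sum_erase hx
    have h2 : s'.sum ≤ r * x := by
      rw [Nat.add_mul, one_mul] at hsum
      omega
    have h3 : r + 1 ≤ s'.card := by
      rw [hs', Multiset.card_erase_of_mem hx]
      have : (s.card).pred = s.card - 1 := rfl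
      omega
    have hpos' : ∀ y ∈ s', 0 < y := fun y hy => hpos y (Multiset.mem_of_mem_erase hy)
    have hle' : ∀ y ∈ s', y ≤ x := fun y hy => Multiset.le_sup (Multiset.mem_of_mem_erase hy)
    rcases Nat.lt_or_ge (r * s'.sup) s'.sum with h4 | h4
    · obtain ⟨L, hL1, hL2⟩ : ∃ L, r * (L - 1) < s'.sum ∧ s'.sum ≤ r * L := by
        refine ⟨(s'.sum + r - 1) / r, ?_, ?_⟩
        · have h5 := Nat.mul_div_le (s'.sum + r - 1) r
          rw [Nat.mul_sub, mul_one]
          omega
        · have h5 := Nat.lt_mul_div_succ (s'.sum + r - 1) (by omega : 0 < r)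
          rw [Nat.mul_add, mul_one] at h5
          omega
      have hsL : s'.sup < L := by
        have h5 : r * s'.sup < r * L := lt_of_lt_of_le h4 hL2
        exact Nat.lt_of_mul_lt_mul_left h5
      have hLx : L ≤ x := by
        have h5 : r * (L - 1) < r * x := lt_of_lt_of_le hL1 h2
        have h6 := Nat.lt_of_mul_lt_mul_left h5
        omega
      have hne : 0 < s'.card := by omega
      obtain ⟨y, hy⟩ := Multiset.card_pos_iff_exists_mem.1 hne
      have h5 := hpos' y hy
      have h6 : y ≤ s'.sup := Multiset.le_sup hy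
      refine ⟨{x}, s', r, L, ?_, ?_, hr, Multiset.singleton_ne_zero x, Multiset.sup_singleton,
        ?_, ?_, hL1, hL2, by omega⟩
      · rw [Multiset.singleton_add, hcons]
      · rw [Multiset.card_singleton, add_comm]
      · intro z hz
        rw [Multiset.mem_singleton.1 hz]
        exact hLx
      · intro z hz
        exact lt_of_le_of_lt (Multiset.le_sup hz) hsL
    · obtain ⟨ν, τ, r', L, e1, e2, e3, e4, e5, e6, e7, e8, e9, e10⟩ := ih s' hpos' h3 h4
      refine ⟨x ::ₘ ν, τ, r', L, ?_, ?_, e3, Multiset.cons_ne_zero, ?_, ?_, e7, e8, e9, e10⟩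
      · rw [Multiset.cons_add, ← e1, hcons]
      · rw [Multiset.card_cons]
        omega
      · rw [Multiset.sup_cons]
        apply sup_eq_left.2
        rw [Multiset.sup_le]
        intro y hy
        apply hle'
        rw [e1]
        exact Multiset.mem_add.2 (Or.inl hy)
      · intro y hy
        rcases Multiset.mem_cons.1 hy with h5 | h5
        · rw [h5]
          obtain ⟨z, hz⟩ := Multiset.exists_mem_of_ne_zero e4
          have h6 : z ∈ s' := by
            rw [e1]
            exact Multiset.mem_add.2 (Or.inl hz)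
          exact (e6 z hz).trans (hle' z h6)
        · exact e6 y h5

end Pool.Agent.LRT
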