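import Mathlib
import Pool.Agent.LRT.G1
import Pool.Agent.LRT.C4

set_option autoImplicit false

namespace Pool.Agent.LRT

open Finset
open Pool.Agent.LRE

theorem g2_dec (b x y : ℕ) (hxy : x ≤ y) (ρ : Multiset ℕ) :
    psi (ρ + Multiset.replicate b y) ≤ psi (ρ + Multiset.replicate b x) := by
  induction b generalizing ρ with
  | zero => simp
  | succ b ih =>
    rw [Multiset.replicate_succ, Multiset.replicate_succ, Multiset.add_cons, Multiset.add_cons]
    refine (psi_cons_le hxy _).trans ?_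
    rw [← Multiset.cons_add, ← Multiset.cons_add]
    exact ih _

/-- Take `ν, τ, r, L` from `stage`, `b = r L - τ.sum` (so `b < r` because `r (L-1) < τ.sum`), and
`ω = ν + replicate b (L-1) + replicate (r-b) L`: `card = q`, all rows positive (`L ≥ 2`),
`sup = ν.sup = s.sup` (all other rows are `≤ L ≤` any element of `ν ≠ 0`), `sum = ν.sum + r L - b
= s.sum`. `dom` (with `H`) gives `psi s ≤ κ psi (ν + L^r)`, and `psi (ν + L^r) ≤ psi ω`
(`psi_cons_le` or `psi_mono`: rows decrease). -/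
theorem stage_dom (q : ℕ) (s : Multiset ℕ) (κ : ℝ) (hq : 1 ≤ q) (hκ : 1 ≤ κ)
    (hpos : ∀ x ∈ s, 0 < x) (hcard : q + 1 ≤ s.card) (hsum : s.sum ≤ q * s.sup)
    (H : ∀ (ν τ : Multiset ℕ) (r L : ℕ), s = ν + τ → ν.card + r = q → 1 ≤ r → ν ≠ 0 →
      (∀ x ∈ ν, L ≤ x) → (∀ x ∈ τ, x < L) → r * (L - 1) < τ.sum → τ.sum ≤ r * L → 2 ≤ L →
      psi τ ≤ κ * psi (Multiset.replicate r L)) :
    ∃ ω : Multiset ℕ, ω.card = q ∧ (∀ x ∈ ω, 0 < x) ∧ ω.sup = s.sup ∧ ω.sum = s.sum ∧
      psi s ≤ κ * psi ω := by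
  obtain ⟨ν, τ, r, L, e1, e2, e3, e4, e5, e6, e7, e8, e9, e10⟩ := stage q s hq hpos hcard hsum
  have hH := H ν τ r L e1 e2 e3 e4 e6 e7 e8 e9 e10
  obtain ⟨M, rfl⟩ : ∃ M, L = M + 1 := ⟨L - 1, by omega⟩
  rw [Nat.add_sub_cancel] at e8
  obtain ⟨b, hb⟩ : ∃ b, r * (M + 1) = τ.sum + b := Nat.exists_eq_add_of_le e9
  have hbr : b < r := by
    rw [Nat.mul_add, mul_one] at hb
    omega
  obtain ⟨c, hc⟩ := Nat.exists_eq_add_of_le hbr.le
  refine ⟨ν + Multiset.replicate c (M + 1) + Multiset.replicate b M, ?_, ?_, ?_, ?_, ?_⟩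
  · rw [Multiset.card_add, Multiset.card_add, Multiset.card_replicate, Multiset.card_replicate]
    omega
  · intro x hx
    rcases Multiset.mem_add.1 hx with hx | hx
    · rcases Multiset.mem_add.1 hx with hx | hx
      · apply hpos
        rw [e1]
        exact Multiset.mem_add.2 (Or.inl hx)
      · rw [Multiset.eq_of_mem_replicate hx]
        omega
    · rw [Multiset.eq_of_mem_replicate hx]
      omega
  · obtain ⟨z, hz⟩ := Multiset.exists_mem_of_ne_zero e4
    have hz1 := e6 z hz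
    have hz2 : z ≤ ν.sup := Multiset.le_sup hz
    rw [← e5, Multiset.sup_add, Multiset.sup_add]
    have h1 : (Multiset.replicate c (M + 1)).sup ≤ ν.sup := by
      rw [Multiset.sup_le]
      intro x hx
      rw [Multiset.eq_of_mem_replicate hx]
      omega
    have h2 : (Multiset.replicate b M).sup ≤ ν.sup := by
      rw [Multiset.sup_le]
      intro x hx
      rw [Multiset.eq_of_mem_replicate hx]
      omega
    rw [sup_eq_left.2 h1, sup_eq_left.2 h2]
  · rw [Multiset.sum_add, Multiset.sum_add, Multiset.sum_replicate, Multiset.sum_replicate, e1,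
      Multiset.sum_add, smul_eq_mul, smul_eq_mul]
    have h1 : c * (M + 1) + b * M = τ.sum := by
      have h2 : (b + c) * (M + 1) = τ.sum + b := by rw [← hc, hb]
      rw [Nat.add_mul, Nat.mul_add b M 1, mul_one] at h2
      omega
    omega
  · have h1 := dom (M + 1) r ν τ κ (by omega) hκ e6 (fun x hx => (e7 x hx).le) hH
    rw [e1]
    refine h1.trans (mul_le_mul_of_nonneg_left ?_ (by linarith))
    have h2 : Multiset.replicate r (M + 1) =
        Multiset.replicate c (M + 1) + Multiset.replicate b (M + 1) := by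
      rw [← Multiset.replicate_add, add_comm c b, ← hc]
    rw [h2, ← add_assoc]
    exact g2_dec b M (M + 1) (by omega) _

end Pool.Agent.LRT
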