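import Mathlib
import Pool.Agent.LRT.T1
import Pool.Agent.LRT.G2
import Pool.Agent.LRT.E7

set_option autoImplicit false

namespace Pool.Agent.LRT

open Finset
open Pool.Agent.LRE

/-- `hh h (r+1) = hh (h+1) r (r+1)/(h+1)` -/
theorem hh_swap (h r : ℕ) :
    hh h ((r + 1 : ℕ) : ℝ) = hh (h + 1) (r : ℝ) * (((r : ℝ) + 1) / ((h : ℝ) + 1)) := by
  rw [hh_nat_succ, hh_succ]
  have h1 : (r : ℝ) + h + 1 ≠ 0 := by positivity
  have h2 : (r : ℝ) + ((h : ℝ) + 1) ≠ 0 := by positivity
  have h3 : (h : ℝ) + 1 ≠ 0 := by positivity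
  field_simp
  ring

/-- the final numerical inequality, case B -/
theorem num_B (r h : ℝ) (hr : 3 ≤ r) (h37 : 37 * (r + 1) ≤ 5 * (h + r)) :
    (1 + (r + 2) / h) * (1 + (h - 1) / (2 * (r + 1))) * ((r + 1) / (h + 1)) ≤ 1 := by
  have h0 : 0 < h := by nlinarith
  have h1 : 0 < r + 1 := by linarith
  have h2 : 0 < h + 1 := by linarith
  have e : (1 + (r + 2) / h) * (1 + (h - 1) / (2 * (r + 1))) * ((r + 1) / (h + 1)) =
      ((h + r + 2) * (h + 2 * r + 1)) / (2 * h * (h + 1)) := by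
    field_simp
    ring
  rw [e, div_le_one (by positivity)]
  nlinarith

/-- the final numerical inequality, case `bet` -/
theorem num_bet (r h : ℝ) (hr : 3 ≤ r) (h37 : 37 * (r + 1) ≤ 5 * (h + r)) :
    (1 + (r + 2) / h) * (1 + 19 / 12) * ((r + 1) / (h + 1)) ≤ 1 := by
  have h0 : 0 < h := by nlinarith
  have h1 : 0 < r + 1 := by linarith
  have h2 : 0 < h + 1 := by linarith
  have e : (1 + (r + 2) / h) * (1 + 19 / 12) * ((r + 1) / (h + 1)) =
      (31 * (h + r + 2) * (r + 1)) / (12 * h * (h + 1)) := by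
    field_simp
    ring
  rw [e, div_le_one (by positivity)]
  nlinarith

theorem sum_le_card_mul (ν : Multiset ℕ) (h : ℕ) (hle : ∀ x ∈ ν, x ≤ h) :
    ν.sum ≤ ν.card * h := by
  have := Multiset.sum_le_card_nsmul ν h hle
  simpa using this

/-- the wide case: rows `≤ h`, `r h < |τ|`, not too many rows: `psi τ ≤ psi ((h+1)^r)` -/
theorem tl3 (r h : ℕ) (τ : Multiset ℕ) (hr : 3 ≤ r) (hpos : ∀ x ∈ τ, 0 < x)
    (hle : ∀ x ∈ τ, x ≤ h) (hsum : r * h + 1 ≤ τ.sum) (h37 : 37 * (r + 1) ≤ 5 * (h + r))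
    (hcard : τ.card + 1 ≤ h)
    (hC : ∀ r', 2 ≤ r' → r' ≤ r →
      r' * (τ.card + r') + (r + 1) * h < τ.sum + r' * (r + 1) + r' * h) :
    psi τ ≤ hh (h + 1) (r : ℝ) := by
  have hsup : τ.sup ≤ h := Multiset.sup_le.mpr hle
  by_cases hw : τ.sup < h
  · obtain ⟨g, rfl⟩ : ∃ g, h = g + 1 := ⟨h - 1, by omega⟩
    exact tl_narrow g r τ (by omega) h37 (by omega) (by omega) (by omega)
  have hw' : τ.sup = h := by omega
  have hh0 : (0 : ℝ) < h := by
    have : 0 < h := by omega
    exact_mod_cast this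
  have hswap := hh_swap h r
  have hpos1 : 0 < hh (h + 1) (r : ℝ) := hh_pos _ (Nat.cast_nonneg _)
  have hrh : (r : ℝ) + 1 ≤ (h : ℝ) + 1 := by
    have : r ≤ h := by omega
    have : (r : ℝ) ≤ h := by exact_mod_cast this
    linarith
  by_cases hbig : (r + 1) * h ≤ τ.sum
  · -- too many cells
    refine (sb τ h (by omega) (by omega) hsup).trans ?_
    have h1 : hh h ((τ.sum : ℝ) / h) ≤ hh h ((r + 1 : ℕ) : ℝ) := by
      apply hh_anti h (Nat.cast_nonneg _)
      rw [le_div_iff₀ hh0]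
      have h3 : (((r + 1) * h : ℕ) : ℝ) ≤ ((τ.sum : ℕ) : ℝ) := Nat.cast_le.mpr hbig
      rw [Nat.cast_mul] at h3
      exact h3
    refine h1.trans ?_
    rw [hswap]
    have h4 : ((r : ℝ) + 1) / ((h : ℝ) + 1) ≤ 1 := by
      rw [div_le_one (by positivity)]
      exact hrh
    nlinarith
  push Not at hbig
  -- the exact shape
  obtain ⟨δ, hδ⟩ : ∃ δ, τ.sum + δ = (r + 1) * h := ⟨(r + 1) * h - τ.sum, by omega⟩
  have hmul : (r + 1) * h = r * h + h := by ring
  have hδ1 : δ + 1 ≤ h := by omega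
  set κ : ℝ := 1 + ((r : ℝ) + 2) / h with hκ
  have hκ1 : 1 ≤ κ := by
    rw [hκ]
    have : 0 ≤ ((r : ℝ) + 2) / h := by positivity
    linarith
  have hexact : ∃ ω : Multiset ℕ, ω.card = r + 1 ∧ (∀ x ∈ ω, 0 < x) ∧ ω.sup = τ.sup ∧
      ω.sum = τ.sum ∧ psi τ ≤ κ * psi ω := by
    have hc1 : r + 1 ≤ τ.card := by
      by_contra hcon
      have h1 := sum_le_card_mul τ h hle
      have h2 : τ.card * h ≤ r * h := Nat.mul_le_mul_right _ (by omega)
      omega
    by_cases hc2 : τ.card = r + 1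
    · refine ⟨τ, hc2, hpos, rfl, rfl, ?_⟩
      have := psi_pos τ
      nlinarith
    · refine stage_dom (r + 1) τ κ (by omega) hκ1 hpos (by omega) (by rw [hw']; omega) ?_
      intro ν τ' r' L hs hcr hr1 hν hLν hLτ hs1 hs2 hL2
      rw [psi_rect]
      have hL0 : (0 : ℝ) < L := by
        have : 0 < L := by omega
        exact_mod_cast this
      have hhL : 0 < hh L (r' : ℝ) := hh_pos _ (Nat.cast_nonneg _)
      rcases Nat.lt_or_ge r' 2 with hr2 | hr2
      · have hr' : r' = 1 := by omega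
        subst hr'
        have h1 := tl1 (L - 1) τ' (by omega)
        have h2 : L - 1 + 1 = L := by omega
        rw [h2] at h1
        push_cast
        push_cast at hhL
        nlinarith
      · have hνc : 1 ≤ ν.card := Multiset.card_pos.mpr hν
        have hr'r : r' ≤ r := by omega
        have hτc : τ.card = ν.card + τ'.card := by rw [hs, Multiset.card_add]
        have hτs : τ.sum = ν.sum + τ'.sum := by rw [hs, Multiset.sum_add]
        have hνs : ν.sum ≤ ν.card * h :=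
          sum_le_card_mul ν h (fun x hx => hle x (by rw [hs]; exact Multiset.mem_add.mpr (Or.inl hx)))
        have hC' := hC r' hr2 hr'r
        -- lower bound for the number of cells of `τ'`
        have hνc' : ν.card = r + 1 - r' := by omega
        obtain ⟨a, ha⟩ : ∃ a, r + 1 = r' + a := ⟨r + 1 - r', by omega⟩
        have hνa : ν.card = a := by omega
        have hcell : r' * h + a * h = (r + 1) * h := by rw [ha]; ring
        have hτ'low : (r + 1) * h ≤ τ'.sum + a * h + h - 1 := by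
          rw [hνa] at hνs
          omega
        have hcardL : τ'.card < L := by
          by_contra hcon
          push Not at hcon
          have h1 : r' * L ≤ r' * τ'.card := Nat.mul_le_mul_left _ hcon
          have h2 : r' * (τ.card + r') = r' * τ'.card + r' * a + r' * r' := by
            rw [hτc, hνa]; ring
          have h3 : r' * (r + 1) = r' * r' + r' * a := by rw [ha]; ring
          rw [hνa] at hνs
          omega
        have h1 := sb τ' (L - 1) (by omega) (by omega)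
          (Multiset.sup_le.mpr (fun x hx => by have := hLτ x hx; omega))
        have hL1 : (0 : ℝ) < ((L - 1 : ℕ) : ℝ) := by
          have : 0 < L - 1 := by omega
          exact_mod_cast this
        have h2 : hh (L - 1) ((τ'.sum : ℝ) / ((L - 1 : ℕ) : ℝ)) ≤ hh (L - 1) (r' : ℝ) := by
          apply hh_anti (L - 1) (Nat.cast_nonneg _)
          rw [le_div_iff₀ hL1]
          have h3 : ((r' * (L - 1) : ℕ) : ℝ) ≤ ((τ'.sum : ℕ) : ℝ) := Nat.cast_le.mpr hs1.le
          rw [Nat.cast_mul] at h3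
          exact h3
        have h3 : hh (L - 1) (r' : ℝ) = hh L (r' : ℝ) * (1 + (r' : ℝ) / L) := by
          obtain ⟨l, rfl⟩ : ∃ l, L = l + 1 := ⟨L - 1, by omega⟩
          rw [Nat.add_sub_cancel, hh_succ]
          push_cast
          have h4 : (r' : ℝ) + ((l : ℝ) + 1) ≠ 0 := by positivity
          have h5 : (l : ℝ) + 1 ≠ 0 := by positivity
          field_simp
          ring
        have h4 : (r' : ℝ) / L ≤ ((r : ℝ) + 2) / h := by
          rw [div_le_div_iff₀ hL0 hh0]
          -- r' h ≤ (r+2) L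
          have h5 : (r' - 1) * h + 1 ≤ r' * L := by
            have h6 : (r' - 1) * h + h = r' * h := by
              obtain ⟨b, rfl⟩ : ∃ b, r' = b + 1 := ⟨r' - 1, by omega⟩
              rw [Nat.add_sub_cancel]; ring
            omega
          have h6 : ((r' : ℝ) - 1) * h + 1 ≤ (r' : ℝ) * L := by
            have h7 : (((r' - 1) * h + 1 : ℕ) : ℝ) ≤ ((r' * L : ℕ) : ℝ) := Nat.cast_le.mpr h5
            push_cast [Nat.cast_sub (by omega : 1 ≤ r')] at h7
            exact h7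
          have hr2' : (2 : ℝ) ≤ r' := by exact_mod_cast hr2
          have hr3' : (r' : ℝ) ≤ r := by exact_mod_cast hr'r
          have h8 : (r' : ℝ) * ((r' : ℝ) * h) ≤ (r' : ℝ) * (((r' : ℝ) + 2) * L) := by
            have h9 : ((r' : ℝ) + 2) * (((r' : ℝ) - 1) * h + 1) ≤ ((r' : ℝ) + 2) * ((r' : ℝ) * L) :=
              mul_le_mul_of_nonneg_left h6 (by linarith)
            have h10 : 0 ≤ ((r' : ℝ) - 2) * h := mul_nonneg (by linarith) hh0.le
            nlinarith
          have h9 : (r' : ℝ) * h ≤ ((r' : ℝ) + 2) * L :=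
            le_of_mul_le_mul_left h8 (by linarith)
          have h10 : ((r' : ℝ) + 2) * L ≤ ((r : ℝ) + 2) * L :=
            mul_le_mul_of_nonneg_right (by linarith) hL0.le
          linarith
        calc psi τ' ≤ hh (L - 1) (r' : ℝ) := h1.trans h2
          _ = hh L (r' : ℝ) * (1 + (r' : ℝ) / L) := h3
          _ ≤ hh L (r' : ℝ) * κ := mul_le_mul_of_nonneg_left (by rw [hκ]; linarith) hhL.le
          _ = κ * hh L (r' : ℝ) := mul_comm _ _
  obtain ⟨ω, hω1, hω2, hω3, hω4, hω5⟩ := hexact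
  refine hω5.trans ?_
  rw [hw'] at hω3
  have hδR : ((δ : ℕ) : ℝ) + 1 ≤ h := by exact_mod_cast hδ1
  have hrR : (3 : ℝ) ≤ r := by exact_mod_cast hr
  have h37R : 37 * ((r : ℝ) + 1) ≤ 5 * ((h : ℝ) + r) := by exact_mod_cast h37
  have hEB := exact_bound (r + 1) δ ω (by omega) hω1 (by rw [hω3, hω4]; exact hδ) (by omega)
  rw [hω3, hswap] at hEB
  have hκ0 : 0 < κ := by linarith
  rcases hEB with hb | ⟨-, hb⟩
  · have h1 : (δ : ℝ) / (((r + 1 : ℕ) : ℝ) * ((h : ℝ) + 1 - δ)) ≤ ((h : ℝ) - 1) / (2 * ((r : ℝ) + 1)) := by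
      push_cast
      rw [div_le_div_iff₀ (by apply mul_pos; positivity; linarith) (by positivity)]
      have h2 : 0 ≤ ((h : ℝ) - 1 - δ) := by linarith
      have h3 : (δ : ℝ) * 2 ≤ ((h : ℝ) - 1) * ((h : ℝ) + 1 - δ) := by
        have h4 : (0 : ℝ) ≤ δ := Nat.cast_nonneg δ
        nlinarith
      nlinarith
    have h2 := num_B r h hrR h37R
    calc κ * psi ω ≤ κ * (hh (h + 1) (r : ℝ) * (((r : ℝ) + 1) / ((h : ℝ) + 1)) *
          (1 + (δ : ℝ) / (((r + 1 : ℕ) : ℝ) * ((h : ℝ) + 1 - δ)))) :=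
          mul_le_mul_of_nonneg_left hb hκ0.le
      _ ≤ κ * (hh (h + 1) (r : ℝ) * (((r : ℝ) + 1) / ((h : ℝ) + 1)) *
          (1 + ((h : ℝ) - 1) / (2 * ((r : ℝ) + 1)))) := by
          apply mul_le_mul_of_nonneg_left _ hκ0.le
          apply mul_le_mul_of_nonneg_left _ (by positivity)
          linarith
      _ = hh (h + 1) (r : ℝ) * ((1 + ((r : ℝ) + 2) / h) * (1 + ((h : ℝ) - 1) / (2 * ((r : ℝ) + 1))) *
          (((r : ℝ) + 1) / ((h : ℝ) + 1))) := by rw [hκ]; ring
      _ ≤ hh (h + 1) (r : ℝ) * 1 := mul_le_mul_of_nonneg_left h2 hpos1.le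
      _ = hh (h + 1) (r : ℝ) := mul_one _
  · have h1 : bet (((h : ℝ) + 1 - δ) / ((h : ℝ) + 1)) ≤ 19 / 12 := by
      apply bet_le
      apply div_nonneg _ (by positivity)
      linarith
    have h2 := num_bet r h hrR h37R
    calc κ * psi ω ≤ κ * (hh (h + 1) (r : ℝ) * (((r : ℝ) + 1) / ((h : ℝ) + 1)) *
          (1 + bet (((h : ℝ) + 1 - δ) / ((h : ℝ) + 1)))) :=
          mul_le_mul_of_nonneg_left hb hκ0.le
      _ ≤ κ * (hh (h + 1) (r : ℝ) * (((r : ℝ) + 1) / ((h : ℝ) + 1)) * (1 + 19 / 12)) := by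
          apply mul_le_mul_of_nonneg_left _ hκ0.le
          apply mul_le_mul_of_nonneg_left _ (by positivity)
          linarith
      _ = hh (h + 1) (r : ℝ) * ((1 + ((r : ℝ) + 2) / h) * (1 + 19 / 12) *
          (((r : ℝ) + 1) / ((h : ℝ) + 1))) := by rw [hκ]; ring
      _ ≤ hh (h + 1) (r : ℝ) * 1 := mul_le_mul_of_nonneg_left h2 hpos1.le
      _ = hh (h + 1) (r : ℝ) := mul_one _

end Pool.Agent.LRT
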