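import Mathlib
import Pool.Agent.LRT.J3
import Pool.Agent.LRT.T2

set_option autoImplicit false

namespace Pool.Agent.LRT

open Finset
open Pool.Agent.LRE

/-- rough bound with the constant `15` and the factor `23/20` -/
theorem crude15 (m w δ : ℕ) (s : Multiset ℕ) (hm : 1 ≤ m) (hpos : ∀ x ∈ s, 0 < x)
    (hsup : s.sup = w) (hcard : s.card ≤ w) (hsum : s.sum + δ = m * w) (hδ : δ < w)
    (hw : 15 * (m - 1) ≤ w) : psi s ≤ 23 / 20 * (hh w (m : ℝ) * BB m w δ) := by
  refine bgen 15 (23 / 20) (by norm_num) ?_ m w δ s hm hpos hsup hcard hsum hδ hw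
  intro r h τ hr hC _ hc hs hlow _
  have hh1 : 1 ≤ h := by omega
  have h0 : (0 : ℝ) < h := by
    have : 0 < h := by omega
    exact_mod_cast this
  have hr0 : (0 : ℝ) ≤ r := Nat.cast_nonneg r
  have h1 := sb τ h hh1 hc hs
  have h2 : (r : ℝ) ≤ (τ.sum : ℝ) / h := by
    rw [le_div_iff₀ h0]
    have : ((r * h : ℕ) : ℝ) ≤ (τ.sum : ℝ) := Nat.cast_le.mpr hlow.le
    rw [Nat.cast_mul] at this
    exact this
  have h3 := hh_anti h hr0 h2
  refine (h1.trans h3).trans ?_
  have h4 := hh_succ h (r : ℝ)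
  rw [h4]
  have h5 := hh_pos h hr0
  have h6 : (1 : ℝ) ≤ 23 / 20 * (((h : ℝ) + 1) / ((r : ℝ) + ((h : ℝ) + 1))) := by
    rw [← mul_div_assoc, le_div_iff₀ (by positivity)]
    have h7 : 2 * h ≥ 15 * r := by omega
    have h8 : 2 * (h : ℝ) ≥ 15 * r := by exact_mod_cast h7
    linarith
  calc hh h (r : ℝ) ≤ hh h (r : ℝ) * (23 / 20 * (((h : ℝ) + 1) / ((r : ℝ) + ((h : ℝ) + 1)))) :=
        le_mul_of_one_le_right h5.le h6
    _ = 23 / 20 * (hh h (r : ℝ) * (((h : ℝ) + 1) / ((r : ℝ) + ((h : ℝ) + 1)))) := by ring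

/-- The tail bound for all shapes: both dimensions `≤ h`, more than `r h` cells. -/
theorem crude (r h : ℕ) (τ : Multiset ℕ) (hr : 2 ≤ r) (hh15 : 15 * r ≤ h)
    (hpos : ∀ x ∈ τ, 0 < x) (hc : τ.card ≤ h) (hs : τ.sup ≤ h) (hlow : r * h < τ.sum) :
    psi τ ≤ hh (h + 1) (r : ℝ) := by
  by_cases hbig : (r + 1) * h ≤ τ.sum
  · -- `sb` and `n1`-type estimate
    obtain ⟨g, rfl⟩ : ∃ g, h = g + 1 := ⟨h - 1, by omega⟩
    have h0 : (0 : ℝ) < ((g + 1 : ℕ) : ℝ) := by positivity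
    have h1 := sb τ (g + 1) (by omega) hc hs
    have h2 : ((r + 1 : ℕ) : ℝ) ≤ (τ.sum : ℝ) / ((g + 1 : ℕ) : ℝ) := by
      rw [le_div_iff₀ h0]
      exact_mod_cast hbig
    have h3 := hh_anti (g + 1) (Nat.cast_nonneg (r + 1)) h2
    refine (h1.trans h3).trans ?_
    rw [hh_nat_succ, hh_succ (g + 1) (r : ℝ)]
    apply mul_le_mul_of_nonneg_left _ (hh_pos (g + 1) (Nat.cast_nonneg r)).le
    rw [div_le_div_iff₀ (by positivity) (by positivity)]
    have h4 : (15 : ℝ) * r ≤ ((g + 1 : ℕ) : ℝ) := by exact_mod_cast hh15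
    have hr0 : (2 : ℝ) ≤ r := by exact_mod_cast hr
    nlinarith
  push Not at hbig
  rcases Nat.lt_or_ge (max τ.card τ.sup) h with hn | hn
  · obtain ⟨g, hg⟩ : ∃ g, h = g + 1 := ⟨h - 1, by omega⟩
    have h1 : τ.card ≤ g := by
      have := le_max_left τ.card τ.sup
      omega
    have h2 : τ.sup ≤ g := by
      have := le_max_right τ.card τ.sup
      omega
    rw [hg] at hlow hh15 ⊢
    exact tl_narrow g r τ (by omega) (by omega) h1 h2 hlow.le
  · -- one dimension equals `h`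
    obtain ⟨δ, hδ⟩ : ∃ δ, τ.sum + δ = (r + 1) * h := ⟨(r + 1) * h - τ.sum, by omega⟩
    have hδh : δ < h := by
      rw [Nat.succ_mul] at hδ
      omega
    have key : psi τ ≤ 23 / 20 * (hh h ((r + 1 : ℕ) : ℝ) * BB (r + 1) h δ) := by
      rcases le_total τ.card τ.sup with h1 | h1
      · have h2 : τ.sup = h := by
          rw [max_eq_right h1] at hn
          omega
        exact crude15 (r + 1) h δ τ (by omega) hpos h2 hc hδ hδh (by simpa using hh15)
      · have h2 : τ.card = h := by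
          rw [max_eq_left h1] at hn
          omega
        have h3 := crude15 (r + 1) h δ (conj τ) (by omega) (conj_pos τ)
          (by rw [conj_sup τ hpos, h2]) (by rw [conj_card]; exact hs)
          (by rw [conj_sum]; exact hδ) hδh (by simpa using hh15)
        rwa [psi_conj] at h3
    refine key.trans ?_
    rw [hh_nat_succ, hh_succ h (r : ℝ)]
    have hhp := hh_pos h (Nat.cast_nonneg r : (0 : ℝ) ≤ (r : ℝ))
    have hD : (0 : ℝ) < (r : ℝ) + h + 1 := by positivity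
    have hr2 : (2 : ℝ) ≤ r := by exact_mod_cast hr
    have h15 : 15 * (r : ℝ) ≤ h := by exact_mod_cast hh15
    have hδr : (δ : ℝ) + 1 ≤ h := by exact_mod_cast hδh
    have hδ0 : (0 : ℝ) ≤ δ := Nat.cast_nonneg δ
    have hden : (0 : ℝ) < (h : ℝ) + 1 - δ := by linarith
    have hBB : 23 / 20 * ((r : ℝ) + 1) * BB (r + 1) h δ ≤ (h : ℝ) + 1 := by
      unfold BB
      rw [mul_max_of_nonneg _ _ (by positivity)]
      apply max_le
      · have h1 : (δ : ℝ) / (((r + 1 : ℕ) : ℝ) * ((h : ℝ) + 1 - δ)) ≤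
            (h : ℝ) / 2 / ((r : ℝ) + 1) := by
          push_cast
          rw [div_div, div_le_div_iff₀ (by positivity) (by positivity)]
          have h2 : (δ : ℝ) * 2 ≤ h * ((h : ℝ) + 1 - δ) := by nlinarith
          nlinarith
        have h2 : 23 / 20 * ((r : ℝ) + 1) * (1 + (h : ℝ) / 2 / ((r : ℝ) + 1)) ≤ (h : ℝ) + 1 := by
          have e1 : 23 / 20 * ((r : ℝ) + 1) * (1 + (h : ℝ) / 2 / ((r : ℝ) + 1)) =
              23 / 20 * ((r : ℝ) + 1) + 23 / 40 * h := by
            have : (r : ℝ) + 1 ≠ 0 := by positivity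
            field_simp
            ring
          rw [e1]
          linarith
        refine le_trans ?_ h2
        apply mul_le_mul_of_nonneg_left _ (by positivity)
        linarith
      · have h1 := bet_le (((h : ℝ) + 1 - δ) / ((h : ℝ) + 1)) (by positivity)
        have h2 : 23 / 20 * ((r : ℝ) + 1) * (1 + bet (((h : ℝ) + 1 - δ) / ((h : ℝ) + 1))) ≤
            23 / 20 * ((r : ℝ) + 1) * (1 + 19 / 12) := by
          apply mul_le_mul_of_nonneg_left _ (by positivity)
          linarith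
        refine h2.trans ?_
        linarith
    have e1 : 23 / 20 * (hh h (r : ℝ) * (((r : ℝ) + 1) / ((r : ℝ) + h + 1)) * BB (r + 1) h δ) =
        hh h (r : ℝ) * (23 / 20 * ((r : ℝ) + 1) * BB (r + 1) h δ / ((r : ℝ) + h + 1)) := by
      field_simp
    rw [e1]
    apply mul_le_mul_of_nonneg_left _ hhp.le
    have e2 : (r : ℝ) + ((h : ℝ) + 1) = (r : ℝ) + h + 1 := by ring
    rw [e2]
    exact div_le_div_of_nonneg_right hBB hD.le

/-- **Theorem B'** -/
theorem bprime (m w δ : ℕ) (s : Multiset ℕ) (hm : 1 ≤ m) (hpos : ∀ x ∈ s, 0 < x)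
    (hsup : s.sup = w) (hcard : s.card ≤ w) (hsum : s.sum + δ = m * w) (hδ : δ < w)
    (hw : 30 * (m - 1) ≤ w) : psi s ≤ hh w (m : ℝ) * BB m w δ := by
  have h1 := bgen 30 1 le_rfl (fun r h τ hr hC hp hc hs hlow _ => by
    rw [one_mul]
    exact crude r h τ hr (by omega) hp hc hs hlow) m w δ s hm hpos hsup hcard hsum hδ hw
  rwa [one_mul] at h1

end Pool.Agent.LRT
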