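import Mathlib
import Pool.Agent.LRT.T2
import Pool.Agent.LRT.F4

set_option autoImplicit false

namespace Pool.Agent.LRT

open Finset
open Pool.Agent.LRE

/-- `(m-1)(M+1) + m = (m-1) M + 2m - 1`, in the form used below -/
theorem m1_sub (m M : ℕ) (hm : 1 ≤ m) : (m - 1) * (M + 1) + M + 1 = m * (M + 1) := by
  obtain ⟨a, rfl⟩ : ∃ a, m = a + 1 := ⟨m - 1, by omega⟩
  rw [Nat.add_sub_cancel]
  ring

/-- `m ≤ t` -/
theorem m1_card (m M t w k : ℕ) (hM : m ≤ M) (hn : t + w ≤ m + M)
    (h1 : (m - 1) * (M + 1) < k) (hk : k ≤ t * w) : m ≤ t := by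
  by_contra hcon
  push Not at hcon
  obtain ⟨a, ha⟩ : ∃ a, m = t + a + 1 := ⟨m - 1 - t, by omega⟩
  have h2 : m - 1 = t + a := by omega
  have h3 : w ≤ M + 1 + a := by omega
  rw [h2] at h1
  have h4 : t * w ≤ t * (M + 1 + a) := Nat.mul_le_mul_left _ h3
  have h5 : t * (M + 1 + a) = t * (M + 1) + t * a := by ring
  have h6 : (t + a) * (M + 1) = t * (M + 1) + a * (M + 1) := by ring
  have h7 : t * a ≤ (M + 1) * a := Nat.mul_le_mul_right _ (by omega)
  have h8 : (M + 1) * a = a * (M + 1) := Nat.mul_comm _ _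
  omega

/-- case `w < k / m` -/
theorem m1_narrow (m M K : ℕ) (s : Multiset ℕ) (hm : 2 ≤ m) (hM : 30 * m ≤ M)
    (htw : s.card ≤ s.sup) (h1 : (m - 1) * (M + 1) < s.sum) (hK1 : m * K ≤ s.sum)
    (hK2 : s.sum < m * (K + 1)) (hw : s.sup < K) : psi s ≤ NN m s.sum := by
  have hK : 15 * m ≤ K := by
    by_contra hcon
    push Not at hcon
    have h2 := m1_sub m M (by omega)
    have h3 : m * (K + 1) ≤ m * (15 * m) := Nat.mul_le_mul_left _ (by omega)
    have h4 : m * (30 * m + 1) ≤ m * (M + 1) := Nat.mul_le_mul_left _ (by omega)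
    nlinarith
  obtain ⟨g, rfl⟩ : ∃ g, K = g + 1 := ⟨K - 1, by omega⟩
  have h2 := tl_narrow g m s (by omega) (by omega) (by omega) (by omega) hK1
  have h3 := NN_ge_rect m (g + 2) s.sum (by omega) hK2.le
  rw [← hh_symm] at h3
  exact h2.trans h3

/-- `(15 m ≤ K)`, `3 K ≥ 2 M` for `m ≥ 3`, `4 K ≥ 3 M` for `m ≥ 4`, whenever
`(m-1)(M+1) < m (K+1)` -/
theorem m1_K (m M K : ℕ) (hm : 2 ≤ m) (hM : 30 * m ≤ M) (h : (m - 1) * (M + 1) < m * (K + 1)) :
    15 * m ≤ K ∧ (3 ≤ m → 2 * M ≤ 3 * K) ∧ (4 ≤ m → 3 * M ≤ 4 * K) := by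
  have h2 := m1_sub m M (by omega)
  refine ⟨?_, ?_, ?_⟩
  · by_contra hcon
    push Not at hcon
    have h3 : m * (K + 1) ≤ m * (15 * m) := Nat.mul_le_mul_left _ (by omega)
    have h4 : m * (30 * m + 1) ≤ m * (M + 1) := Nat.mul_le_mul_left _ (by omega)
    nlinarith
  · intro h3
    by_contra hcon
    push Not at hcon
    have h4 : m * (3 * (K + 1)) ≤ m * (2 * (M + 1)) := Nat.mul_le_mul_left _ (by omega)
    have h5 : 3 * (M + 1) ≤ m * (M + 1) := Nat.mul_le_mul_right _ h3
    nlinarith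
  · intro h3
    by_contra hcon
    push Not at hcon
    have h4 : m * (4 * (K + 1)) ≤ m * (3 * (M + 1)) := Nat.mul_le_mul_left _ (by omega)
    have h5 : 4 * (M + 1) ≤ m * (M + 1) := Nat.mul_le_mul_right _ h3
    nlinarith

/-- case `w = k / m` -/
theorem m1_middle (m M K : ℕ) (s : Multiset ℕ) (hm : 2 ≤ m) (hM : 30 * m ≤ M)
    (hpos : ∀ x ∈ s, 0 < x) (htw : s.card ≤ s.sup) (hn : s.card + s.sup ≤ m + M)
    (h1 : (m - 1) * (M + 1) < s.sum) (hK1 : m * K ≤ s.sum) (hK2 : s.sum < m * (K + 1))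
    (hw : s.sup = K) : psi s ≤ NN m s.sum := by
  obtain ⟨hK, hK3, hK4⟩ := m1_K m M K hm hM (by omega)
  have hK0 : (0 : ℝ) < K := by
    have : 0 < K := by omega
    exact_mod_cast this
  by_cases he : s.sum = m * K
  · have h2 := sb s K (by omega) (by omega) hw.le
    have h3 := NN_ge_rect m K s.sum (by omega) he.le
    rw [← hh_symm] at h3
    refine h2.trans (le_trans (le_of_eq ?_) h3)
    congr 1
    rw [he, div_eq_iff hK0.ne']
    push_cast
    ring
  have hgt : m * K + 1 ≤ s.sum := by omega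
  have h3 := NN_ge_rect m (K + 1) s.sum (by omega) hK2.le
  rw [← hh_symm] at h3
  refine le_trans ?_ h3
  rcases Nat.lt_or_ge m 3 with hm3 | hm3
  · have hm2 : m = 2 := by omega
    subst hm2
    exact tl2 K s (by omega) (by omega) hw.le hgt
  · have hK3' := hK3 hm3
    refine tl3 m K s hm3 hpos (fun x hx => by rw [← hw]; exact Multiset.le_sup hx) hgt (by omega)
      (by omega) ?_
    intro r' hr2 hrm
    -- `r' (t + r') + (m+1) K < k + r' (m+1) + r' K`
    have ht : s.card + K ≤ m + M := by omega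
    have e1 : r' * (s.card + r') + r' * K ≤ r' * (m + M) + r' * r' := by
      have := Nat.mul_le_mul_left r' ht
      nlinarith
    rcases Nat.lt_or_ge r' 3 with hr3 | hr3
    · have hr' : r' = 2 := by omega
      subst hr'
      rcases Nat.lt_or_ge m 4 with hm4 | hm4
      · have hm' : m = 3 := by omega
        subst hm'
        omega
      · have hK4' := hK4 hm4
        have e2 : (m + 1) * K = m * K + K := by ring
        omega
    · have e2 : (m + 1) * K = m * K + K := by ring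
      have e3 : 20 * (M + r') ≤ 31 * K + 20 := by omega
      have e4 : r' * (20 * (M + r')) ≤ r' * (31 * K + 20) := Nat.mul_le_mul_left _ e3
      have e5 : 3 * K ≤ r' * K := Nat.mul_le_mul_right _ hr3
      nlinarith

/-- case `w > k / m`: the tails of the stage argument -/
theorem m1_tail (m M : ℕ) (s ν τ : Multiset ℕ) (r L : ℕ) (hm : 2 ≤ m) (hM : 30 * m ≤ M)
    (hpos : ∀ x ∈ s, 0 < x) (hn : s.card + s.sup ≤ m + M) (hwM : s.sup ≤ M)
    (h1 : (m - 1) * (M + 1) < s.sum) (hws : s.sum ≤ m * s.sup)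
    (hs : s = ν + τ) (hcr : ν.card + r = m) (hr1 : 1 ≤ r) (hν : ν ≠ 0)
    (hLτ : ∀ x ∈ τ, x < L) (hs1 : r * (L - 1) < τ.sum) (hs2 : τ.sum ≤ r * L) (hL2 : 2 ≤ L) :
    psi τ ≤ hh L (r : ℝ) := by
  have hνc : 1 ≤ ν.card := Multiset.card_pos.mpr hν
  obtain ⟨h, rfl⟩ : ∃ h, L = h + 1 := ⟨L - 1, by omega⟩
  rw [Nat.add_sub_cancel] at hs1
  rcases Nat.lt_or_ge r 2 with hr2 | hr2
  · have hr : r = 1 := by omega
    subst hr
    have := tl1 h τ (by omega)
    simpa using this
  have hτc : s.card = ν.card + τ.card := by rw [hs, Multiset.card_add]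
  have hτs : s.sum = ν.sum + τ.sum := by rw [hs, Multiset.sum_add]
  have hνs : ν.sum ≤ ν.card * s.sup :=
    sum_le_card_mul ν s.sup (fun x hx => Multiset.le_sup (by rw [hs]; exact Multiset.mem_add.mpr (Or.inl hx)))
  have hνM : ν.card * s.sup ≤ ν.card * M := Nat.mul_le_mul_left _ hwM
  have hm3 : 3 ≤ m := by omega
  have hsup : τ.sup ≤ h := Multiset.sup_le.mpr (fun x hx => by have := hLτ x hx; omega)
  -- bounds for the width
  have hw1 : (m - 1) * (M + 1) < m * (s.sup - 1 + 1) := by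
    have : 1 ≤ s.sup := by
      by_contra hcon
      have : s.sup = 0 := by omega
      rw [this] at hws
      omega
    rw [Nat.sub_add_cancel this]
    omega
  obtain ⟨hK, hK3, hK4⟩ := m1_K m M (s.sup - 1) hm hM hw1
  have hK3' := hK3 hm3
  -- number of cells of the tail: `(r-1) M + m ≤ |τ|`
  have hcells : (r - 1) * M + m ≤ τ.sum := by
    obtain ⟨a, ha⟩ : ∃ a, r = a + 1 := ⟨r - 1, by omega⟩
    obtain ⟨b, hb⟩ : ∃ b, ν.card = b := ⟨_, rfl⟩
    have hmab : m = a + b + 1 := by omega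
    rw [ha, Nat.add_sub_cancel]
    have h2 : (m - 1) * (M + 1) = a * M + b * M + a + b := by
      have : m - 1 = a + b := by omega
      rw [this]; ring
    rw [hb] at hνs hνM
    omega
  rcases Nat.lt_or_ge r 3 with hr3 | hr3
  · have hr : r = 2 := by omega
    subst hr
    have h4 : M + m ≤ τ.sum := by simpa using hcells
    have := tl2 h τ (by omega) (by omega) hsup (by omega)
    exact_mod_cast this
  · have hm4 : 4 ≤ m := by omega
    have hK4' := hK4 hm4
    have h3h : 2 * M ≤ 3 * (h + 1) := by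
      by_contra hcon
      push Not at hcon
      have h5 : (r - 1) * M + M = r * M := by
        obtain ⟨a, ha⟩ : ∃ a, r = a + 1 := ⟨r - 1, by omega⟩
        rw [ha, Nat.add_sub_cancel]; ring
      have h6 : r * (3 * (h + 1)) ≤ r * (2 * M) := Nat.mul_le_mul_left _ (by omega)
      have h7 : 3 * M ≤ r * M := Nat.mul_le_mul_right _ hr3
      nlinarith
    refine tl3 r h τ hr3 (fun x hx => hpos x (by rw [hs]; exact Multiset.mem_add.mpr (Or.inr hx)))
      (fun x hx => by have := hLτ x hx; omega) hs1 (by omega) (by omega) ?_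
    intro r' hr'2 hr'r
    have e1 : (r + 1) * h = r * h + h := by ring
    have e2 : τ.card + s.sup ≤ r + M := by omega
    have e3 : 2 * (M - s.sup + r' - 1) ≤ h := by omega
    obtain ⟨c, hc⟩ : ∃ c, r' = c + 2 := ⟨r' - 2, by omega⟩
    have e4 : τ.card ≤ r + (M - s.sup) := by omega
    obtain ⟨j, hj⟩ : ∃ j, M - s.sup = j := ⟨_, rfl⟩
    rw [hj] at e3 e4
    have e5 : 2 * (j + r' - 1) ≤ h := e3
    have e6 : r' * (τ.card + r') ≤ r' * (r + j + r') := Nat.mul_le_mul_left _ (by omega)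
    have e7 : r' * (r + j + r') = r' * (r + 1) + r' * (j + r' - 1) := by
      have : r + j + r' = (r + 1) + (j + r' - 1) := by omega
      rw [this]; ring
    have e8 : r' * (j + r' - 1) + h ≤ r' * h := by
      have h9 : r' * (2 * (j + r' - 1)) ≤ r' * h := Nat.mul_le_mul_left _ e5
      have h10 : 2 * h ≤ r' * h := Nat.mul_le_mul_right _ hr'2
      have h11 : r' * (2 * (j + r' - 1)) = 2 * (r' * (j + r' - 1)) := by ring
      omega
    omega

/-- height two shapes with `t ≤ w`, `m ≥ 2` -/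
theorem main_tw (m M : ℕ) (s : Multiset ℕ) (hm : 2 ≤ m) (hM : 30 * m ≤ M)
    (hpos : ∀ x ∈ s, 0 < x) (htw : s.card ≤ s.sup) (hn : s.card + s.sup ≤ m + M)
    (h1 : (m - 1) * (M + 1) < s.sum) :
    psi s ≤ max (NN m s.sum) (NN s.sup s.sum) := by
  set K := s.sum / m with hKdef
  have hK1 : m * K ≤ s.sum := Nat.mul_div_le _ _
  have hK2 : s.sum < m * (K + 1) := by
    have := Nat.lt_mul_div_succ s.sum (show 0 < m by omega)
    simpa [hKdef] using this
  rcases Nat.lt_trichotomy s.sup K with hw | hw | hw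
  · exact le_max_of_le_left (m1_narrow m M K s hm hM htw h1 hK1 hK2 hw)
  · exact le_max_of_le_left (m1_middle m M K s hm hM hpos htw hn h1 hK1 hK2 hw)
  · have hle : ∀ x ∈ s, x ≤ s.sup := fun x hx => Multiset.le_sup hx
    have hk : s.sum ≤ s.card * s.sup := sum_le_card_mul s s.sup hle
    have hmt := m1_card m M s.card s.sup s.sum (by omega) hn h1 hk
    have hwM : s.sup ≤ M := by omega
    have hws : s.sum ≤ m * s.sup := by
      have : m * (K + 1) ≤ m * s.sup := Nat.mul_le_mul_left _ hw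
      omega
    obtain ⟨hKa, hKb, hKc⟩ := m1_K m M (s.sup - 1) hm hM (by
      rw [Nat.sub_add_cancel (by omega : 1 ≤ s.sup)]
      omega)
    obtain ⟨δ, hδ⟩ : ∃ δ, s.sum + δ = m * s.sup := ⟨m * s.sup - s.sum, by omega⟩
    have hδw : δ + m ≤ s.sup := by
      have e1 : (m - 1) * (M + 1) = (m - 1) * M + (m - 1) := by ring
      have e2 : (m - 1) * s.sup ≤ (m - 1) * M := Nat.mul_le_mul_left _ hwM
      have e3 : (m - 1) * s.sup + s.sup = m * s.sup := by
        obtain ⟨a, ha⟩ : ∃ a, m = a + 1 := ⟨m - 1, by omega⟩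
        rw [ha, Nat.add_sub_cancel]; ring
      omega
    have h20 : m = 2 ∨ 20 * m ≤ s.sup := by
      rcases Nat.lt_or_ge m 3 with h3 | h3
      · left; omega
      · right
        have := hKb h3
        omega
    by_cases hcm : s.card = m
    · exact exact_m m δ s hm hcm hδ hδw h20
    · obtain ⟨ω, ω1, ω2, ω3, ω4, ω5⟩ := stage_dom m s 1 (by omega) le_rfl hpos (by omega) hws
        (fun ν τ r L a1 a2 a3 a4 a5 a6 a7 a8 a9 => by
          rw [psi_rect, one_mul]
          exact m1_tail m M s ν τ r L hm hM hpos hn hwM h1 hws a1 a2 a3 a4 a6 a7 a8 a9)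
      have h2 := exact_m m δ ω hm ω1 (by rw [ω3, ω4]; exact hδ) (by rw [ω3]; exact hδw)
        (by rw [ω3]; exact h20)
      rw [ω3, ω4] at h2
      rw [one_mul] at ω5
      exact ω5.trans h2

end Pool.Agent.LRT
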