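import Mathlib
import Pool.Agent.LRT.M1
import Pool.Agent.LRE.A9

set_option autoImplicit false

namespace Pool.Agent.LRT

open Finset
open Pool.Agent.LRE
open Pool.Agent.MP_f1b527_co

theorem hh_one_left (k : ℕ) : hh 1 (k : ℝ) = 1 / ((k : ℝ) + 1) := by
  simp [hh]

/-- all shapes -/
theorem main_all (m M : ℕ) (s : Multiset ℕ) (hm : 1 ≤ m) (hM : 30 * m ≤ M)
    (hpos : ∀ x ∈ s, 0 < x) (hn : s.card + s.sup ≤ m + M) (h1 : (m - 1) * (M + 1) < s.sum) :
    ∃ c, m ≤ c ∧ c ≤ M ∧ psi s ≤ max (NN m s.sum) (NN c s.sum) := by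
  have hk : s.sum ≤ s.card * s.sup := sum_le_card_mul s s.sup (fun x hx => Multiset.le_sup hx)
  rcases Nat.lt_or_ge m 2 with hm2 | hm2
  · have hm1 : m = 1 := by omega
    subst hm1
    refine ⟨1, le_rfl, by omega, le_max_of_le_left ?_⟩
    have h2 := NN_ge_rect 1 s.sum s.sum le_rfl (by omega)
    rw [hh_one_left] at h2
    exact (psi_le_inv s).trans h2
  · have hcard : m ≤ s.card := m1_card m M s.card s.sup s.sum (by omega) hn h1 hk
    have hsup : m ≤ s.sup := m1_card m M s.sup s.card s.sum (by omega) (by omega) h1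
      (by rw [Nat.mul_comm]; exact hk)
    rcases Nat.le_total s.card s.sup with htw | htw
    · exact ⟨s.sup, hsup, by omega, main_tw m M s hm2 hM hpos htw hn h1⟩
    · refine ⟨s.card, hcard, by omega, ?_⟩
      have e1 := conj_card s
      have e2 := conj_sup s hpos
      have e3 := conj_sum s
      have h2 := main_tw m M (conj s) hm2 hM (conj_pos s) (by omega) (by omega) (by rw [e3]; exact h1)
      rw [e2, e3, psi_conj] at h2
      exact h2

section P

variable {X : Type*} [DecidableEq X] (r : X → X → Prop) [DecidableRel r]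

/-- Every relation of height at most two (no `a < b < c`) on `m + M` points, `M ≥ 30 m`,
with more than `(m-1)(M+1)` related pairs. -/
theorem height2 (S : Finset X) (h2 : ∀ a ∈ S, ∀ b ∈ S, ∀ c ∈ S, r a b → ¬ r b c) (m M : ℕ)
    (hm : 1 ≤ m) (hM : 30 * m ≤ M) (hS : S.card = m + M)
    (h1 : (m - 1) * (M + 1) < cp r S) :
    ∃ c, m ≤ c ∧ c ≤ M ∧
      (lin r S : ℝ) ≤ ((m + M).factorial : ℝ) * max (NN m (cp r S)) (NN c (cp r S)) := by
  set u : Multiset ℕ := S.val.map (ups r S) with hu
  set s : Multiset ℕ := u.filter (fun x => 0 < x) with hs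
  have hsum : s.sum = cp r S := by
    rw [← sum_ups r S, ← hu, hs]
    have h3 : (u.filter (fun x => ¬ 0 < x)).sum = 0 := by
      apply Multiset.sum_eq_zero
      intro x hx
      have := Multiset.of_mem_filter hx
      omega
    have h4 := Multiset.filter_add_not (fun x => 0 < x) u
    have h5 := congrArg Multiset.sum h4
    rw [Multiset.sum_add, h3, add_zero] at h5
    exact h5
  have hpos : ∀ x ∈ s, 0 < x := fun x hx => Multiset.of_mem_filter hx
  have hcardsup : s.card + s.sup ≤ m + M := by
    -- the elements with something above them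
    set A : Finset X := S.filter (fun x => 0 < ups r S x) with hA
    set B : Finset X := S.filter (fun x => ¬ 0 < ups r S x) with hB
    have hAB : A.card + B.card = S.card := by
      rw [hA, hB]
      exact Finset.card_filter_add_card_filter_not (s := S) (fun x => 0 < ups r S x)
    have hsA : s.card = A.card := by
      rw [hs, hu, Multiset.filter_map, Multiset.card_map]
      rfl
    have hsB : s.sup ≤ B.card := by
      rw [Multiset.sup_le]
      intro y hy
      have hy1 := Multiset.mem_of_mem_filter hy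
      rw [hu, Multiset.mem_map] at hy1
      obtain ⟨x, hx, rfl⟩ := hy1
      unfold ups
      apply Finset.card_le_card
      intro z hz
      rw [Finset.mem_filter] at hz
      rw [hB, Finset.mem_filter]
      refine ⟨hz.1, ?_⟩
      unfold ups
      rw [Finset.card_pos]
      rintro ⟨v, hv⟩
      rw [Finset.mem_filter] at hv
      exact h2 x hx z hz.1 v hv.1 hz.2 hv.2
    omega
  obtain ⟨c, hc1, hc2, hc3⟩ := main_all m M s hm hM hpos hcardsup (by rw [hsum]; exact h1)
  refine ⟨c, hc1, hc2, ?_⟩
  rw [hsum] at hc3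
  have h3 := lin_le_psi r S
  rw [← hu, ← psi_filter_pos u, ← hs, hS] at h3
  refine h3.trans ?_
  exact mul_le_mul_of_nonneg_left hc3 (Nat.cast_nonneg _)

end P

end Pool.Agent.LRT
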