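import Mathlib
import Pool.Agent.LRT.Z1

set_option autoImplicit false

namespace Pool.Agent.LRT

open Finset
open Pool.Agent.LRE

/-- a positive sequence with `f c ^ 2 ≤ f (c-1) f (c+1)` attains its maximum at an end -/
theorem conv_max (f : ℕ → ℝ) (a b : ℕ) (hpos : ∀ c, a ≤ c → c ≤ b → 0 < f c)
    (h : ∀ c, a ≤ c → c + 2 ≤ b → f (c + 1) ^ 2 ≤ f c * f (c + 2)) :
    ∀ c, a ≤ c → c ≤ b → f c ≤ max (f a) (f b) := by
  have step : ∀ c, a ≤ c → c + 2 ≤ b → f c ≤ f (c + 1) → f (c + 1) ≤ f (c + 2) := by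
    intro c h1 h2 h3
    have h4 := h c h1 h2
    have h5 := hpos (c + 1) (by omega) (by omega)
    have h6 := hpos (c + 2) (by omega) h2
    have h7 : f c * f (c + 2) ≤ f (c + 1) * f (c + 2) := mul_le_mul_of_nonneg_right h3 h6.le
    have h8 : f (c + 1) * f (c + 1) ≤ f (c + 1) * f (c + 2) := by nlinarith
    exact le_of_mul_le_mul_left h8 h5
  have pers : ∀ j c, a ≤ c → c + 1 + j ≤ b → f c ≤ f (c + 1) → f (c + 1) ≤ f (c + 1 + j) := by
    intro j
    induction j with
    | zero => intro c _ _ _; exact le_rfl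
    | succ j ih =>
      intro c h1 h2 h3
      have h4 := step c h1 (by omega) h3
      have h5 := ih (c + 1) (by omega) (by omega) h4
      have h6 : c + 1 + 1 + j = c + 1 + (j + 1) := by ring
      rw [h6] at h5
      exact h4.trans h5
  have main : ∀ j, a + j ≤ b → f (a + j) ≤ f a ∨ (∃ c, a + j = c + 1 ∧ a ≤ c ∧ f c ≤ f (c + 1)) := by
    intro j
    induction j with
    | zero => intro _; left; exact le_rfl
    | succ j ih =>
      intro hj
      rcases ih (by omega) with h1 | ⟨c, hc1, hc2, hc3⟩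
      · rcases le_total (f (a + (j + 1))) (f (a + j)) with h2 | h2
        · left; exact h2.trans h1
        · right; exact ⟨a + j, by ring, by omega, h2⟩
      · right
        refine ⟨c + 1, by omega, by omega, ?_⟩
        exact step c hc2 (by omega) hc3
  intro c h1 h2
  obtain ⟨j, rfl⟩ : ∃ j, c = a + j := ⟨c - a, by omega⟩
  rcases main j h2 with h3 | ⟨c, hc1, hc2, hc3⟩
  · exact le_max_of_le_left h3
  · apply le_max_of_le_right
    have h4 := pers (b - (c + 1)) c hc2 (by omega) hc3
    have h5 : c + 1 + (b - (c + 1)) = b := by omega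
    rw [h5] at h4
    rw [hc1]
    exact h4

/-- closed form of `NN` -/
theorem NN_eq (c k : ℕ) (hc : 1 ≤ c) :
    NN c k = hh c ((k / c : ℕ) : ℝ) * ((((k / c : ℕ) : ℝ) + ((c : ℝ) + 1) / (((k % c : ℕ) : ℝ) + 1)) /
      ((c : ℝ) + ((k / c : ℕ) : ℝ) + 1)) := by
  unfold NN
  exact psi_near c (k / c) (k % c) (Nat.mod_lt _ hc).le

/-- the closed form for `k = l c + s`, `s ≤ c` -/
noncomputable def FF (k l c : ℕ) : ℝ :=
  hh c (l : ℝ) * (((l : ℝ) + ((c : ℝ) + 1) / ((k : ℝ) - l * c + 1)) / ((c : ℝ) + l + 1))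

theorem NN_FF (k l c : ℕ) (h1 : l * c ≤ k) (h2 : k < (l + 1) * c) : NN c k = FF k l c := by
  have hc : 1 ≤ c := by
    rcases Nat.eq_zero_or_pos c with h | h
    · subst h; omega
    · exact h
  have e1 : k / c = l := by
    apply Nat.div_eq_of_lt_le
    · exact h1
    · exact h2
  have e2 : k % c = k - l * c := by
    have h3 := Nat.div_add_mod k c
    rw [e1] at h3
    have h4 : c * l = l * c := Nat.mul_comm _ _
    omega
  rw [NN_eq c k hc, e1, e2, Nat.cast_sub h1]
  unfold FF
  push_cast
  rfl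

theorem FF_pos (k l c : ℕ) (h1 : l * c ≤ k) : 0 < FF k l c := by
  have h2 : ((l * c : ℕ) : ℝ) ≤ k := by exact_mod_cast h1
  push_cast at h2
  have h3 : 0 < (k : ℝ) - l * c + 1 := by linarith
  unfold FF
  apply mul_pos (hh_pos c (Nat.cast_nonneg l))
  apply div_pos
  · have : 0 < ((c : ℝ) + 1) / ((k : ℝ) - l * c + 1) := by positivity
    positivity
  · positivity

theorem FF_conv (k l c : ℕ) (hl : 1 ≤ l) (h1 : l * (c + 2) ≤ k) :
    FF k l (c + 1) ^ 2 ≤ FF k l c * FF k l (c + 2) := by
  have h2 : ((l * (c + 2) : ℕ) : ℝ) ≤ k := by exact_mod_cast h1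
  push_cast at h2
  have hl' : (1 : ℝ) ≤ l := by exact_mod_cast hl
  have hc' : (0 : ℝ) ≤ c := Nat.cast_nonneg c
  obtain ⟨v, hv⟩ : ∃ v : ℝ, v = (k : ℝ) - l * (c + 2) + 1 := ⟨_, rfl⟩
  have hv1 : 1 ≤ v := by rw [hv]; linarith
  have e0 : (k : ℝ) - l * c + 1 = v + 2 * l := by rw [hv]; ring
  have e1 : (k : ℝ) - l * (c + 1) + 1 = v + l := by rw [hv]; ring
  have hH := hh_pos c (Nat.cast_nonneg (α := ℝ) l)
  unfold FF
  rw [hh_succ (c + 1), hh_succ c]
  push_cast
  rw [e0, e1, ← hv]
  set H := hh c (l : ℝ) with hHd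
  set L : ℝ := (l : ℝ) with hL
  set x : ℝ := (c : ℝ) with hx
  have g0 : 0 < v := by linarith
  have g1 : 0 < v + L := by linarith
  have g2 : 0 < v + 2 * L := by linarith
  have g3 : 0 < L + (x + 1) := by linarith
  have g4 : 0 < x + 1 + L + 1 := by linarith
  have g5 : 0 < L + (x + 1 + 1) := by linarith
  have g6 : 0 < x + L + 1 := by linarith
  have g7 : 0 < x + 2 + L + 1 := by linarith
  -- numerators
  have t0 : L + (x + 1) / (v + 2 * L) = (L * (v + 2 * L) + x + 1) / (v + 2 * L) := by
    field_simp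
    ring
  have t1 : L + (x + 1 + 1) / (v + L) = (L * (v + L) + x + 2) / (v + L) := by
    field_simp
    ring
  have t2 : L + (x + 2 + 1) / v = (L * v + x + 3) / v := by
    field_simp
    ring
  rw [t0, t1, t2]
  have key : (x + 1) * (x + L + 3) * ((L * (v + L) + x + 2) ^ 2 * (v * (v + 2 * L))) ≤
      (x + 2) * (x + L + 2) * ((L * (v + 2 * L) + x + 1) * (L * v + x + 3) * (v + L) ^ 2) := by
    apply mul_le_mul
    · nlinarith
    · have a1 : (L ^ 2 - 1) ^ 2 * (v + L) ^ 2 ≤ L ^ 2 * (L * (v + L) + x + 2) ^ 2 := by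
        rw [← mul_pow, ← mul_pow]
        apply pow_le_pow_left₀
        · apply mul_nonneg _ g1.le
          nlinarith
        · nlinarith
      nlinarith
    · positivity
    · positivity
  have l1 : (H * ((x + 1) / (L + (x + 1))) * ((L * (v + L) + x + 2) / (v + L) / (x + 1 + L + 1))) ^ 2
      = (H ^ 2 * (x + 1) / ((L + (x + 1)) ^ 2 * (x + L + 2) ^ 2 * (v + L) ^ 2 * (v * (v + 2 * L)) *
        (x + L + 3))) *
        ((x + 1) * (x + L + 3) * ((L * (v + L) + x + 2) ^ 2 * (v * (v + 2 * L)))) := by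
    have : x + 1 + L + 1 = x + L + 2 := by ring
    rw [this]
    have g8 : x + L + 2 ≠ 0 := by linarith
    have g9 : x + L + 3 ≠ 0 := by linarith
    field_simp
  have l2 : H * ((L * (v + 2 * L) + x + 1) / (v + 2 * L) / (x + L + 1)) *
      (H * ((x + 1) / (L + (x + 1))) * ((x + 1 + 1) / (L + (x + 1 + 1))) *
        ((L * v + x + 3) / v / (x + 2 + L + 1)))
      = (H ^ 2 * (x + 1) / ((L + (x + 1)) ^ 2 * (x + L + 2) ^ 2 * (v + L) ^ 2 * (v * (v + 2 * L)) *
        (x + L + 3))) *
        ((x + 2) * (x + L + 2) * ((L * (v + 2 * L) + x + 1) * (L * v + x + 3) * (v + L) ^ 2)) := by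
    have u1 : x + 2 + L + 1 = x + L + 3 := by ring
    have u2 : L + (x + 1 + 1) = x + L + 2 := by ring
    have u3 : L + (x + 1) = x + L + 1 := by ring
    have u4 : x + 1 + 1 = x + 2 := by ring
    rw [u1, u2, u3, u4]
    have g8 : x + L + 2 ≠ 0 := by linarith
    have g9 : x + L + 3 ≠ 0 := by linarith
    have g10 : x + L + 1 ≠ 0 := by linarith
    field_simp
  rw [l1, l2]
  apply mul_le_mul_of_nonneg_left key
  positivity

/-- `N(⌊k/m⌋+1, k) ≤ N(m, k)` -/
theorem FF_le_NN (m K r : ℕ) (hr : r < m) (hK : m ≤ K) :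
    FF (m * K + r) (m - 1) (K + 1) ≤ NN m (m * K + r) := by
  obtain ⟨l, rfl⟩ : ∃ l, m = l + 1 := ⟨m - 1, by omega⟩
  have e1 : ((l + 1) * K + r) / (l + 1) = K := by
    rw [Nat.mul_add_div (by omega), Nat.div_eq_of_lt hr]
    rfl
  have e2 : ((l + 1) * K + r) % (l + 1) = r := by
    rw [Nat.mul_add_mod, Nat.mod_eq_of_lt hr]
  rw [NN_eq (l + 1) _ (by omega), e1, e2]
  unfold FF
  rw [hh_symm (K + 1) (l + 1 - 1), Nat.add_sub_cancel, hh_nat_succ, hh_succ]
  have hH := hh_pos l (Nat.cast_nonneg (α := ℝ) K)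
  have hr' : (r : ℝ) ≤ l := by
    have : r ≤ l := by omega
    exact_mod_cast this
  have hK' : (l : ℝ) + 1 ≤ K := by exact_mod_cast hK
  have hr0 : (0 : ℝ) ≤ r := Nat.cast_nonneg r
  have hl0 : (0 : ℝ) ≤ l := Nat.cast_nonneg l
  push_cast
  set H := hh l (K : ℝ)
  set x : ℝ := (K : ℝ) with hx
  set y : ℝ := (l : ℝ) with hy
  set z : ℝ := (r : ℝ) with hz
  have g1 : (0 : ℝ) < (y + 1) * x + z - y * (x + 1) + 1 := by nlinarith
  have g1' : (y + 1) * x + z - y * (x + 1) + 1 = x + z - y + 1 := by ring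
  have g2 : 0 < x + z - y + 1 := by linarith
  have g3 : 0 < z + 1 := by linarith
  have g4 : 0 < x + y + 1 := by linarith
  have g5 : 0 < x + 1 + y + 1 := by linarith
  rw [g1']
  have t1 : y + (x + 1 + 1) / (x + z - y + 1) = (y * (x + z - y + 1) + x + 2) / (x + z - y + 1) := by
    field_simp
    ring
  have t2 : x + (y + 1 + 1) / (z + 1) = (x * (z + 1) + y + 2) / (z + 1) := by
    field_simp
    ring
  rw [t1, t2]
  have key : (x + 1) * (y * (x + z - y + 1) + x + 2) * (z + 1) ≤
      (y + 1) * (x * (z + 1) + y + 2) * (x + z - y + 1) := by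
    nlinarith [mul_nonneg (sub_nonneg.mpr hr') (mul_nonneg (sub_nonneg.mpr hr') (sub_nonneg.mpr hK')),
      mul_nonneg (sub_nonneg.mpr hr') (sub_nonneg.mpr hK'),
      mul_nonneg (mul_nonneg (sub_nonneg.mpr hr') (sub_nonneg.mpr hK')) hr0,
      mul_nonneg hr0 (sub_nonneg.mpr hr'), mul_nonneg hl0 (sub_nonneg.mpr hK'),
      mul_nonneg hr0 (sub_nonneg.mpr hK')]
  have l1 : H * ((x + 1) / (x + y + 1)) * ((y * (x + z - y + 1) + x + 2) / (x + z - y + 1) /
      (x + 1 + y + 1)) = (H / ((x + y + 1) * (x + y + 2) * (x + z - y + 1) * (z + 1))) *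
      ((x + 1) * (y * (x + z - y + 1) + x + 2) * (z + 1)) := by
    have : x + 1 + y + 1 = x + y + 2 := by ring
    rw [this]
    have : x + y + 2 ≠ 0 := by linarith
    field_simp
  have l2 : H * ((y + 1) / (x + (y + 1))) * ((x * (z + 1) + y + 2) / (z + 1) / (y + 1 + x + 1)) =
      (H / ((x + y + 1) * (x + y + 2) * (x + z - y + 1) * (z + 1))) *
      ((y + 1) * (x * (z + 1) + y + 2) * (x + z - y + 1)) := by
    have u1 : x + (y + 1) = x + y + 1 := by ring
    have u2 : y + 1 + x + 1 = x + y + 2 := by ring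
    rw [u1, u2]
    have : x + y + 2 ≠ 0 := by linarith
    field_simp
  rw [l1, l2]
  apply mul_le_mul_of_nonneg_left key
  apply div_nonneg hH.le
  positivity

/-- case `m < c ≤ ⌊k/m⌋` -/
theorem NN_mid (m M k K c : ℕ) (hm : 2 ≤ m) (hM : 30 * m ≤ M) (h1 : (m - 1) * (M + 1) < k)
    (h2 : k ≤ m * M) (hK1 : m * K ≤ k) (hK2 : k < m * (K + 1)) (hc1 : m < c) (hc2 : c ≤ K) :
    NN c k ≤ NN m k := by
  have hK := (m1_K m M K hm hM (by omega)).1
  set s : Multiset ℕ := (Multiset.replicate (k / c) c + {k % c}).filter (fun x => 0 < x) with hs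
  have hpsi : NN c k = psi s := by
    unfold NN
    rw [hs, psi_filter_pos]
  have hpos : ∀ x ∈ s, 0 < x := fun x hx => Multiset.of_mem_filter hx
  have hc0 : 0 < c := by omega
  have hkc := Nat.div_add_mod k c
  have hrc := Nat.mod_lt k hc0
  have hsum : s.sum = k := by
    have h4 := Multiset.filter_add_not (fun x => 0 < x) (Multiset.replicate (k / c) c + {k % c})
    have h5 := congrArg Multiset.sum h4
    have h3 : ((Multiset.replicate (k / c) c + {k % c}).filter (fun x => ¬ 0 < x)).sum = 0 := by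
      apply Multiset.sum_eq_zero
      intro x hx
      have := Multiset.of_mem_filter hx
      omega
    rw [Multiset.sum_add, h3, add_zero, Multiset.sum_add, Multiset.sum_replicate,
      Multiset.sum_singleton, smul_eq_mul, Nat.mul_comm, hkc] at h5
    exact h5
  -- `k < c K`
  have hcK : k < c * K := by
    have h3 : (m + 1) * K ≤ c * K := Nat.mul_le_mul_right _ hc1
    have h4 : (m + 1) * K = m * K + K := by ring
    have h5 : m * (K + 1) = m * K + m := by ring
    omega
  have hdiv : k / c + 1 ≤ K := by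
    have : k / c < K := Nat.div_lt_of_lt_mul hcK
    omega
  have hcard1 : s.card ≤ k / c + 1 := by
    have h3 := Multiset.card_le_card (Multiset.filter_le (fun x => 0 < x)
      (Multiset.replicate (k / c) c + {k % c}))
    rw [Multiset.card_add, Multiset.card_replicate, Multiset.card_singleton] at h3
    exact h3
  have hsup : s.sup = c := by
    apply le_antisymm
    · rw [Multiset.sup_le]
      intro b hb
      have hb2 := Multiset.mem_of_mem_filter hb
      rw [Multiset.mem_add, Multiset.mem_singleton] at hb2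
      rcases hb2 with hb2 | hb2
      · exact (Multiset.eq_of_mem_replicate hb2).le
      · omega
    · apply Multiset.le_sup
      rw [hs, Multiset.mem_filter]
      refine ⟨?_, hc0⟩
      rw [Multiset.mem_add]
      left
      rw [Multiset.mem_replicate]
      refine ⟨?_, rfl⟩
      have : 1 ≤ k / c := by
        rw [Nat.one_le_div_iff hc0]
        have h3 : m * K ≤ k := hK1
        have h4 : 2 * K ≤ m * K := Nat.mul_le_mul_right _ hm
        omega
      omega
  rw [hpsi]
  rcases Nat.le_total s.card s.sup with htw | htw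
  · rcases Nat.lt_or_ge s.sup K with hlt | hge
    · have := m1_narrow m M K s hm hM htw (by rw [hsum]; exact h1) (by rw [hsum]; exact hK1)
        (by rw [hsum]; exact hK2) hlt
      rwa [hsum] at this
    · have hw : s.sup = K := by omega
      have hn : s.card + s.sup ≤ m + M := by
        have hcK' : c = K := by omega
        rw [hw]
        subst hcK'
        have h7 : m * (c + 1) = m * c + m := by ring
        have h8 : k / c = m := by
          apply Nat.div_eq_of_lt_le
          · exact hK1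
          · have h9 : (m + 1) * c = m * c + c := by ring
            omega
        rcases Nat.eq_zero_or_pos (k % c) with h9 | h9
        · have h10 : s = Multiset.replicate (k / c) c := by
            rw [hs, h9, Multiset.filter_add, Multiset.filter_singleton, if_neg (lt_irrefl 0),
              Multiset.filter_eq_self.mpr]
            · exact add_zero _
            · intro a ha
              rw [Multiset.eq_of_mem_replicate ha]
              exact hc0
          have h11 : s.card = m := by rw [h10, Multiset.card_replicate, h8]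
          have h12 : c ≤ M := by
            have : m * c ≤ m * M := by omega
            exact Nat.le_of_mul_le_mul_left this (by omega)
          omega
        · have h12 : c + 1 ≤ M := by
            have h13 : m * c < m * M := by
              have h14 : c * (k / c) = m * c := by rw [h8, Nat.mul_comm]
              omega
            exact Nat.lt_of_mul_lt_mul_left h13
          omega
      have := m1_middle m M K s hm hM hpos htw hn (by rw [hsum]; exact h1)
        (by rw [hsum]; exact hK1) (by rw [hsum]; exact hK2) hw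
      rwa [hsum] at this
  · have e1 := conj_card s
    have e2 := conj_sup s hpos
    have e3 := conj_sum s
    have e4 := psi_conj s
    rw [← e4]
    rcases Nat.lt_or_ge s.card K with hlt | hge
    · have := m1_narrow m M K (conj s) hm hM (by omega) (by rw [e3, hsum]; exact h1)
        (by rw [e3, hsum]; exact hK1) (by rw [e3, hsum]; exact hK2) (by omega)
      rwa [e3, hsum] at this
    · exfalso
      have h3 : K - 1 ≤ k / c := by omega
      have h4 : c * (K - 1) ≤ c * (k / c) := Nat.mul_le_mul_left _ h3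
      obtain ⟨K', rfl⟩ : ∃ K', K = K' + 1 := ⟨K - 1, by omega⟩
      rw [Nat.add_sub_cancel] at h4
      have h5 : (m + 1) * K' ≤ c * K' := Nat.mul_le_mul_right _ hc1
      have h6 : (m + 1) * K' = m * K' + K' := by ring
      have h7 : m * (K' + 1 + 1) = m * K' + 2 * m := by ring
      omega

/-- among the near rectangles with `m ≤ c ≤ M`, the largest value is at an end -/
theorem NN_max (m M k c : ℕ) (hm : 1 ≤ m) (hM : 30 * m ≤ M) (h1 : (m - 1) * (M + 1) < k)
    (h2 : k ≤ m * M) (hc1 : m ≤ c) (hc2 : c ≤ M) : NN c k ≤ max (NN m k) (NN M k) := by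
  rcases Nat.lt_or_ge m 2 with hm2 | hm2
  · have hm1 : m = 1 := by omega
    subst hm1
    apply le_max_of_le_left
    have h3 := NN_ge_rect 1 k k le_rfl (by omega)
    rw [hh_one_left] at h3
    have h4 : NN c k ≤ 1 / ((k : ℝ) + 1) := by
      have h5 := psi_le_inv (Multiset.replicate (k / c) c + {k % c})
      rw [Multiset.sum_add, Multiset.sum_replicate, Multiset.sum_singleton, smul_eq_mul,
        Nat.mul_comm, Nat.div_add_mod] at h5
      exact h5
    exact h4.trans h3
  rcases Nat.eq_or_lt_of_le hc1 with heq | hlt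
  · subst heq
    exact le_max_left _ _
  obtain ⟨K, hK⟩ : ∃ K, K = k / m := ⟨_, rfl⟩
  have hkm := Nat.div_add_mod k m
  have hrm := Nat.mod_lt k (show 0 < m by omega)
  rw [← hK] at hkm
  have hK1 : m * K ≤ k := by omega
  have hK2 : k < m * (K + 1) := by
    have : m * (K + 1) = m * K + m := by ring
    omega
  rcases Nat.lt_or_ge K c with hKc | hKc
  · have hKm := (m1_K m M K hm2 hM (by omega)).1
    have hmm : m - 1 + 1 = m := by omega
    have hform : ∀ c', K + 1 ≤ c' → c' ≤ M → NN c' k = FF k (m - 1) c' := by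
      intro c' h3 h4
      apply NN_FF
      · have h5 : (m - 1) * c' ≤ (m - 1) * (M + 1) := Nat.mul_le_mul_left _ (by omega)
        omega
      · rw [hmm]
        have : m * (K + 1) ≤ m * c' := Nat.mul_le_mul_left _ h3
        omega
    have hle : ∀ c', c' ≤ M → (m - 1) * c' ≤ k := by
      intro c' h4
      have h5 : (m - 1) * c' ≤ (m - 1) * (M + 1) := Nat.mul_le_mul_left _ (by omega)
      omega
    have hconv := conv_max (fun c' => FF k (m - 1) c') (K + 1) M
      (fun c' _ h4 => FF_pos k (m - 1) c' (hle c' h4))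
      (fun c' _ h4 => FF_conv k (m - 1) c' (by omega) (hle (c' + 2) h4)) c (by omega) hc2
    rw [hform c (by omega) hc2, hform M (by omega) le_rfl]
    refine hconv.trans (max_le_max ?_ le_rfl)
    have h6 := FF_le_NN m K (k % m) hrm (by omega)
    rw [hkm] at h6
    exact h6
  · exact le_max_of_le_left (NN_mid m M k K c hm2 hM h1 h2 hK1 hK2 hlt hKc)

/-- all shapes, closed form -/
theorem main_closed (m M : ℕ) (s : Multiset ℕ) (hm : 1 ≤ m) (hM : 30 * m ≤ M)
    (hpos : ∀ x ∈ s, 0 < x) (hn : s.card + s.sup ≤ m + M) (h1 : (m - 1) * (M + 1) < s.sum)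
    (h2 : s.sum ≤ m * M) : psi s ≤ max (NN m s.sum) (NN M s.sum) := by
  obtain ⟨c, hc1, hc2, hc3⟩ := main_all m M s hm hM hpos hn h1
  exact hc3.trans (max_le (le_max_left _ _) (NN_max m M s.sum c hm hM h1 h2 hc1 hc2))

end Pool.Agent.LRT
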